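import Pool.Agent.Helper50.CG.Basic

/-! # CG-12a: affine change of variables and constant factors

`M' x = c • M (a + r • x)`.
PROOF. `pd i (fun x => F (a + r • x)) x = r * pd i F (a + r • x)` holds for every `F` (line
derivatives, `deriv_comp_mul_left`-type lemma; `r ≠ 0` or trivial for `r = 0`), also for `c * F`
(`deriv_const_mul_field`). So `Γ' = r Γ ∘ A` (`c⁻¹ c = 1`), `Ric' = r² Ric ∘ A`,
`scal' = c⁻¹ r² scal ∘ A`. Integrals: `Measure.integral_comp_smul`-type lemma or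
`MeasureTheory.Measure.addHaar_preimage_smul` with `integral_add_left_eq_self`;
`{x | a + r x ∈ eball a (r ρ)} = B n ρ`. -/

namespace Pool.Agent.Helper50.CG

open scoped ContDiff Topology
open Pool.Agent.Helper49.Ric Pool.Agent.Helper73.HB Pool.Agent.Helper50.CF MeasureTheory Filter

noncomputable section

variable {n : ℕ} {K S lam : ℝ} {Ω : Set (Fin n → ℝ)}
  {G : (Fin n → ℝ) → Matrix (Fin n) (Fin n) ℝ} {u : (Fin n → ℝ) → ℝ} {p : Fin n → ℝ}

private theorem pd_dil' (F : (Fin n → ℝ) → ℝ) (a : Fin n → ℝ) (r c : ℝ) (i : Fin n)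
    (x : Fin n → ℝ) : pd i (fun y => c * F (a + r • y)) x = c * (r * pd i F (a + r • x)) := by
  have h1 : pd i (fun y => c * F (a + r • y)) x =
      deriv (fun t : ℝ => c * F ((a + r • x) + t • (r • (Pi.single i (1 : ℝ) : Fin n → ℝ))))
        0 := by
    unfold pd lineDeriv
    congr 1
    funext t
    change c * F (a + r • (x + t • Pi.single i 1)) = _
    rw [smul_add, smul_comm r t, add_assoc]
  have h2 : lineDeriv ℝ F (a + r • x) (r • (Pi.single i (1 : ℝ) : Fin n → ℝ)) =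
      r * pd i F (a + r • x) := by
    unfold pd
    rw [lineDeriv_smul, smul_eq_mul]
  rw [h1, deriv_const_mul_field, ← h2]
  rfl

private theorem mem_dil' {a x : Fin n → ℝ} {r s : ℝ} (hr : 0 < r) :
    a + r • x ∈ eball a (s * r) ↔ x ∈ B n s := by
  have h : ∑ i, ((a + r • x) i - a i) ^ 2 = r ^ 2 * ∑ i, x i ^ 2 := by
    rw [Finset.mul_sum]
    refine Finset.sum_congr rfl fun i _ => ?_
    simp only [Pi.add_apply, Pi.smul_apply, smul_eq_mul]
    ring
  unfold eball B
  rw [Set.mem_ofPred_eq, Set.mem_ofPred_eq, h, mul_pow, mul_comm (s ^ 2)]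
  exact mul_lt_mul_iff_right₀ (pow_pos hr 2)

private theorem isOpen_eball' (a : Fin n → ℝ) (r : ℝ) : IsOpen (eball a r) := by
  unfold eball
  exact isOpen_lt (by fun_prop) continuous_const

/-- the affine change of variables -/
def aff (a : Fin n → ℝ) (r : ℝ) (x : Fin n → ℝ) : Fin n → ℝ := a + r • x

theorem pd_aff (a : Fin n → ℝ) (r c : ℝ) (F : (Fin n → ℝ) → ℝ) (x : Fin n → ℝ) (i : Fin n) :
    pd i (fun y => c * F (aff a r y)) x = c * (r * pd i F (aff a r x)) := by
  exact pd_dil' F a r c i x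

private theorem inv_smul_gen {c : ℝ} (hc : c ≠ 0) (A : Matrix (Fin n) (Fin n) ℝ) :
    (c • A)⁻¹ = c⁻¹ • A⁻¹ := by
  by_cases h : IsUnit A.det
  · let _ := invertibleOfNonzero hc
    rw [Matrix.inv_smul (k := c) A h, invOf_eq_inv]
  · have h1 : ¬ IsUnit (c • A).det := by
      rw [Matrix.det_smul]
      intro h2
      apply h
      rw [isUnit_iff_ne_zero] at h2 ⊢
      exact right_ne_zero_of_mul h2
    rw [Matrix.nonsing_inv_apply_not_isUnit _ h1, Matrix.nonsing_inv_apply_not_isUnit _ h,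
      smul_zero]

private theorem christoffel_aff (a : Fin n → ℝ) (r : ℝ) {c : ℝ} (hc : c ≠ 0)
    (M : (Fin n → ℝ) → Matrix (Fin n) (Fin n) ℝ) (m i j : Fin n) :
    christoffel (fun y => c • M (aff a r y)) m i j =
      fun x => r * christoffel M m i j (aff a r x) := by
  funext x
  unfold christoffel
  have hp : ∀ k i j, pd k (fun q => c * M (aff a r q) i j) x =
      c * (r * pd k (fun q => M q i j) (aff a r x)) := fun k i j =>
    pd_aff a r c (fun q => M q i j) x k
  simp only [inv_smul_gen hc, Matrix.smul_apply, smul_eq_mul, hp, Finset.mul_sum]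
  refine Finset.sum_congr rfl fun l _ => ?_
  field_simp

theorem ricci_aff (a : Fin n → ℝ) (r : ℝ) {c : ℝ} (hc : c ≠ 0)
    (M : (Fin n → ℝ) → Matrix (Fin n) (Fin n) ℝ) (x : Fin n → ℝ) (i j : Fin n) :
    ricci (fun y => c • M (aff a r y)) i j x = r ^ 2 * ricci M i j (aff a r x) := by
  unfold ricci
  simp only [christoffel_aff a r hc, pd_aff, Finset.mul_sum]
  refine Finset.sum_congr rfl fun m _ => ?_
  rw [mul_add, Finset.mul_sum]
  congr 1
  · ring
  · exact Finset.sum_congr rfl fun l _ => by ring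

theorem scal_aff (a : Fin n → ℝ) (r : ℝ) {c : ℝ} (hc : c ≠ 0)
    (M : (Fin n → ℝ) → Matrix (Fin n) (Fin n) ℝ) (x : Fin n → ℝ) :
    scal (fun y => c • M (aff a r y)) x = c⁻¹ * r ^ 2 * scal M (aff a r x) := by
  unfold scal
  simp only [ricci_aff a r hc, inv_smul_gen hc, Matrix.smul_apply, smul_eq_mul, Finset.mul_sum]
  exact Finset.sum_congr rfl fun i _ => Finset.sum_congr rfl fun j _ => by ring

theorem isMetricOn_aff {a : Fin n → ℝ} {r : ℝ} (hr : 0 < r) (hG : IsMetricOn Ω G) :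
    IsMetricOn {x | aff a r x ∈ Ω} (fun y => G (aff a r y)) := by
  have _ := hr
  refine ⟨fun p hp i j => ?_, fun p hp i j => hG.symm _ hp i j, fun p hp => hG.pos _ hp⟩
  have h1 : ContDiffAt ℝ ∞ (aff a r) p := by
    unfold aff
    fun_prop
  exact (hG.smooth _ hp i j).comp p h1

theorem mem_eball_aff {a : Fin n → ℝ} {r ρ : ℝ} (hr : 0 < r) (hρ : 0 ≤ ρ) (x : Fin n → ℝ) :
    aff a r x ∈ eball a (r * ρ) ↔ x ∈ B n ρ := by
  have _ := hρ
  rw [mul_comm]
  exact mem_dil' hr

theorem mem_ecball_aff {a : Fin n → ℝ} {r ρ : ℝ} (hr : 0 < r) (hρ : 0 ≤ ρ) (x : Fin n → ℝ) :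
    aff a r x ∈ ecball a (r * ρ) ↔ x ∈ Bc n ρ := by
  have _ := hρ
  have h : ∑ i, ((aff a r x) i - a i) ^ 2 = r ^ 2 * ∑ i, x i ^ 2 := by
    rw [Finset.mul_sum]
    refine Finset.sum_congr rfl fun i _ => ?_
    unfold aff
    simp only [Pi.add_apply, Pi.smul_apply, smul_eq_mul]
    ring
  unfold ecball Bc
  rw [Set.mem_ofPred_eq, Set.mem_ofPred_eq, h, mul_pow]
  exact mul_le_mul_iff_right₀ (pow_pos hr 2)

theorem integral_aff {a : Fin n → ℝ} {r : ℝ} (hr : 0 < r) (F : (Fin n → ℝ) → ℝ) :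
    ∫ x, F (aff a r x) = (r ^ n)⁻¹ * ∫ y, F y := by
  have h1 : ∫ x, F (a + r • x) = |(r ^ Module.finrank ℝ (Fin n → ℝ))⁻¹| • ∫ y, F (a + y) :=
    Measure.integral_comp_smul volume (fun y => F (a + y)) r
  unfold aff
  rw [h1, integral_add_left_eq_self, Module.finrank_fin_fun, smul_eq_mul,
    abs_of_pos (inv_pos.mpr (pow_pos hr n))]

theorem setIntegral_aff {a : Fin n → ℝ} {r ρ : ℝ} (hr : 0 < r) (hρ : 0 ≤ ρ)
    (F : (Fin n → ℝ) → ℝ) :
    ∫ x in B n ρ, F (aff a r x) = (r ^ n)⁻¹ * ∫ y in eball a (r * ρ), F y := by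
  have h1 : ∀ x, (B n ρ).indicator (fun x => F (aff a r x)) x =
      (eball a (r * ρ)).indicator F (aff a r x) := by
    intro x
    by_cases hx : x ∈ B n ρ
    · rw [Set.indicator_of_mem hx, Set.indicator_of_mem ((mem_eball_aff hr hρ x).mpr hx)]
    · rw [Set.indicator_of_notMem hx,
        Set.indicator_of_notMem fun h => hx ((mem_eball_aff hr hρ x).mp h)]
  rw [← integral_indicator (measurableSet_B ρ), integral_congr_ae (Eventually.of_forall h1),
    integral_aff hr, integral_indicator (isOpen_eball' a (r * ρ)).measurableSet]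

end

end Pool.Agent.Helper50.CG
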