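import Pool.Agent.Helper50.CG.Defs

/-! Basic facts on the measure `mu n G`, continuity and integrability. -/

namespace Pool.Agent.Helper50.CG

open scoped ContDiff Topology
open Pool.Agent.Helper49.Ric Pool.Agent.Helper73.HB Pool.Agent.Helper50.CF MeasureTheory Filter

noncomputable section

variable {n : ℕ} {K S lam : ℝ} {Ω : Set (Fin n → ℝ)}
  {G : (Fin n → ℝ) → Matrix (Fin n) (Fin n) ℝ} {u : (Fin n → ℝ) → ℝ} {p : Fin n → ℝ}

theorem Core.sub2 (h : Core n K S lam Ω G u) : B n 2 ⊆ Ω := (B_subset_Bc 2).trans h.sub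

theorem grG_nonneg (G : (Fin n → ℝ) → Matrix (Fin n) (Fin n) ℝ) (u : (Fin n → ℝ) → ℝ)
    (p : Fin n → ℝ) : 0 ≤ grG G u p := Real.sqrt_nonneg _

theorem grG_sq (hG : IsMetricOn Ω G) (hp : p ∈ Ω) : grG G u p ^ 2 = ip G u u p :=
  Real.sq_sqrt (ip_nonneg hG hp)

/-- Cauchy–Schwarz -/
theorem abs_ip_le (hG : IsMetricOn Ω G) (hp : p ∈ Ω) (f u : (Fin n → ℝ) → ℝ) :
    |ip G f u p| ≤ grG G f p * grG G u p := by
  unfold grG
  rw [← Real.sqrt_mul (ip_nonneg hG hp)]
  exact Real.abs_le_sqrt (ip_cs hG hp)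

/-- the gradient of a test function -/
theorem Core.grG_le (h : Core n K S lam Ω G u) (hp : p ∈ B n 2) (f : (Fin n → ℝ) → ℝ) :
    grG G f p ≤ K * gr f p := by
  have h1 := h.dual p hp f
  have h2 : 0 ≤ gs f p := gs_nonneg f p
  have h3 : K * gs f p ≤ K ^ 2 * gs f p := by
    have := h.hK
    nlinarith [mul_nonneg (mul_nonneg (by linarith : (0 : ℝ) ≤ K) (by linarith : (0 : ℝ) ≤ K - 1))
      h2]
  unfold grG gr
  have h4 : Real.sqrt (K ^ 2 * gs f p) = K * Real.sqrt (gs f p) := by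
    rw [Real.sqrt_mul (sq_nonneg K), Real.sqrt_sq (by linarith [h.hK])]
  rw [← h4]
  exact Real.sqrt_le_sqrt (h1.trans h3)

theorem continuousAt_grG (hG : IsMetricOn Ω G) (hp : p ∈ Ω) (hu : ContDiffAt ℝ ∞ u p) :
    ContinuousAt (grG G u) p := by
  unfold grG
  exact (smooth_ip hG hp hu hu).continuousAt.sqrt

theorem Core.cu (h : Core n K S lam Ω G u) : ContinuousOn u (Bc n 2) :=
  fun p hp => (h.smooth p (h.sub hp)).continuousAt.continuousWithinAt

theorem Core.cgr (h : Core n K S lam Ω G u) : ContinuousOn (grG G u) (Bc n 2) :=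
  fun p hp => (continuousAt_grG h.met (h.sub hp) (h.smooth p (h.sub hp))).continuousWithinAt

theorem cdens (hG : IsMetricOn Ω G) (hs : Bc n 2 ⊆ Ω) : ContinuousOn (dens G) (Bc n 2) :=
  fun _ hp => (smooth_dens hG (hs hp)).continuousAt.continuousWithinAt

theorem aem_dens (hG : IsMetricOn Ω G) (hs : Bc n 2 ⊆ Ω) :
    AEMeasurable (dens G) (volume.restrict (B n 2)) :=
  ((cdens hG hs).mono (B_subset_Bc 2)).aemeasurable (measurableSet_B 2)

theorem fin_mu (hG : IsMetricOn Ω G) (hs : Bc n 2 ⊆ Ω) : IsFiniteMeasure (mu n G) := by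
  unfold mu
  refine isFiniteMeasure_withDensity_ofReal ?_
  exact (integrableOn_of (cdens hG hs) subset_rfl).2

/-- integrals with respect to `mu` -/
theorem integral_mu (hG : IsMetricOn Ω G) (hs : Bc n 2 ⊆ Ω) (f : (Fin n → ℝ) → ℝ) :
    ∫ p, f p ∂(mu n G) = ∫ p in B n 2, dens G p * f p := by
  unfold mu
  rw [integral_withDensity_eq_integral_toReal_smul₀ (aem_dens hG hs).ennreal_ofReal
    (Eventually.of_forall fun _ => ENNReal.ofReal_lt_top)]
  refine integral_congr_ae ?_
  filter_upwards [ae_restrict_mem (measurableSet_B (n := n) 2)] with p hp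
  rw [ENNReal.toReal_ofReal (dens_pos hG (hs (B_subset_Bc 2 hp))).le]
  rfl

theorem mu_restrict (A : Set (Fin n → ℝ)) (hA : MeasurableSet A) :
    (mu n G).restrict A =
      ((volume.restrict (B n 2)).restrict A).withDensity
        (fun p => ENNReal.ofReal (dens G p)) := by
  unfold mu
  exact restrict_withDensity hA _

/-- set integrals with respect to `mu` -/
theorem setIntegral_mu (hG : IsMetricOn Ω G) (hs : Bc n 2 ⊆ Ω) (f : (Fin n → ℝ) → ℝ)
    {A : Set (Fin n → ℝ)} (hA : A ⊆ B n 2) (hm : MeasurableSet A) :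
    ∫ p in A, f p ∂(mu n G) = ∫ p in A, dens G p * f p := by
  rw [← integral_indicator hm, integral_mu hG hs, ← integral_indicator (measurableSet_B 2),
    ← integral_indicator hm]
  congr 1
  funext p
  by_cases hp : p ∈ A
  · rw [Set.indicator_of_mem (hA hp), Set.indicator_of_mem hp, Set.indicator_of_mem hp]
  · by_cases hp2 : p ∈ B n 2
    · rw [Set.indicator_of_mem hp2, Set.indicator_of_notMem hp, Set.indicator_of_notMem hp,
        mul_zero]
    · rw [Set.indicator_of_notMem hp2, Set.indicator_of_notMem hp]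

theorem ae_mem_B : ∀ᵐ p ∂(mu n G), p ∈ B n 2 := by
  unfold mu
  exact (withDensity_absolutelyContinuous _ _).ae_le (ae_restrict_mem (measurableSet_B 2))

/-- functions which agree on `B n 2` have the same integral -/
theorem integral_congr_B {f g : (Fin n → ℝ) → ℝ} (h : ∀ p ∈ B n 2, f p = g p) :
    ∫ p, f p ∂(mu n G) = ∫ p, g p ∂(mu n G) :=
  integral_congr_ae (by filter_upwards [ae_mem_B] with p hp using h p hp)

/-- a function continuous on the closed ball of radius two is integrable for `mu` -/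
theorem integrable_of (hG : IsMetricOn Ω G) (hs : Bc n 2 ⊆ Ω) {f : (Fin n → ℝ) → ℝ}
    (hf : ContinuousOn f (Bc n 2)) : Integrable f (mu n G) := by
  haveI := fin_mu hG hs
  obtain ⟨C, hC⟩ := (isCompact_Bc 2).exists_bound_of_continuousOn hf
  have h1 : AEStronglyMeasurable f (volume.restrict (B n 2)) :=
    (hf.mono (B_subset_Bc 2)).aestronglyMeasurable (measurableSet_B 2)
  have h2 : AEStronglyMeasurable f (mu n G) := by
    unfold mu
    exact h1.mono_ac (withDensity_absolutelyContinuous _ _)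
  refine Integrable.of_bound h2 C ?_
  filter_upwards [ae_mem_B] with p hp using hC p (B_subset_Bc 2 hp)

theorem integrableOn_ofG (hG : IsMetricOn Ω G) (hs : Bc n 2 ⊆ Ω) {f : (Fin n → ℝ) → ℝ}
    (hf : ContinuousOn f (Bc n 2)) (A : Set (Fin n → ℝ)) : IntegrableOn f A (mu n G) :=
  (integrable_of hG hs hf).integrableOn

theorem integral_mono_setG (hG : IsMetricOn Ω G) (hs : Bc n 2 ⊆ Ω) {f : (Fin n → ℝ) → ℝ}
    (hf : ContinuousOn f (Bc n 2)) {A A' : Set (Fin n → ℝ)} (h : A ⊆ A') (hm : MeasurableSet A')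
    (h0 : ∀ p ∈ A', 0 ≤ f p) : ∫ p in A, f p ∂(mu n G) ≤ ∫ p in A', f p ∂(mu n G) :=
  setIntegral_mono_set (integrableOn_ofG hG hs hf A')
    ((ae_restrict_iff' hm).mpr (Eventually.of_forall h0)) (Eventually.of_forall h)

end

end Pool.Agent.Helper50.CG
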