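import Pool.Agent.Helper50.CG.ConfRic

/-! # CG-1b: consequences of the formula for the Ricci tensor, pointwise bounds

PROOF. `scal_cmet`: contract `ricci_cmet` with `(cmet u G p)⁻¹ = e^{-2u} G⁻¹`
(`Σ gⁱʲ gᵢⱼ = n`, `Σ gⁱʲ hessᵢⱼ = lap`, `Σ gⁱʲ uᵢuⱼ = ip`), times `e^{nu} dens`.
`scal_upper`: `scal_lower` of HB (trace of a nonnegative form) applied to ... or directly: the form
`R G - Ric_G` is nonnegative, so is its trace; HB `Point.lean` has the tools (`pt_K`, `pt_Ktrace`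
with the Ricci tensor; if they are tied to `ricci G` use a frame `E * E = (G p)⁻¹`,
`exists_sqrt (inv_posDef hG hp)`, and `Σᵢⱼ gⁱʲ Tᵢⱼ = Σₖ T(E eₖ, E eₖ)`).
`P1`: trace of the hypothesis with `G⁻¹` (same tool), `scal_upper`, `n ≤ 2(n-1)`.
`P2`: the hypothesis at `v = grad G u`, `Σ gᵢⱼ uⁱ uʲ = ip`, `Σ uᵢ uⁱ = ip`.
`dual_of`: `cov_bound` of HB with `ξ = ∂f`, `s² = K gs f p`.
`dens_le`: the eigenvalues of `G p` lie in `(0, K]`, `det ≤ K^n ≤ (K^n)²`. -/

namespace Pool.Agent.Helper50.CG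

open scoped ContDiff Topology
open Pool.Agent.Helper49.Ric Pool.Agent.Helper73.HB Pool.Agent.Helper50.CF MeasureTheory Filter

noncomputable section

variable {n : ℕ} {K S lam : ℝ} {Ω : Set (Fin n → ℝ)}
  {G : (Fin n → ℝ) → Matrix (Fin n) (Fin n) ℝ} {u : (Fin n → ℝ) → ℝ} {p : Fin n → ℝ}

/-- the trace of a nonnegative form -/
theorem trace_nonneg_of (hG : IsMetricOn Ω G) (hp : p ∈ Ω) {T : Fin n → Fin n → ℝ}
    (hT : ∀ v : Fin n → ℝ, 0 ≤ ∑ i, ∑ j, T i j * v i * v j) :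
    0 ≤ ∑ i, ∑ j, (G p)⁻¹ i j * T i j := by
  obtain ⟨E, hE, hEE⟩ := exists_sqrt (inv_posDef hG hp)
  have hEs : ∀ i j, E i j = E j i := by
    intro i j
    have h := hE.isHermitian.apply i j
    simpa using h.symm
  have h1 : ∑ i, ∑ j, (G p)⁻¹ i j * T i j = ∑ k, ∑ i, ∑ j, T i j * E i k * E j k := by
    have h2 : ∀ i j, (G p)⁻¹ i j * T i j = ∑ k, T i j * E i k * E j k := by
      intro i j
      rw [← hEE, Matrix.mul_apply, Finset.sum_mul]
      refine Finset.sum_congr rfl fun k _ => ?_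
      rw [hEs k j]
      ring
    rw [Finset.sum_congr rfl fun i _ => Finset.sum_congr rfl fun j _ => h2 i j]
    rw [Finset.sum_comm (s := Finset.univ (α := Fin n)) (t := Finset.univ (α := Fin n))
      (f := fun k i => ∑ j, T i j * E i k * E j k)]
    refine Finset.sum_congr rfl fun i _ => ?_
    exact Finset.sum_comm
  rw [h1]
  exact Finset.sum_nonneg fun k _ => hT fun i => E i k

/-- the trace of the metric -/
theorem sum_inv_metric (hG : IsMetricOn Ω G) (hp : p ∈ Ω) :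
    ∑ i, ∑ j, (G p)⁻¹ i j * G p i j = n := by
  have h1 : ∀ i, ∑ j, (G p)⁻¹ i j * G p i j = 1 := by
    intro i
    have h2 := inv_mul_metric hG hp i i
    rw [if_pos rfl] at h2
    rw [← h2]
    refine Finset.sum_congr rfl fun j _ => ?_
    rw [hG.symm p hp i j]
  rw [Finset.sum_congr rfl fun i _ => h1 i]
  simp

/-- the trace of the Ricci tensor of `cmet u G` with respect to `G` -/
theorem trace_ricci_cmet (hΩ : IsOpen Ω) (hG : IsMetricOn Ω G)
    (hu : ∀ q ∈ Ω, ContDiffAt ℝ ∞ u q) (hp : p ∈ Ω) :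
    ∑ i, ∑ j, (G p)⁻¹ i j * ricci (cmet u G) i j p =
      scal G p - 2 * ((n : ℝ) - 1) * lap G u p - ((n : ℝ) - 1) * ((n : ℝ) - 2) * ip G u u p := by
  have h1 : ∀ i j, (G p)⁻¹ i j * ricci (cmet u G) i j p =
      (G p)⁻¹ i j * ricci G i j p - ((n : ℝ) - 2) * ((G p)⁻¹ i j * hess G u i j p)
      + ((n : ℝ) - 2) * ((G p)⁻¹ i j * pd i u p * pd j u p)
      - (lap G u p + ((n : ℝ) - 2) * ip G u u p) * ((G p)⁻¹ i j * G p i j) := by
    intro i j
    rw [ricci_cmet hΩ hG hu hp]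
    ring
  rw [Finset.sum_congr rfl fun i _ => Finset.sum_congr rfl fun j _ => h1 i j]
  simp only [Finset.sum_sub_distrib, Finset.sum_add_distrib, ← Finset.mul_sum]
  rw [sum_inv_metric hG hp]
  have e1 : ∑ i, ∑ j, (G p)⁻¹ i j * ricci G i j p = scal G p := rfl
  have e2 : ∑ i, ∑ j, (G p)⁻¹ i j * hess G u i j p = lap G u p := rfl
  have e3 : ∑ i, ∑ j, (G p)⁻¹ i j * pd i u p * pd j u p = ip G u u p := rfl
  rw [e1, e2, e3]
  ring

theorem scal_cmet (hΩ : IsOpen Ω) (hG : IsMetricOn Ω G)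
    (hu : ∀ q ∈ Ω, ContDiffAt ℝ ∞ u q) (hp : p ∈ Ω) :
    scal (cmet u G) p * Real.sqrt (cmet u G p).det =
      dens G p * ((scal G p - 2 * ((n : ℝ) - 1) * lap G u p
        - ((n : ℝ) - 1) * ((n : ℝ) - 2) * ip G u u p) * Real.exp ((n - 2) * u p)) := by
  have h1 : scal (cmet u G) p = Real.exp (-(2 * u p)) *
      ∑ i, ∑ j, (G p)⁻¹ i j * ricci (cmet u G) i j p := by
    unfold scal
    rw [inv_cmet hG hp, Finset.mul_sum]
    refine Finset.sum_congr rfl fun i _ => ?_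
    rw [Finset.mul_sum]
    refine Finset.sum_congr rfl fun j _ => ?_
    rw [Matrix.smul_apply, smul_eq_mul]
    ring
  rw [h1, trace_ricci_cmet hΩ hG hu hp, dens_cmet hG hp]
  have h2 : Real.exp (((n : ℝ) - 2) * u p) = Real.exp (-(2 * u p)) * Real.exp (n * u p) := by
    rw [← Real.exp_add]
    congr 1
    ring
  rw [h2]
  ring

theorem scal_upper (hG : IsMetricOn Ω G) (hp : p ∈ Ω) {R : ℝ}
    (hup : ∀ v : Fin n → ℝ, ∑ i, ∑ j, ricci G i j p * v i * v j ≤
      R * ∑ i, ∑ j, G p i j * v i * v j) : scal G p ≤ n * R := by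
  have h1 := trace_nonneg_of hG hp (T := fun i j => R * G p i j - ricci G i j p) (fun v => by
    have h2 : ∑ i, ∑ j, (R * G p i j - ricci G i j p) * v i * v j =
        R * ∑ i, ∑ j, G p i j * v i * v j - ∑ i, ∑ j, ricci G i j p * v i * v j := by
      rw [Finset.mul_sum, ← Finset.sum_sub_distrib]
      refine Finset.sum_congr rfl fun i _ => ?_
      rw [Finset.mul_sum, ← Finset.sum_sub_distrib]
      refine Finset.sum_congr rfl fun j _ => ?_
      ring
    rw [h2]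
    linarith [hup v])
  have h3 : ∑ i, ∑ j, (G p)⁻¹ i j * (R * G p i j - ricci G i j p) =
      R * ∑ i, ∑ j, (G p)⁻¹ i j * G p i j - scal G p := by
    unfold scal
    rw [Finset.mul_sum, ← Finset.sum_sub_distrib]
    refine Finset.sum_congr rfl fun i _ => ?_
    rw [Finset.mul_sum, ← Finset.sum_sub_distrib]
    refine Finset.sum_congr rfl fun j _ => ?_
    ring
  rw [h3, sum_inv_metric hG hp] at h1
  linarith

theorem P1_cmet (hn : 3 ≤ n) (hΩ : IsOpen Ω) (hG : IsMetricOn Ω G)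
    (hu : ∀ q ∈ Ω, ContDiffAt ℝ ∞ u q) (hp : p ∈ Ω) {R : ℝ} (hR : 0 ≤ R) (hlam : 0 ≤ lam)
    (hup : ∀ v : Fin n → ℝ, ∑ i, ∑ j, ricci G i j p * v i * v j ≤
      R * ∑ i, ∑ j, G p i j * v i * v j)
    (hRic : ∀ v : Fin n → ℝ, -lam * ∑ i, ∑ j, cmet u G p i j * v i * v j ≤
      ∑ i, ∑ j, ricci (cmet u G) i j p * v i * v j) :
    lap G u p ≤ -(((n : ℝ) - 2) / 2) * ip G u u p + (lam * Real.exp (2 * u p) + R) := by
  have hn3 : (3 : ℝ) ≤ n := by exact_mod_cast hn
  have h1 := trace_nonneg_of hG hp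
    (T := fun i j => lam * Real.exp (2 * u p) * G p i j + ricci (cmet u G) i j p) (fun v => by
    have h2 : ∑ i, ∑ j, (lam * Real.exp (2 * u p) * G p i j + ricci (cmet u G) i j p) * v i * v j =
        lam * ∑ i, ∑ j, cmet u G p i j * v i * v j +
          ∑ i, ∑ j, ricci (cmet u G) i j p * v i * v j := by
      rw [Finset.mul_sum, ← Finset.sum_add_distrib]
      refine Finset.sum_congr rfl fun i _ => ?_
      rw [Finset.mul_sum, ← Finset.sum_add_distrib]
      refine Finset.sum_congr rfl fun j _ => ?_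
      unfold cmet
      rw [Matrix.smul_apply, smul_eq_mul]
      ring
    rw [h2]
    linarith [hRic v])
  have h3 : ∑ i, ∑ j, (G p)⁻¹ i j *
      (lam * Real.exp (2 * u p) * G p i j + ricci (cmet u G) i j p) =
      lam * Real.exp (2 * u p) * ∑ i, ∑ j, (G p)⁻¹ i j * G p i j +
        ∑ i, ∑ j, (G p)⁻¹ i j * ricci (cmet u G) i j p := by
    rw [Finset.mul_sum, ← Finset.sum_add_distrib]
    refine Finset.sum_congr rfl fun i _ => ?_
    rw [Finset.mul_sum, ← Finset.sum_add_distrib]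
    refine Finset.sum_congr rfl fun j _ => ?_
    ring
  rw [h3, sum_inv_metric hG hp, trace_ricci_cmet hΩ hG hu hp] at h1
  have h4 := scal_upper hG hp hup
  have hE : 0 ≤ lam * Real.exp (2 * u p) := mul_nonneg hlam (Real.exp_pos _).le
  -- 2 (n-1) lap ≤ n (lam e + R) - (n-1)(n-2) ip
  have h5 : 2 * ((n : ℝ) - 1) * lap G u p ≤
      n * (lam * Real.exp (2 * u p) + R) - ((n : ℝ) - 1) * ((n : ℝ) - 2) * ip G u u p := by
    linarith
  have h6 : (n : ℝ) * (lam * Real.exp (2 * u p) + R) ≤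
      2 * ((n : ℝ) - 1) * (lam * Real.exp (2 * u p) + R) :=
    mul_le_mul_of_nonneg_right (by linarith) (by linarith)
  have h7 : 2 * ((n : ℝ) - 1) * lap G u p ≤
      2 * ((n : ℝ) - 1) * (-(((n : ℝ) - 2) / 2) * ip G u u p + (lam * Real.exp (2 * u p) + R)) := by
    have e : 2 * ((n : ℝ) - 1) * (-(((n : ℝ) - 2) / 2) * ip G u u p +
        (lam * Real.exp (2 * u p) + R)) =
        2 * ((n : ℝ) - 1) * (lam * Real.exp (2 * u p) + R)
          - ((n : ℝ) - 1) * ((n : ℝ) - 2) * ip G u u p := by ring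
    rw [e]
    linarith
  exact le_of_mul_le_mul_left h7 (by linarith)

/-- `Σⱼ gᵢⱼ uʲ = uᵢ` -/
theorem low_grad (hG : IsMetricOn Ω G) (hp : p ∈ Ω) (f : (Fin n → ℝ) → ℝ) (i : Fin n) :
    ∑ j, G p i j * grad G f j p = pd i f p := by
  unfold grad
  simp only [Finset.mul_sum]
  rw [Finset.sum_comm]
  have h2 : ∀ l, ∑ j, G p i j * ((G p)⁻¹ j l * pd l f p) =
      (if i = l then 1 else 0) * pd l f p := by
    intro l
    rw [← mul_inv_metric hG hp i l, Finset.sum_mul]
    refine Finset.sum_congr rfl fun j _ => ?_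
    ring
  rw [Finset.sum_congr rfl fun l _ => h2 l]
  simp

theorem pd_grad (G : (Fin n → ℝ) → Matrix (Fin n) (Fin n) ℝ) (f : (Fin n → ℝ) → ℝ)
    (p : Fin n → ℝ) : ∑ i, pd i f p * grad G f i p = ip G f f p := by
  unfold grad ip
  refine Finset.sum_congr rfl fun i _ => ?_
  rw [Finset.mul_sum]
  refine Finset.sum_congr rfl fun j _ => ?_
  ring

theorem metric_grad (hG : IsMetricOn Ω G) (hp : p ∈ Ω) (f : (Fin n → ℝ) → ℝ) :
    ∑ i, ∑ j, G p i j * grad G f i p * grad G f j p = ip G f f p := by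
  rw [← pd_grad G f p]
  refine Finset.sum_congr rfl fun i _ => ?_
  rw [← low_grad hG hp f i, Finset.sum_mul]
  refine Finset.sum_congr rfl fun j _ => ?_
  ring

theorem P2_cmet (hn : 3 ≤ n) (hΩ : IsOpen Ω) (hG : IsMetricOn Ω G)
    (hu : ∀ q ∈ Ω, ContDiffAt ℝ ∞ u q) (hp : p ∈ Ω) {R : ℝ}
    (hup : ∀ v : Fin n → ℝ, ∑ i, ∑ j, ricci G i j p * v i * v j ≤
      R * ∑ i, ∑ j, G p i j * v i * v j)
    (hRic : ∀ v : Fin n → ℝ, -lam * ∑ i, ∑ j, cmet u G p i j * v i * v j ≤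
      ∑ i, ∑ j, ricci (cmet u G) i j p * v i * v j) :
    ((n : ℝ) - 2) * hqG G u p + lap G u p * ip G u u p ≤
      (lam * Real.exp (2 * u p) + R) * ip G u u p := by
  have h1 := hRic fun i => grad G u i p
  have h2 := hup fun i => grad G u i p
  rw [metric_grad hG hp] at h2
  have h3 : ∑ i, ∑ j, cmet u G p i j * grad G u i p * grad G u j p =
      Real.exp (2 * u p) * ip G u u p := by
    rw [← metric_grad hG hp u, Finset.mul_sum]
    refine Finset.sum_congr rfl fun i _ => ?_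
    rw [Finset.mul_sum]
    refine Finset.sum_congr rfl fun j _ => ?_
    unfold cmet
    rw [Matrix.smul_apply, smul_eq_mul]
    ring
  have h4 : ∑ i, ∑ j, ricci (cmet u G) i j p * grad G u i p * grad G u j p =
      ∑ i, ∑ j, ricci G i j p * grad G u i p * grad G u j p - ((n : ℝ) - 2) * hqG G u p
        + ((n : ℝ) - 2) * (ip G u u p * ip G u u p)
        - (lap G u p + ((n : ℝ) - 2) * ip G u u p) * ip G u u p := by
    have e0 : ∑ i, (pd i u p * grad G u i p) * ∑ j, pd j u p * grad G u j p =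
        ip G u u p * ip G u u p := by
      rw [← Finset.sum_mul, pd_grad]
    have e1 : ∀ i j, ricci (cmet u G) i j p * grad G u i p * grad G u j p =
        ricci G i j p * grad G u i p * grad G u j p
        - ((n : ℝ) - 2) * (hess G u i j p * grad G u i p * grad G u j p)
        + ((n : ℝ) - 2) * ((pd i u p * grad G u i p) * (pd j u p * grad G u j p))
        - (lap G u p + ((n : ℝ) - 2) * ip G u u p) *
          (G p i j * grad G u i p * grad G u j p) := by
      intro i j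
      rw [ricci_cmet hΩ hG hu hp]
      ring
    rw [Finset.sum_congr rfl fun i _ => Finset.sum_congr rfl fun j _ => e1 i j]
    simp only [Finset.sum_sub_distrib, Finset.sum_add_distrib, ← Finset.mul_sum]
    rw [e0, metric_grad hG hp]
    rfl
  rw [h3, h4] at h1
  linarith

theorem dual_of (hG : IsMetricOn Ω G) (hp : p ∈ Ω) (hK : 0 ≤ K)
    (hlow : ∀ v : Fin n → ℝ, ∑ i, v i ^ 2 ≤ K * ∑ i, ∑ j, G p i j * v i * v j)
    (f : (Fin n → ℝ) → ℝ) : ip G f f p ≤ K * gs f p := by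
  have hs : Real.sqrt (K * gs f p) ^ 2 = K * gs f p :=
    Real.sq_sqrt (mul_nonneg hK (gs_nonneg f p))
  have h1 := cov_bound (s := Real.sqrt (K * gs f p)) (ξ := fun i => pd i f p) hG hp (fun v => by
    rw [hs]
    calc (∑ i, pd i f p * v i) ^ 2 ≤ (∑ i, pd i f p ^ 2) * ∑ i, v i ^ 2 :=
          Finset.sum_mul_sq_le_sq_mul_sq _ _ _
      _ ≤ (∑ i, pd i f p ^ 2) * (K * ∑ i, ∑ j, G p i j * v i * v j) :=
          mul_le_mul_of_nonneg_left (hlow v) (gs_nonneg f p)
      _ = K * gs f p * ∑ i, ∑ j, G p i j * v i * v j := by unfold gs; ring)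
  rw [hs] at h1
  exact h1

theorem dens_le (hG : IsMetricOn Ω G) (hp : p ∈ Ω) (hK : 1 ≤ K)
    (hup : ∀ v : Fin n → ℝ, ∑ i, ∑ j, G p i j * v i * v j ≤ K * ∑ i, v i ^ 2) :
    dens G p ≤ K ^ n := by
  have hP := posDef hG hp
  have hH := hP.isHermitian
  have hle : ∀ i, hH.eigenvalues i ≤ K := by
    intro i
    rw [hH.eigenvalues_eq i]
    have h1 := hup (fun k => hH.eigenvectorBasis i k)
    have h2 : ∑ k, (hH.eigenvectorBasis i k) ^ 2 = 1 := by
      have h3 := hH.eigenvectorBasis.orthonormal.1 i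
      have h4 : ‖hH.eigenvectorBasis i‖ ^ 2 = 1 := by rw [h3]; norm_num
      rw [EuclideanSpace.norm_sq_eq] at h4
      rw [← h4]
      refine Finset.sum_congr rfl fun k _ => ?_
      rw [Real.norm_eq_abs, sq_abs]
    rw [h2, mul_one] at h1
    refine le_trans (le_of_eq ?_) h1
    simp only [dotProduct, Matrix.mulVec, Finset.mul_sum, RCLike.re_to_real]
    refine Finset.sum_congr rfl fun k _ => Finset.sum_congr rfl fun l _ => ?_
    simp
    ring
  have hdet : (G p).det ≤ K ^ n := by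
    rw [hH.det_eq_prod_eigenvalues]
    have h1 : ∏ i, ((hH.eigenvalues i : ℝ) : ℝ) ≤ ∏ _i : Fin n, K :=
      Finset.prod_le_prod (fun i _ => (hP.eigenvalues_pos i).le) fun i _ => hle i
    simpa using h1
  unfold dens
  have h1 : (1 : ℝ) ≤ K ^ n := one_le_pow₀ hK
  calc Real.sqrt (G p).det ≤ Real.sqrt (K ^ n) := Real.sqrt_le_sqrt hdet
    _ ≤ K ^ n := by
      rw [Real.sqrt_le_left (by linarith)]
      nlinarith

end

end Pool.Agent.Helper50.CG
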