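import Pool.Agent.Helper50.CG.Basic

/-! # CG-1a: Christoffel symbols and Ricci tensor of `e^{2u} G`

PROOF. `∂ₖ(e^{2u} gᵢⱼ) = e^{2u}(2 ∂ₖu gᵢⱼ + ∂ₖgᵢⱼ)` and `(e^{2u} G)⁻¹ = e^{-2u} G⁻¹` give
`Γ̃ᵐᵢⱼ = Γᵐᵢⱼ + Aᵐᵢⱼ`, `Aᵐᵢⱼ = δₘᵢ uⱼ + δₘⱼ uᵢ - gᵢⱼ uᵐ`, `uᵐ = grad G u m` (at all points of `Ω`,
so `pd_congr` for the derivatives). Then, with the definition of `ricci`,
`Rĩᵢⱼ = Rᵢⱼ + L + Q`,
`L = Σₘ (∂ₘAᵐᵢⱼ - ∂ⱼAᵐᵢₘ) + Σₘₗ (Γᵐₘₗ Aˡᵢⱼ + Aᵐₘₗ Γˡᵢⱼ - Γᵐⱼₗ Aˡᵢₘ - Aᵐⱼₗ Γˡᵢₘ)`,
`Q = Σₘₗ (Aᵐₘₗ Aˡᵢⱼ - Aᵐⱼₗ Aˡᵢₘ)`. `Σₘ Aᵐₘₗ = n uₗ` (`Σₘ gₘₗ uᵐ = uₗ`), so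
`Q = n(2uᵢuⱼ - gᵢⱼ|∇u|²) - ((n+2)uᵢuⱼ - 2gᵢⱼ|∇u|²) = (n-2)(uᵢuⱼ - gᵢⱼ|∇u|²)`, and
`L = 2 hessᵢⱼ - gᵢⱼ Δu - n hessᵢⱼ` (covariant derivative of `A`; use `compat` for `∂ₘgᵢⱼ`,
`cov_grad` and `sum_hup` for `Σₘ (∂ₘuᵐ + Σₗ Γᵐₘₗ uˡ) = Δu`,
`hess G u i j = ∂ᵢ∂ⱼu - Σₘ Γᵐᵢⱼ uₘ`, `christoffel_symm`, `pd_comm`). -/

namespace Pool.Agent.Helper50.CG

open scoped ContDiff Topology
open Pool.Agent.Helper49.Ric Pool.Agent.Helper73.HB Pool.Agent.Helper50.CF MeasureTheory Filter

section algebra

open Finset

variable {n : ℕ}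

/-- the difference of the Christoffel symbols -/
private def AA (g : Fin n → Fin n → ℝ) (U D : Fin n → ℝ) (m i j : Fin n) : ℝ :=
  (if m = i then D j else 0) + (if m = j then D i else 0) - g i j * U m

variable {g : Fin n → Fin n → ℝ} {C : Fin n → Fin n → Fin n → ℝ} {U D : Fin n → ℝ}
  {Y : Fin n → Fin n → ℝ} {i j : Fin n}

private theorem t3 : ∑ m, ∑ l, C m m l * AA g U D l i j =
    D j * ∑ m, C m m i + D i * ∑ m, C m m j - g i j * ∑ m, ∑ l, C m m l * U l := by
  unfold AA
  simp only [mul_add, mul_sub, sum_add_distrib, sum_sub_distrib, mul_ite, mul_zero,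
    sum_ite_eq', mem_univ, if_true]
  simp only [mul_sum]
  congr 1
  · congr 1
    · exact sum_congr rfl fun m _ => mul_comm _ _
    · exact sum_congr rfl fun m _ => mul_comm _ _
  · exact sum_congr rfl fun m _ => sum_congr rfl fun l _ => by ring

private theorem trA (hU : ∀ i, ∑ m, g i m * U m = D i) (hg : ∀ i j, g i j = g j i) (l : Fin n) :
    ∑ m, AA g U D m m l = n * D l := by
  unfold AA
  simp only [sum_add_distrib, sum_sub_distrib, if_true, sum_const, card_univ, Fintype.card_fin,
    nsmul_eq_mul, sum_ite_eq', mem_univ]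
  have : ∑ m, g m l * U m = D l := by
    rw [← hU l]
    exact sum_congr rfl fun m _ => by rw [hg]
  rw [this]
  ring

private theorem t4 (hU : ∀ i, ∑ m, g i m * U m = D i) (hg : ∀ i j, g i j = g j i) :
    ∑ m, ∑ l, AA g U D m m l * C l i j = n * ∑ l, C l i j * D l := by
  rw [sum_comm, mul_sum]
  refine sum_congr rfl fun l _ => ?_
  rw [← sum_mul, trA hU hg]
  ring

private theorem t5 : ∑ m, ∑ l, C m j l * AA g U D l i m =
    ∑ m, C m j i * D m + D i * ∑ m, C m j m - ∑ m, ∑ l, C m j l * g i m * U l := by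
  unfold AA
  simp only [mul_add, mul_sub, sum_add_distrib, sum_sub_distrib, mul_ite, mul_zero,
    sum_ite_eq', mem_univ, if_true]
  congr 1
  · congr 1
    rw [mul_sum]
    exact sum_congr rfl fun m _ => mul_comm _ _
  · exact sum_congr rfl fun m _ => sum_congr rfl fun l _ => by ring

private theorem t6 : ∑ m, ∑ l, AA g U D m j l * C l i m =
    ∑ l, C l i j * D l + D j * ∑ m, C m i m - ∑ m, ∑ l, C l i m * g j l * U m := by
  unfold AA
  simp only [add_mul, sub_mul, sum_add_distrib, sum_sub_distrib, ite_mul, zero_mul,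
    sum_ite_irrel, sum_const_zero, sum_ite_eq, sum_ite_eq', mem_univ, if_true]
  congr 1
  · congr 1
    · exact sum_congr rfl fun m _ => mul_comm _ _
    · rw [mul_sum]
  · exact sum_congr rfl fun m _ => sum_congr rfl fun l _ => by ring

private theorem sumA : ∑ l, D l * AA g U D l i j = 2 * D i * D j - g i j * ∑ l, D l * U l := by
  unfold AA
  simp only [mul_add, mul_sub, sum_add_distrib, sum_sub_distrib, mul_ite, mul_zero,
    sum_ite_eq', mem_univ, if_true]
  rw [mul_sum]
  have : ∑ l, D l * (g i j * U l) = ∑ l, g i j * (D l * U l) :=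
    sum_congr rfl fun l _ => by ring
  rw [this]
  ring

private theorem t7 (hU : ∀ i, ∑ m, g i m * U m = D i) (hg : ∀ i j, g i j = g j i) :
    ∑ m, ∑ l, AA g U D m m l * AA g U D l i j =
      n * (2 * D i * D j - g i j * ∑ l, D l * U l) := by
  rw [← sumA, sum_comm, mul_sum]
  refine sum_congr rfl fun l _ => ?_
  rw [← sum_mul, trA hU hg]
  ring

private theorem t8 (hU : ∀ i, ∑ m, g i m * U m = D i) (hg : ∀ i j, g i j = g j i) :
    ∑ m, ∑ l, AA g U D m j l * AA g U D l i m =
      (n + 2) * (D i * D j) - 2 * (g i j * ∑ l, D l * U l) := by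
  have h1 : ∀ m, ∑ l, AA g U D m j l * AA g U D l i m =
      (if m = j then ∑ l, D l * AA g U D l i m else 0) + D j * AA g U D m i m
        - U m * ∑ l, g j l * AA g U D l i m := by
    intro m
    rw [mul_sum]
    have : ∀ l, AA g U D m j l * AA g U D l i m =
        (if m = j then D l * AA g U D l i m else 0) + (if m = l then D j * AA g U D l i m else 0)
          - U m * (g j l * AA g U D l i m) := by
      intro l
      conv_lhs => rw [show AA g U D m j l = (if m = j then D l else 0) + (if m = l then D j else 0)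
        - g j l * U m from rfl]
      split_ifs <;> ring
    simp only [this, sum_add_distrib, sum_sub_distrib, sum_ite_irrel, sum_const_zero, sum_ite_eq,
      mem_univ, if_true]
  have h2 : ∀ m, ∑ l, g j l * AA g U D l i m = g j i * D m + g j m * D i - g i m * D j := by
    intro m
    unfold AA
    simp only [mul_add, mul_sub, sum_add_distrib, sum_sub_distrib, mul_ite, mul_zero,
      sum_ite_eq', mem_univ, if_true]
    congr 1
    rw [← hU j, mul_sum]
    exact sum_congr rfl fun l _ => by ring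
  have h3 : ∑ m, AA g U D m i m = n * D i := by
    have : ∀ m, AA g U D m i m = AA g U D m m i := by
      intro m
      unfold AA
      rw [hg i m]
      ring
    simp only [this]
    exact trA hU hg i
  simp only [h1, h2, sum_add_distrib, sum_sub_distrib, sum_ite_eq', mem_univ, if_true]
  rw [sumA, ← mul_sum, h3]
  have h4 : ∑ m, U m * (g j i * D m + g j m * D i - g i m * D j) =
      g i j * ∑ l, D l * U l := by
    have : ∀ m, U m * (g j i * D m + g j m * D i - g i m * D j) =
        g i j * (D m * U m) + D i * (g j m * U m) - D j * (g i m * U m) := by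
      intro m
      rw [hg j i]
      ring
    simp only [this, sum_add_distrib, sum_sub_distrib, ← mul_sum, hU]
    ring
  rw [h4]
  ring


private theorem algFinal {H Hs : Fin n → Fin n → ℝ} {L : ℝ}
    (hU : ∀ i, ∑ m, g i m * U m = D i) (hg : ∀ i j, g i j = g j i)
    (hC : ∀ m i j, C m i j = C m j i) (hH : H j i = H i j)
    (hY : ∑ m, g i m * Y m j = Hs i j) (hL : ∑ m, Y m m = L)
    (hHs : Hs i j = H i j - ∑ m, C m i j * D m) :
    ∑ m, ((((if m = i then H m j else 0) + (if m = j then H m i else 0)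
          - ((∑ s, (C s m i * g s j + C s m j * g i s)) * U m
            + g i j * (Y m m - ∑ s, C m m s * U s)))
        - (((if m = i then H j m else 0) + H j i)
          - ((∑ s, (C s j i * g s m + C s j m * g i s)) * U m
            + g i m * (Y m j - ∑ s, C m j s * U s))))
      + ∑ l, (C m m l * AA g U D l i j + AA g U D m m l * C l i j
          - C m j l * AA g U D l i m - AA g U D m j l * C l i m
          + AA g U D m m l * AA g U D l i j - AA g U D m j l * AA g U D l i m)) =
      - ((n : ℝ) - 2) * (Hs i j - D i * D j)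
        - g i j * (L + ((n : ℝ) - 2) * ∑ l, D l * U l) := by
  have e1 : ∑ m, (∑ s, (C s m i * g s j + C s m j * g i s)) * U m =
      ∑ m, ∑ l, C l i m * g j l * U m + ∑ m, ∑ l, C m j l * g i m * U l := by
    rw [sum_comm (f := fun m l => C m j l * g i m * U l), ← sum_add_distrib]
    refine sum_congr rfl fun m _ => ?_
    rw [sum_mul, ← sum_add_distrib]
    refine sum_congr rfl fun s _ => ?_
    rw [hC s m i, hC s m j, hg s j]
    ring
  have e2 : ∑ m, (∑ s, (C s j i * g s m + C s j m * g i s)) * U m =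
      ∑ l, C l i j * D l + ∑ m, ∑ l, C m j l * g i m * U l := by
    have : ∑ l, C l i j * D l = ∑ m, ∑ l, C l i j * g l m * U m := by
      rw [sum_comm]
      refine sum_congr rfl fun l _ => ?_
      rw [← hU l, mul_sum]
      exact sum_congr rfl fun m _ => by ring
    rw [this, sum_comm (f := fun m l => C m j l * g i m * U l), ← sum_add_distrib]
    refine sum_congr rfl fun m _ => ?_
    rw [sum_mul, ← sum_add_distrib]
    refine sum_congr rfl fun s _ => ?_
    rw [hC s j i]
    ring
  have e3 : ∑ m, g i m * (Y m j - ∑ s, C m j s * U s) =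
      Hs i j - ∑ m, ∑ l, C m j l * g i m * U l := by
    rw [← hY, ← sum_sub_distrib]
    refine sum_congr rfl fun m _ => ?_
    rw [mul_sub, mul_sum]
    congr 1
    exact sum_congr rfl fun l _ => by ring
  have e4 : ∑ m, g i j * (Y m m - ∑ s, C m m s * U s) =
      g i j * L - g i j * ∑ m, ∑ l, C m m l * U l := by
    rw [← mul_sum, sum_sub_distrib, hL, mul_sub]
  have k3 := t3 (g := g) (C := C) (U := U) (D := D) (i := i) (j := j)
  have k4 := t4 (C := C) (i := i) (j := j) hU hg
  have k5 := t5 (g := g) (C := C) (U := U) (D := D) (i := i) (j := j)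
  have k6 := t6 (g := g) (C := C) (U := U) (D := D) (i := i) (j := j)
  have k7 := t7 (i := i) (j := j) hU hg
  have k8 := t8 (i := i) (j := j) hU hg
  have c1 : ∑ m, C m i m = ∑ m, C m m i := sum_congr rfl fun m _ => hC m i m
  have c2 : ∑ m, C m j m = ∑ m, C m m j := sum_congr rfl fun m _ => hC m j m
  have c3 : ∑ m, C m j i * D m = ∑ l, C l i j * D l :=
    sum_congr rfl fun m _ => by rw [hC m j i]
  simp only [sum_add_distrib, sum_sub_distrib, sum_ite_eq', mem_univ, if_true, sum_const,
    card_univ, Fintype.card_fin, nsmul_eq_mul]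
  simp only [sum_add_distrib] at e1 e2
  rw [e1, e2, e3, e4, k3, k4, k5, k6, k7, k8, c1, c2, c3, hHs, hH]
  ring


end algebra

noncomputable section

variable {n : ℕ} {K S lam : ℝ} {Ω : Set (Fin n → ℝ)}
  {G : (Fin n → ℝ) → Matrix (Fin n) (Fin n) ℝ} {u : (Fin n → ℝ) → ℝ} {p : Fin n → ℝ}

private theorem smooth_exp2 (hu : ContDiffAt ℝ ∞ u p) :
    ContDiffAt ℝ ∞ (fun q => Real.exp (2 * u q)) p :=
  (contDiffAt_const.mul hu).exp

theorem isMetricOn_cmet (hG : IsMetricOn Ω G) (hu : ∀ q ∈ Ω, ContDiffAt ℝ ∞ u q) :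
    IsMetricOn Ω (cmet u G) := by
  refine ⟨fun p hp i j => ?_, fun p hp i j => ?_, fun p hp v hv => ?_⟩
  · exact (smooth_exp2 (hu p hp)).mul (hG.smooth p hp i j)
  · change Real.exp (2 * u p) * G p i j = Real.exp (2 * u p) * G p j i
    rw [hG.symm p hp i j]
  · have h1 := hG.pos p hp v hv
    have h2 : ∑ i, ∑ j, cmet u G p i j * v i * v j =
        Real.exp (2 * u p) * ∑ i, ∑ j, G p i j * v i * v j := by
      rw [Finset.mul_sum]
      refine Finset.sum_congr rfl fun i _ => ?_
      rw [Finset.mul_sum]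
      refine Finset.sum_congr rfl fun j _ => ?_
      change Real.exp (2 * u p) * G p i j * v i * v j = _
      ring
    rw [h2]
    exact mul_pos (Real.exp_pos _) h1

theorem inv_cmet (hG : IsMetricOn Ω G) (hp : p ∈ Ω) :
    (cmet u G p)⁻¹ = Real.exp (-(2 * u p)) • (G p)⁻¹ := by
  refine Matrix.inv_eq_right_inv ?_
  unfold cmet
  rw [Matrix.smul_mul, Matrix.mul_smul, smul_smul,
    Matrix.mul_nonsing_inv _ (det_pos hG hp).ne'.isUnit, ← Real.exp_add]
  simp

theorem dens_cmet (hG : IsMetricOn Ω G) (hp : p ∈ Ω) :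
    Real.sqrt (cmet u G p).det = Real.exp (n * u p) * dens G p := by
  unfold cmet dens
  rw [Matrix.det_smul, Fintype.card_fin, Real.sqrt_mul (by positivity)]
  congr 1
  have h1 : Real.exp (2 * u p) ^ n = Real.exp (n * u p) ^ 2 := by
    rw [← Real.exp_nat_mul, ← Real.exp_nat_mul]
    congr 1
    push_cast
    ring
  rw [h1, Real.sqrt_sq (Real.exp_pos _).le]

private theorem pd_cmet (hG : IsMetricOn Ω G) (hu : ContDiffAt ℝ ∞ u p) (hp : p ∈ Ω)
    (k i j : Fin n) :
    pd k (fun q => cmet u G q i j) p =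
      Real.exp (2 * u p) * (2 * pd k u p * G p i j + pd k (fun q => G q i j) p) := by
  have h1 : pd k (fun q => Real.exp (2 * u q)) p = Real.exp (2 * u p) * (2 * pd k u p) := by
    have hd : DifferentiableAt ℝ u p := diff_of_smooth hu
    have hd2 : DifferentiableAt ℝ (fun q => Real.exp (2 * u q)) p :=
      diff_of_smooth (smooth_exp2 hu)
    rw [pd_eq hd2, pd_eq hd]
    have h2 : HasFDerivAt (fun q => Real.exp (2 * u q))
        (Real.exp (2 * u p) • ((2 : ℝ) • fderiv ℝ u p)) p :=
      (hd.hasFDerivAt.const_mul 2).exp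
    rw [h2.fderiv]
    simp
  change pd k (fun q => Real.exp (2 * u q) * G q i j) p = _
  rw [pd_mul (diff_of_smooth (smooth_exp2 hu)) (diff_of_smooth (hG.smooth p hp i j)), h1]
  ring

private theorem lower_grad (hG : IsMetricOn Ω G) (hp : p ∈ Ω) (i : Fin n) :
    ∑ m, G p i m * grad G u m p = pd i u p := by
  unfold grad
  have h1 : ∀ m, G p i m * ∑ j, (G p)⁻¹ m j * pd j u p =
      ∑ j, (G p i m * (G p)⁻¹ m j) * pd j u p := by
    intro m
    rw [Finset.mul_sum]
    exact Finset.sum_congr rfl fun j _ => by ring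
  simp only [h1]
  rw [Finset.sum_comm]
  have h2 : ∀ j, ∑ m, (G p i m * (G p)⁻¹ m j) * pd j u p = if i = j then pd j u p else 0 := by
    intro j
    rw [← Finset.sum_mul, mul_inv_metric hG hp i j]
    split_ifs <;> simp
  simp only [h2]
  simp

private theorem lower_hup (hG : IsMetricOn Ω G) (hp : p ∈ Ω) (i j : Fin n) :
    ∑ m, G p i m * hup G u m j p = hess G u i j p := by
  unfold hup
  have h1 : ∀ m, G p i m * ∑ k, (G p)⁻¹ m k * hess G u k j p =
      ∑ k, (G p i m * (G p)⁻¹ m k) * hess G u k j p := by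
    intro m
    rw [Finset.mul_sum]
    exact Finset.sum_congr rfl fun j _ => by ring
  simp only [h1]
  rw [Finset.sum_comm]
  have h2 : ∀ k, ∑ m, (G p i m * (G p)⁻¹ m k) * hess G u k j p =
      if i = k then hess G u k j p else 0 := by
    intro k
    rw [← Finset.sum_mul, mul_inv_metric hG hp i k]
    split_ifs <;> simp
  simp only [h2]
  simp

theorem christoffel_cmet (hΩ : IsOpen Ω) (hG : IsMetricOn Ω G)
    (hu : ∀ q ∈ Ω, ContDiffAt ℝ ∞ u q) (hp : p ∈ Ω) (m i j : Fin n) :
    christoffel (cmet u G) m i j p = christoffel G m i j p +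
      ((if m = i then pd j u p else 0) + (if m = j then pd i u p else 0)
        - G p i j * grad G u m p) := by
  have _ := hΩ
  have h0 : Real.exp (-(2 * u p)) * Real.exp (2 * u p) = 1 := by
    rw [← Real.exp_add]
    simp
  have h1 : ∀ l, (cmet u G p)⁻¹ m l * (pd i (fun q => cmet u G q j l) p
      + pd j (fun q => cmet u G q i l) p - pd l (fun q => cmet u G q i j) p) =
      (G p)⁻¹ m l * (pd i (fun q => G q j l) p + pd j (fun q => G q i l) p
        - pd l (fun q => G q i j) p)
      + 2 * (pd i u p * ((G p)⁻¹ m l * G p l j) + pd j u p * ((G p)⁻¹ m l * G p l i)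
        - G p i j * ((G p)⁻¹ m l * pd l u p)) := by
    intro l
    rw [inv_cmet hG hp, pd_cmet hG (hu p hp) hp, pd_cmet hG (hu p hp) hp,
      pd_cmet hG (hu p hp) hp, Matrix.smul_apply, smul_eq_mul, hG.symm p hp j l,
      hG.symm p hp i l]
    linear_combination ((G p)⁻¹ m l * ((2 * pd i u p * G p l j + pd i (fun q => G q j l) p)
      + (2 * pd j u p * G p l i + pd j (fun q => G q i l) p)
      - (2 * pd l u p * G p i j + pd l (fun q => G q i j) p))) * h0
  unfold christoffel
  simp only [h1, Finset.sum_add_distrib, ← Finset.mul_sum, Finset.sum_sub_distrib,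
    inv_mul_metric hG hp]
  unfold grad
  split_ifs <;> ring

private theorem pd_ite (c : Prop) [Decidable c] (f : (Fin n → ℝ) → ℝ) (k : Fin n) :
    pd k (fun q => if c then f q else 0) p = if c then pd k f p else 0 := by
  split_ifs
  · rfl
  · exact pd_const 0 k

private theorem diff_ite (c : Prop) [Decidable c] {f : (Fin n → ℝ) → ℝ}
    (hf : DifferentiableAt ℝ f p) : DifferentiableAt ℝ (fun q => if c then f q else 0) p := by
  split_ifs
  · exact hf
  · exact differentiableAt_const 0

private theorem pd_christoffel_cmet (hΩ : IsOpen Ω) (hG : IsMetricOn Ω G)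
    (hu : ∀ q ∈ Ω, ContDiffAt ℝ ∞ u q) (hp : p ∈ Ω) (k m a b : Fin n) :
    pd k (christoffel (cmet u G) m a b) p = pd k (christoffel G m a b) p +
      ((if m = a then pd k (pd b u) p else 0) + (if m = b then pd k (pd a u) p else 0)
        - ((∑ s, (christoffel G s k a p * G p s b + christoffel G s k b p * G p a s))
            * grad G u m p
          + G p a b * (hup G u m k p - ∑ s, christoffel G m k s p * grad G u s p))) := by
  have h1 : christoffel (cmet u G) m a b =ᶠ[𝓝 p] fun q => christoffel G m a b q +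
      (((if m = a then pd b u q else 0) + (if m = b then pd a u q else 0))
        - G q a b * grad G u m q) := by
    filter_upwards [hΩ.mem_nhds hp] with q hq
    exact christoffel_cmet hΩ hG hu hq m a b
  have dC : DifferentiableAt ℝ (christoffel G m a b) p :=
    diff_of_smooth (smooth_christoffel hG hp m a b)
  have du : ∀ i, DifferentiableAt ℝ (pd i u) p := fun i =>
    diff_of_smooth (smooth_pd (hu p hp) i)
  have dg : DifferentiableAt ℝ (fun q => G q a b) p := diff_of_smooth (hG.smooth p hp a b)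
  have dU : DifferentiableAt ℝ (grad G u m) p := diff_of_smooth (smooth_grad hG hp (hu p hp) m)
  rw [pd_congr h1, pd_add dC (((diff_ite _ (du b)).fun_add (diff_ite _ (du a))).fun_sub
    (dg.fun_mul dU)), pd_sub ((diff_ite _ (du b)).fun_add (diff_ite _ (du a)))
    (dg.fun_mul dU), pd_add (diff_ite _ (du b)) (diff_ite _ (du a)), pd_ite, pd_ite,
    pd_mul dg dU, compat hΩ hG hp k a b]
  have h2 := cov_grad hΩ hG hp (hu p hp) m k
  have h3 : pd k (grad G u m) p = hup G u m k p - ∑ s, christoffel G m k s p * grad G u s p := by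
    linarith
  rw [h3]

theorem ricci_cmet (hΩ : IsOpen Ω) (hG : IsMetricOn Ω G)
    (hu : ∀ q ∈ Ω, ContDiffAt ℝ ∞ u q) (hp : p ∈ Ω) (i j : Fin n) :
    ricci (cmet u G) i j p = ricci G i j p
      - ((n : ℝ) - 2) * (hess G u i j p - pd i u p * pd j u p)
      - G p i j * (lap G u p + ((n : ℝ) - 2) * ip G u u p) := by
  have hip : ip G u u p = ∑ l, pd l u p * grad G u l p := by
    unfold ip grad
    refine Finset.sum_congr rfl fun l _ => ?_
    rw [Finset.mul_sum]
    exact Finset.sum_congr rfl fun m _ => by ring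
  have key := algFinal (g := fun a b => G p a b) (C := fun m a b => christoffel G m a b p)
    (U := fun m => grad G u m p) (D := fun m => pd m u p) (Y := fun m k => hup G u m k p)
    (H := fun a b => pd a (pd b u) p) (Hs := fun a b => hess G u a b p) (L := lap G u p)
    (i := i) (j := j) (fun a => lower_grad hG hp a) (fun a b => hG.symm p hp a b)
    (fun m a b => christoffel_symm hΩ hG hp m a b) (pd_comm (hu p hp) j i)
    (lower_hup hG hp i j) (sum_hup hG hp) rfl
  rw [← hip] at key
  have e : ricci (cmet u G) i j p - ricci G i j p =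
      - ((n : ℝ) - 2) * (hess G u i j p - pd i u p * pd j u p)
        - G p i j * (lap G u p + ((n : ℝ) - 2) * ip G u u p) := by
    rw [← key]
    unfold ricci
    rw [← Finset.sum_sub_distrib]
    refine Finset.sum_congr rfl fun m _ => ?_
    rw [pd_christoffel_cmet hΩ hG hu hp m m i j, pd_christoffel_cmet hΩ hG hu hp j m i m]
    have e2 : ∀ l, christoffel (cmet u G) m m l p * christoffel (cmet u G) l i j p
        - christoffel (cmet u G) m j l p * christoffel (cmet u G) l i m p =
        (christoffel G m m l p * christoffel G l i j p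
          - christoffel G m j l p * christoffel G l i m p) +
        (christoffel G m m l p * AA (fun a b => G p a b) (fun m => grad G u m p)
            (fun m => pd m u p) l i j
          + AA (fun a b => G p a b) (fun m => grad G u m p) (fun m => pd m u p) m m l
            * christoffel G l i j p
          - christoffel G m j l p * AA (fun a b => G p a b) (fun m => grad G u m p)
            (fun m => pd m u p) l i m
          - AA (fun a b => G p a b) (fun m => grad G u m p) (fun m => pd m u p) m j l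
            * christoffel G l i m p
          + AA (fun a b => G p a b) (fun m => grad G u m p) (fun m => pd m u p) m m l
            * AA (fun a b => G p a b) (fun m => grad G u m p) (fun m => pd m u p) l i j
          - AA (fun a b => G p a b) (fun m => grad G u m p) (fun m => pd m u p) m j l
            * AA (fun a b => G p a b) (fun m => grad G u m p) (fun m => pd m u p) l i m) := by
      intro l
      rw [christoffel_cmet hΩ hG hu hp m m l, christoffel_cmet hΩ hG hu hp l i j,
        christoffel_cmet hΩ hG hu hp m j l, christoffel_cmet hΩ hG hu hp l i m]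
      unfold AA
      ring
    simp only [e2, Finset.sum_add_distrib, if_true]
    simp only [Finset.sum_sub_distrib, Finset.sum_add_distrib]
    ring
  linarith

end

end Pool.Agent.Helper50.CG
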