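import Pool.Agent.Helper50.CG.Basic

/-! # CG-7: Hölder's inequality for `mu` -/

namespace Pool.Agent.Helper50.CG

open scoped ContDiff Topology
open Pool.Agent.Helper49.Ric Pool.Agent.Helper73.HB Pool.Agent.Helper50.CF MeasureTheory Filter

noncomputable section

variable {n : ℕ} {K S lam : ℝ} {Ω : Set (Fin n → ℝ)}
  {G : (Fin n → ℝ) → Matrix (Fin n) (Fin n) ℝ} {u : (Fin n → ℝ) → ℝ} {p : Fin n → ℝ}

theorem memLp_of (hG : IsMetricOn Ω G) (hs : Bc n 2 ⊆ Ω) {f : (Fin n → ℝ) → ℝ}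
    (hf : ContinuousOn f (Bc n 2)) (A : Set (Fin n → ℝ)) (q : ENNReal) :
    MemLp f q ((mu n G).restrict A) := by
  haveI := fin_mu hG hs
  obtain ⟨C, hC⟩ := (isCompact_Bc 2).exists_bound_of_continuousOn hf
  have h1 : AEStronglyMeasurable f (mu n G) := (integrable_of hG hs hf).aestronglyMeasurable
  refine MemLp.of_bound h1.restrict C ?_
  refine ae_restrict_of_ae ?_
  filter_upwards [ae_mem_B] with p hp using hC p (B_subset_Bc 2 hp)

theorem holderG (hG : IsMetricOn Ω G) (hs : Bc n 2 ⊆ Ω) (hu : ContinuousOn u (Bc n 2))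
    (hg : ContinuousOn (grG G u) (Bc n 2))
    {A : Set (Fin n → ℝ)} (hm : MeasurableSet A) {a : ℕ} (ha : 1 ≤ a) (han : a < n)
    {x y : ℝ} (hx : ∫ p in A, grG G u p ^ n ∂(mu n G) ≤ x)
    (hy : ∫ p in A, Real.exp (n * u p) ∂(mu n G) ≤ y) :
    ∫ p in A, Real.exp (a * u p) * grG G u p ^ (n - a) ∂(mu n G) ≤
      x ^ (((n : ℝ) - a) / n) * y ^ ((a : ℝ) / n) := by
  have ha0 : (0 : ℝ) < a := by exact_mod_cast ha
  have han' : (a : ℝ) < n := by exact_mod_cast han
  have hn0 : (0 : ℝ) < n := by linarith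
  have hna : (0 : ℝ) < n - a := by linarith
  have hcast : ((n - a : ℕ) : ℝ) = n - a := by rw [Nat.cast_sub han.le]
  have hpq : ((n : ℝ) / (n - a)).HolderConjugate ((n : ℝ) / a) := by
    rw [Real.holderConjugate_iff]
    constructor
    · rw [one_lt_div hna]; linarith
    · rw [inv_div, inv_div, ← add_div]
      rw [div_eq_one_iff_eq hn0.ne']; ring
  have hf1 : ContinuousOn (fun p => grG G u p ^ (n - a)) (Bc n 2) := hg.pow _
  have hf2 : ContinuousOn (fun p => Real.exp (a * u p)) (Bc n 2) :=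
    (continuousOn_const.mul hu).rexp
  have key := integral_mul_le_Lp_mul_Lq_of_nonneg (μ := (mu n G).restrict A) hpq
    (f := fun p => grG G u p ^ (n - a)) (g := fun p => Real.exp (a * u p))
    (Eventually.of_forall fun p => pow_nonneg (grG_nonneg G u p) _)
    (Eventually.of_forall fun p => (Real.exp_pos _).le)
    (memLp_of hG hs hf1 A _) (memLp_of hG hs hf2 A _)
  have e1 : ∀ p, (grG G u p ^ (n - a)) ^ ((n : ℝ) / (n - a)) = grG G u p ^ n := by
    intro p
    rw [← Real.rpow_natCast (grG G u p) (n - a), ← Real.rpow_mul (grG_nonneg G u p), hcast,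
      mul_div_cancel₀ _ hna.ne', Real.rpow_natCast]
  have e2 : ∀ p, Real.exp (a * u p) ^ ((n : ℝ) / a) = Real.exp (n * u p) := by
    intro p
    rw [← Real.exp_mul]
    congr 1
    field_simp
  simp only [e1, e2] at key
  have e3 : (1 : ℝ) / ((n : ℝ) / (n - a)) = ((n : ℝ) - a) / n := by rw [one_div_div]
  have e4 : (1 : ℝ) / ((n : ℝ) / a) = (a : ℝ) / n := by rw [one_div_div]
  rw [e3, e4] at key
  have h0x : 0 ≤ ∫ p in A, grG G u p ^ n ∂(mu n G) :=
    integral_nonneg fun p => pow_nonneg (grG_nonneg G u p) _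
  have h0y : 0 ≤ ∫ p in A, Real.exp (n * u p) ∂(mu n G) :=
    integral_nonneg fun p => (Real.exp_pos _).le
  have h1 : (∫ p in A, grG G u p ^ n ∂(mu n G)) ^ (((n : ℝ) - a) / n) ≤
      x ^ (((n : ℝ) - a) / n) := Real.rpow_le_rpow h0x hx (by positivity)
  have h2 : (∫ p in A, Real.exp (n * u p) ∂(mu n G)) ^ ((a : ℝ) / n) ≤ y ^ ((a : ℝ) / n) :=
    Real.rpow_le_rpow h0y hy (by positivity)
  calc ∫ p in A, Real.exp (a * u p) * grG G u p ^ (n - a) ∂(mu n G)
      = ∫ p in A, grG G u p ^ (n - a) * Real.exp (a * u p) ∂(mu n G) := by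
        congr 1; funext p; ring
    _ ≤ _ := key
    _ ≤ _ := mul_le_mul h1 h2 (Real.rpow_nonneg h0y _) (Real.rpow_nonneg (h0x.trans hx) _)

end

end Pool.Agent.Helper50.CG
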