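import Pool.Agent.Helper50.CF.Decay
import Pool.Agent.Helper50.CG.HolderG

/-! # CG-8: decay of the volume of `{u ≥ k_j}` by the Sobolev inequality (port of `CF/Decay.lean`)

PROOF as in `CF/Decay.lean`; `ip G f f ≤ 2 η² τ'(u)² ip G u u + 2 τ(u)² ip G η η` for `f = η τ(u)`
(`∂f = τ(u) ∂η + η τ'(u) ∂u`, bilinearity, `ip_nonneg` of the difference or Cauchy-Schwarz), and
`ip G η η ≤ K gs η` (`Core.dual`). The constant depends on `n`, `K`, `S`. -/

namespace Pool.Agent.Helper50.CG

open scoped ContDiff Topology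
open Pool.Agent.Helper49.Ric Pool.Agent.Helper73.HB Pool.Agent.Helper50.CF MeasureTheory Filter

noncomputable section

variable {n : ℕ} {K S lam : ℝ} {Ω : Set (Fin n → ℝ)}
  {G : (Fin n → ℝ) → Matrix (Fin n) (Fin n) ℝ} {u : (Fin n → ℝ) → ℝ} {p : Fin n → ℝ}

namespace DecayG

/-- the gradient of `φ τ(u)` -/
theorem ip_step {Ω : Set (Fin n → ℝ)} (hG : IsMetricOn Ω G) (hp : p ∈ Ω)
    {φ f : (Fin n → ℝ) → ℝ} (hφ : DifferentiableAt ℝ φ p) (hu : DifferentiableAt ℝ u p) {s t : ℝ}
    (hf : ∀ i, pd i f p = pd i φ p * s + φ p * (t * pd i u p)) :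
    ip G f f p ≤ 2 * s ^ 2 * ip G φ φ p + 2 * (φ p * t) ^ 2 * ip G u u p := by
  set g : (Fin n → ℝ) → ℝ := fun q => s * φ q - (φ p * t) * u q with hg
  have hgd : ∀ i, pd i g p = pd i φ p * s - φ p * (t * pd i u p) := by
    intro i
    have h1 := pd_sub (f := fun q => s * φ q) (h := fun q => (φ p * t) * u q) (p := p)
      (hφ.const_mul s) (hu.const_mul (φ p * t)) i
    rw [pd_const_mul s hφ, pd_const_mul (φ p * t) hu] at h1
    rw [hg, h1]
    ring
  have h0 : 0 ≤ ip G g g p := ip_nonneg hG hp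
  have h1 : ip G f f p + ip G g g p =
      2 * s ^ 2 * ip G φ φ p + 2 * (φ p * t) ^ 2 * ip G u u p := by
    calc ip G f f p + ip G g g p = ∑ i, ∑ j,
          (2 * s ^ 2 * ((G p)⁻¹ i j * pd i φ p * pd j φ p) +
            2 * (φ p * t) ^ 2 * ((G p)⁻¹ i j * pd i u p * pd j u p)) := by
          unfold ip
          rw [← Finset.sum_add_distrib]
          refine Finset.sum_congr rfl fun i _ => ?_
          rw [← Finset.sum_add_distrib]
          refine Finset.sum_congr rfl fun j _ => ?_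
          rw [hf i, hf j, hgd i, hgd j]
          ring
      _ = 2 * s ^ 2 * ip G φ φ p + 2 * (φ p * t) ^ 2 * ip G u u p := by
          unfold ip
          simp only [Finset.sum_add_distrib, Finset.mul_sum]
  linarith

/-- The Sobolev step. -/
theorem step {c1 c2 : ℝ} (hc1 : ∀ t : ℝ, |deriv Real.smoothTransition t| ≤ c1)
    (hD : Core n K S lam Ω G u) {ρ' ρ k h : ℝ} (h0 : 0 < ρ') (h1 : ρ' < ρ) (h2 : ρ ≤ 2)
    (hh : 0 < h)
    (hcut : ∃ φ : (Fin n → ℝ) → ℝ, ContDiff ℝ ∞ φ ∧ HasCompactSupport φ ∧ tsupport φ ⊆ B n ρ ∧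
      (∀ p, 0 ≤ φ p) ∧ (∀ p, φ p ≤ 1) ∧ (∀ p ∈ Bc n ρ', φ p = 1) ∧
      ∀ p, gr φ p ≤ c2 / (ρ - ρ')) :
    (∫ p in B n ρ' ∩ {p | k + h ≤ u p}, Real.exp (n * u p) ∂(mu n G)) ^ (((n : ℝ) - 2) / n) ≤
      S * (2 * (c1 / h) ^ 2 * (∫ p in B n ρ ∩ {p | k ≤ u p ∧ u p ≤ k + h},
          Real.exp (((n : ℝ) - 2) * u p) * grG G u p ^ 2 ∂(mu n G)) +
        2 * (K * (c2 / (ρ - ρ')) ^ 2) * ∫ p in B n ρ ∩ {p | k ≤ u p},
          Real.exp (((n : ℝ) - 2) * u p) ∂(mu n G)) := by
  obtain ⟨φ, hφ, hφc, hφs, hφ0, hφ1, hφe, hφg⟩ := hcut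
  have hn : (3 : ℝ) ≤ n := by exact_mod_cast hD.hn
  have hK : 0 ≤ K := by linarith [hD.hK]
  have hρ0 : 0 ≤ ρ := by linarith
  have hρ'0 : 0 ≤ ρ' := h0.le
  have hB2 : B n ρ ⊆ B n 2 := B_mono hρ0 h2
  have hBΩ : B n ρ ⊆ Ω := hB2.trans hD.sub2
  have hsm : ∀ p ∈ B n ρ, ContDiffAt ℝ ∞ u p := fun p hp => hD.smooth p (hBΩ hp)
  have hsτ : ∀ p ∈ B n ρ, ContDiffAt ℝ ∞ (fun q => Decay.ta k h (u q)) p := fun p hp =>
    (Decay.ta_smooth k h).contDiffAt.comp p (hsm p hp)
  set f : (Fin n → ℝ) → ℝ := fun p => φ p * Decay.ta k h (u p) with hf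
  have hfs : ContDiff ℝ ∞ f := smooth_mul_of hφ hφs hsτ
  have hfc : HasCompactSupport f := hφc.mul_right
  have hft : tsupport f ⊆ tsupport φ := closure_mono fun p hp => by
    intro h3
    apply hp
    simp only [hf, h3, zero_mul]
  have key := hD.sob f hfs hfc (hft.trans (hφs.trans hB2))
  -- facts on ta
  have ta0 : ∀ t, 0 ≤ Decay.ta k h t := fun t => Real.smoothTransition.nonneg _
  have ta1 : ∀ t, Decay.ta k h t ≤ 1 := fun t => Real.smoothTransition.le_one _
  have taz : ∀ t, t ≤ k → Decay.ta k h t = 0 := fun t ht =>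
    Real.smoothTransition.zero_of_nonpos (div_nonpos_of_nonpos_of_nonneg (by linarith) hh.le)
  have tao : ∀ t, k + h ≤ t → Decay.ta k h t = 1 := fun t ht =>
    Real.smoothTransition.one_of_one_le (by rw [le_div_iff₀ hh]; linarith)
  have cexpn : ContinuousOn (fun p => Real.exp (n * u p)) (Bc n 2) :=
    Real.continuous_exp.comp_continuousOn (continuousOn_const.mul hD.cu)
  -- left side
  have hL : (∫ p in B n ρ' ∩ {p | k + h ≤ u p}, Real.exp (n * u p) ∂(mu n G)) ≤
      ∫ p, |f p| ^ (2 * n / (n - 2) : ℝ) * Real.exp (n * u p) ∂(mu n G) := by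
    have hq : (0 : ℝ) < 2 * n / (n - 2) := div_pos (by linarith) (by linarith)
    have hint : Integrable (fun p => |f p| ^ (2 * n / (n - 2) : ℝ) * Real.exp (n * u p))
        (mu n G) := by
      refine integrable_of hD.met hD.sub (ContinuousOn.mul ?_ cexpn)
      exact ((hfs.continuous.abs).rpow_const fun p => Or.inr hq.le).continuousOn
    have hm : MeasurableSet (B n ρ' ∩ {p | k + h ≤ u p}) :=
      Decay.meas_ge hD.cu hρ'0 (h1.le.trans h2) _
    have e1 : ∫ p in B n ρ' ∩ {p | k + h ≤ u p}, Real.exp (n * u p) ∂(mu n G) =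
        ∫ p in B n ρ' ∩ {p | k + h ≤ u p},
          |f p| ^ (2 * n / (n - 2) : ℝ) * Real.exp (n * u p) ∂(mu n G) := by
      refine setIntegral_congr_fun hm fun p hp => ?_
      have h3 : f p = 1 := by
        simp only [hf]
        rw [hφe p (B_subset_Bc _ hp.1), tao _ hp.2, one_mul]
      simp only [h3, abs_one, Real.one_rpow, one_mul]
    rw [e1]
    exact setIntegral_le_integral hint (Eventually.of_forall fun p =>
      mul_nonneg (Real.rpow_nonneg (abs_nonneg _) _) (Real.exp_pos _).le)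
  have hL0 : 0 ≤ ∫ p in B n ρ' ∩ {p | k + h ≤ u p}, Real.exp (n * u p) ∂(mu n G) :=
    integral_nonneg fun p => (Real.exp_pos _).le
  refine (Real.rpow_le_rpow hL0 hL (div_nonneg (by linarith) (by linarith))).trans
    (key.trans ?_)
  refine mul_le_mul_of_nonneg_left ?_ (by linarith [hD.hS])
  -- the derivatives of f off A vanish
  have hoff : ∀ p, p ∉ B n ρ ∩ {p | k ≤ u p} → ∀ i, pd i f p = 0 := by
    intro p hp i
    by_cases hpB : p ∈ B n ρ
    · have h3 : u p < k := by
        by_contra h4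
        exact hp ⟨hpB, not_lt.mp h4⟩
      have h5 : f =ᶠ[𝓝 p] fun _ => (0 : ℝ) := by
        filter_upwards [(Decay.isOpen_lt_k hD.cu hρ0 h2 k).mem_nhds ⟨hpB, h3⟩] with q hq
        simp only [hf]
        rw [taz _ (le_of_lt hq.2), mul_zero]
      rw [pd_congr h5, pd_const]
    · exact pd_zero_off (fun h3 => hpB (hφs (hft h3))) i
  have hmA : MeasurableSet (B n ρ ∩ {p | k ≤ u p}) := Decay.meas_ge hD.cu hρ0 h2 _
  have hmA' : MeasurableSet (B n ρ ∩ {p | k ≤ u p ∧ u p ≤ k + h}) :=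
    Decay.meas_band hD.cu hρ0 h2 _ _
  have e2 : ∫ p, ip G f f p * Real.exp ((n - 2) * u p) ∂(mu n G) =
      ∫ p in B n ρ ∩ {p | k ≤ u p}, ip G f f p * Real.exp ((n - 2) * u p) ∂(mu n G) := by
    refine (setIntegral_eq_integral_of_forall_compl_eq_zero fun p hp => ?_).symm
    have h3 : ip G f f p = 0 := by
      unfold ip
      refine Finset.sum_eq_zero fun i _ => Finset.sum_eq_zero fun j _ => ?_
      rw [hoff p hp i]
      ring
    rw [h3, zero_mul]
  rw [e2]
  -- pointwise bound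
  set A : Set (Fin n → ℝ) := B n ρ ∩ {p | k ≤ u p} with hA
  set A' : Set (Fin n → ℝ) := B n ρ ∩ {p | k ≤ u p ∧ u p ≤ k + h} with hA'
  have hA'A : A' ⊆ A := fun p hp => ⟨hp.1, hp.2.1⟩
  have cexp : ContinuousOn (fun p => Real.exp (((n : ℝ) - 2) * u p)) (Bc n 2) :=
    Real.continuous_exp.comp_continuousOn (continuousOn_const.mul hD.cu)
  have c1' : ContinuousOn (fun p => Real.exp (((n : ℝ) - 2) * u p) * grG G u p ^ 2) (Bc n 2) :=
    cexp.mul (hD.cgr.pow 2)
  have hpt : ∀ p ∈ A, ip G f f p * Real.exp ((n - 2) * u p) ≤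
      2 * (c1 / h) ^ 2 * (A'.indicator (fun p => Real.exp (((n : ℝ) - 2) * u p) *
        grG G u p ^ 2) p) +
        2 * (K * (c2 / (ρ - ρ')) ^ 2) * Real.exp (((n : ℝ) - 2) * u p) := by
    intro p hp
    have hE : 0 < Real.exp (((n : ℝ) - 2) * u p) := Real.exp_pos _
    have hpΩ : p ∈ Ω := hBΩ hp.1
    set t' : ℝ := deriv Real.smoothTransition ((u p - k) / h) * (1 / h) with ht'
    have hdu : DifferentiableAt ℝ u p := diff_of_smooth (hsm p hp.1)
    have hdφ : DifferentiableAt ℝ φ p := diff_of_smooth hφ.contDiffAt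
    have e3 : ∀ i, pd i f p = pd i φ p * Decay.ta k h (u p) + φ p * (t' * pd i u p) := by
      intro i
      have h4 := Decay.pd_comp (Decay.ta_deriv k h (u p)) hdu i
      have h5 := pd_mul (f := φ) (h := fun q => Decay.ta k h (u q)) (p := p)
        hdφ (diff_of_smooth (hsτ p hp.1)) i
      rw [h4] at h5
      exact h5
    have e4 := ip_step hD.met hpΩ hdφ hdu e3
    have hgu : grG G u p ^ 2 = ip G u u p := grG_sq hD.met hpΩ
    have n1 : 0 ≤ ip G φ φ p := ip_nonneg hD.met hpΩ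
    have n2 : 0 ≤ ip G u u p := ip_nonneg hD.met hpΩ
    have e5 : ip G f f p ≤ 2 * (K * (c2 / (ρ - ρ')) ^ 2) + 2 * (t' ^ 2 * grG G u p ^ 2) := by
      have a0 := ta0 (u p)
      have a1 := ta1 (u p)
      have b0 := hφ0 p
      have b1 := hφ1 p
      have s1 : Decay.ta k h (u p) ^ 2 ≤ 1 := by nlinarith
      have s2 : φ p ^ 2 ≤ 1 := by nlinarith
      have s3 : ip G φ φ p ≤ K * (c2 / (ρ - ρ')) ^ 2 := by
        refine (hD.dual p (hB2 hp.1) φ).trans ?_
        refine mul_le_mul_of_nonneg_left ?_ hK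
        rw [← gr_sq]
        exact pow_le_pow_left₀ (gr_nonneg _ _) (hφg p) 2
      have s4 : Decay.ta k h (u p) ^ 2 * ip G φ φ p ≤ 1 * ip G φ φ p :=
        mul_le_mul_of_nonneg_right s1 n1
      have s5 : (φ p * t') ^ 2 * ip G u u p ≤ t' ^ 2 * ip G u u p := by
        refine mul_le_mul_of_nonneg_right ?_ n2
        rw [mul_pow]
        nlinarith [sq_nonneg t']
      rw [hgu]
      nlinarith
    have e7 : t' ^ 2 * grG G u p ^ 2 * Real.exp (((n : ℝ) - 2) * u p) ≤
        (c1 / h) ^ 2 *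
          (A'.indicator (fun p => Real.exp (((n : ℝ) - 2) * u p) * grG G u p ^ 2) p) := by
      by_cases hp' : p ∈ A'
      · rw [Set.indicator_of_mem hp']
        have s3 : t' ^ 2 ≤ (c1 / h) ^ 2 := by
          rw [ht', mul_one_div, div_pow, div_pow]
          refine div_le_div_of_nonneg_right ?_ (sq_nonneg h)
          have s4 := hc1 ((u p - k) / h)
          calc _ = |deriv Real.smoothTransition ((u p - k) / h)| ^ 2 := (sq_abs _).symm
            _ ≤ c1 ^ 2 := pow_le_pow_left₀ (abs_nonneg _) s4 2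
        have s5 : 0 ≤ Real.exp (((n : ℝ) - 2) * u p) * grG G u p ^ 2 :=
          mul_nonneg hE.le (sq_nonneg _)
        nlinarith [mul_le_mul_of_nonneg_right s3 s5]
      · rw [Set.indicator_of_notMem hp', mul_zero]
        have s6 : k + h < u p := by
          by_contra s7
          exact hp' ⟨hp.1, hp.2, not_lt.mp s7⟩
        have s8 : t' = 0 := by
          rw [ht', Decay.deriv_step_zero, zero_mul]
          rw [lt_div_iff₀ hh]
          linarith
        rw [s8]
        simp
    calc ip G f f p * Real.exp ((n - 2) * u p)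
        ≤ (2 * (K * (c2 / (ρ - ρ')) ^ 2) + 2 * (t' ^ 2 * grG G u p ^ 2)) *
            Real.exp (((n : ℝ) - 2) * u p) :=
          mul_le_mul_of_nonneg_right e5 hE.le
      _ = 2 * (K * (c2 / (ρ - ρ')) ^ 2) * Real.exp (((n : ℝ) - 2) * u p) +
          2 * (t' ^ 2 * grG G u p ^ 2 * Real.exp (((n : ℝ) - 2) * u p)) := by ring
      _ ≤ 2 * (K * (c2 / (ρ - ρ')) ^ 2) * Real.exp (((n : ℝ) - 2) * u p) +
          2 * ((c1 / h) ^ 2 *
          (A'.indicator (fun p => Real.exp (((n : ℝ) - 2) * u p) * grG G u p ^ 2) p)) := by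
          linarith
      _ = _ := by ring
  have i1 : IntegrableOn (fun p => ip G f f p * Real.exp ((n - 2) * u p)) A (mu n G) := by
    refine integrableOn_ofG hD.met hD.sub ?_ A
    refine ContinuousOn.mul ?_ cexp
    exact fun p hp => (smooth_ip hD.met (hD.sub hp) hfs.contDiffAt
      hfs.contDiffAt).continuousAt.continuousWithinAt
  have i2 : IntegrableOn (fun p => Real.exp (((n : ℝ) - 2) * u p) * grG G u p ^ 2) A
      (mu n G) := integrableOn_ofG hD.met hD.sub c1' A
  have i3 : IntegrableOn (fun p => Real.exp (((n : ℝ) - 2) * u p)) A (mu n G) :=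
    integrableOn_ofG hD.met hD.sub cexp A
  have i4 : IntegrableOn
      (A'.indicator (fun p => Real.exp (((n : ℝ) - 2) * u p) * grG G u p ^ 2)) A (mu n G) :=
    Integrable.indicator i2 hmA'
  have i5 : IntegrableOn (fun p => 2 * (c1 / h) ^ 2 *
          (A'.indicator (fun p => Real.exp (((n : ℝ) - 2) * u p) * grG G u p ^ 2) p) +
        2 * (K * (c2 / (ρ - ρ')) ^ 2) * Real.exp (((n : ℝ) - 2) * u p)) A (mu n G) := by
    have i6 := (Integrable.const_mul i4 (2 * (c1 / h) ^ 2)).add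
      (Integrable.const_mul i3 (2 * (K * (c2 / (ρ - ρ')) ^ 2)))
    exact i6
  calc ∫ p in A, ip G f f p * Real.exp ((n - 2) * u p) ∂(mu n G)
      ≤ ∫ p in A, (2 * (c1 / h) ^ 2 *
          (A'.indicator (fun p => Real.exp (((n : ℝ) - 2) * u p) * grG G u p ^ 2) p) +
        2 * (K * (c2 / (ρ - ρ')) ^ 2) * Real.exp (((n : ℝ) - 2) * u p)) ∂(mu n G) :=
        setIntegral_mono_on i1 i5 hmA hpt
    _ = 2 * (c1 / h) ^ 2 * (∫ p in A,
          (A'.indicator (fun p => Real.exp (((n : ℝ) - 2) * u p) * grG G u p ^ 2) p) ∂(mu n G)) +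
        2 * (K * (c2 / (ρ - ρ')) ^ 2) *
          ∫ p in A, Real.exp (((n : ℝ) - 2) * u p) ∂(mu n G) := by
        rw [integral_add (i4.const_mul _) (i3.const_mul _), integral_const_mul,
          integral_const_mul]
    _ = _ := by
        rw [setIntegral_indicator hmA', Set.inter_eq_self_of_subset_right hA'A]

end DecayG

theorem exists_decayG (n : ℕ) (K S : ℝ) : ∃ C : ℝ, 1 ≤ C ∧
    ∀ {lam : ℝ} {Ω : Set (Fin n → ℝ)} {G : (Fin n → ℝ) → Matrix (Fin n) (Fin n) ℝ}
      {u : (Fin n → ℝ) → ℝ}, Core n K S lam Ω G u →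
      ∀ r R : ℝ, 1 ≤ r → r < R → R ≤ 3 / 2 → ∀ h : ℝ, 1 ≤ h →
        (∀ k : ℝ, ∫ p in B n R ∩ {p | k ≤ u p ∧ u p ≤ k + h}, grG G u p ^ n ∂(mu n G) ≤
          h ^ n / C) →
        ∀ j : ℕ, ∫ p in B n r ∩ {p | Real.log (C / (R - r)) + j * h ≤ u p},
          Real.exp (n * u p) ∂(mu n G) ≤ (1 / 2) ^ j := by
  obtain ⟨c1, hc1', hc1⟩ := exists_step
  obtain ⟨c2, hc2', hc2⟩ := exists_cutoff
  set T : ℝ := 8 * (|S| + 1) * c1 ^ 2 with hT
  have hS0 : 0 ≤ |S| := abs_nonneg S
  have hK0' : 0 ≤ |K| := abs_nonneg K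
  have hc1s : 1 ≤ c1 ^ 2 := one_le_pow₀ hc1'
  have hc2s : 1 ≤ c2 ^ 2 := one_le_pow₀ hc2'
  have hT1 : 1 ≤ T := by
    rw [hT]
    nlinarith
  have hTn : 1 ≤ T ^ n := one_le_pow₀ hT1
  set C : ℝ := T ^ n + 32 * (|S| + 1) * ((|K| + 1) * c2 ^ 2) with hC
  have hpos : 0 ≤ 32 * (|S| + 1) * ((|K| + 1) * c2 ^ 2) := by positivity
  have hC2 : 32 * (|S| + 1) * ((|K| + 1) * c2 ^ 2) ≤ C := by rw [hC]; linarith
  have hC1 : 1 ≤ C := by
    rw [hC]
    linarith
  have hCT : T ^ n ≤ C := by
    rw [hC]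
    linarith
  refine ⟨C, hC1, ?_⟩
  intro lam Ω G u hD r R hr hrR hR h hh hyp
  have hC0 : 0 < C := by linarith
  have hS : S ≤ |S| + 1 := by linarith [le_abs_self S]
  have hS1 : 1 ≤ S := hD.hS
  have hKle : K ≤ |K| + 1 := by linarith [le_abs_self K]
  have hK1 : 1 ≤ K := hD.hK
  have hn : (3 : ℝ) ≤ n := by exact_mod_cast hD.hn
  have hn0 : (0 : ℝ) < n := by linarith
  set d : ℝ := R - r with hd
  have hd0 : 0 < d := by rw [hd]; linarith
  set α : ℝ := ((n : ℝ) - 2) / n with hα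
  have hα0 : 0 ≤ α := div_nonneg (by linarith) hn0.le
  have hα1 : α ≤ 1 := by rw [hα, div_le_one hn0]; linarith
  set k : ℕ → ℝ := fun j => Real.log (C / d) + j * h with hk
  set ρ : ℕ → ℝ := fun j => r + d / 2 ^ j with hρ
  have hρr : ∀ j, r < ρ j := fun j => by
    simp only [hρ]
    have : 0 < d / 2 ^ j := div_pos hd0 (by positivity)
    linarith
  have hρR : ∀ j, ρ j ≤ R := fun j => by
    simp only [hρ]
    have : d / 2 ^ j ≤ d := div_le_self hd0.le (one_le_pow₀ (by norm_num))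
    linarith
  have hρ2 : ∀ j, ρ j ≤ 2 := fun j => (hρR j).trans (by linarith)
  have hρs : ∀ j, ρ j - ρ (j + 1) = d / 2 ^ (j + 1) := fun j => by
    simp only [hρ]
    rw [pow_succ]
    field_simp
    ring
  have hρlt : ∀ j, ρ (j + 1) < ρ j := fun j => by
    have h1 := hρs j
    have : 0 < d / 2 ^ (j + 1) := div_pos hd0 (by positivity)
    linarith
  have cexpn : ContinuousOn (fun p => Real.exp (n * u p)) (Bc n 2) :=
    Real.continuous_exp.comp_continuousOn (continuousOn_const.mul hD.cu)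
  have cexp2 : ContinuousOn (fun p => Real.exp (((n : ℝ) - 2) * u p)) (Bc n 2) :=
    Real.continuous_exp.comp_continuousOn (continuousOn_const.mul hD.cu)
  set V : ℕ → ℝ := fun j =>
    ∫ p in B n (ρ j) ∩ {p | k j ≤ u p}, Real.exp (n * u p) ∂(mu n G) with hV
  have hV0 : ∀ j, 0 ≤ V j := fun j => integral_nonneg fun p => (Real.exp_pos _).le
  have hV1 : ∀ j, V j ≤ 1 := fun j => by
    refine le_trans ?_ hD.vol
    exact setIntegral_le_integral (integrable_of hD.met hD.sub cexpn)
      (Eventually.of_forall fun p => (Real.exp_pos _).le)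
  have hVα : ∀ j, V j ≤ V j ^ α := fun j => by
    have h1 := Real.rpow_le_rpow_of_exponent_ge' (hV0 j) (hV1 j) hα0 hα1
    rwa [Real.rpow_one] at h1
  have claim : ∀ j, V j ^ α ≤ (1 / 2) ^ j := by
    intro j
    induction j with
    | zero =>
      rw [pow_zero]
      exact Real.rpow_le_one (hV0 0) (hV1 0) hα0
    | succ j ih =>
      have hcut := hc2 n (ρ (j + 1)) (ρ j) (by linarith [hρr (j + 1)]) (hρlt j)
      have st := DecayG.step (k := k j) hc1 hD (by linarith [hρr (j + 1)]) (hρlt j) (hρ2 j)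
        (by linarith : 0 < h) hcut
      have hkj : k j + h = k (j + 1) := by
        simp only [hk]
        push_cast
        ring
      have hLHS : (∫ p in B n (ρ (j + 1)) ∩ {p | k j + h ≤ u p},
          Real.exp (n * u p) ∂(mu n G)) = V (j + 1) := by
        simp only [hV, hkj]
      rw [hLHS] at st
      -- first integral
      set A' : Set (Fin n → ℝ) := B n (ρ j) ∩ {p | k j ≤ u p ∧ u p ≤ k j + h} with hA'
      have hρj0 : 0 ≤ ρ j := by linarith [hρr j]
      have hmA' : MeasurableSet A' := Decay.meas_band hD.cu hρj0 (hρ2 j) _ _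
      have hmA : MeasurableSet (B n (ρ j) ∩ {p | k j ≤ u p}) :=
        Decay.meas_ge hD.cu hρj0 (hρ2 j) _
      have hx : ∫ p in A', grG G u p ^ n ∂(mu n G) ≤ h ^ n / C := by
        refine le_trans ?_ (hyp (k j))
        refine integral_mono_setG hD.met hD.sub (hD.cgr.pow n) ?_
          (Decay.meas_band hD.cu (by linarith) (by linarith) _ _)
          fun p _ => pow_nonneg (grG_nonneg G u p) n
        exact Set.inter_subset_inter_left _ (B_mono hρj0 (hρR j))
      have hy : ∫ p in A', Real.exp (n * u p) ∂(mu n G) ≤ V j := by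
        refine integral_mono_setG hD.met hD.sub cexpn ?_ hmA
          fun p _ => (Real.exp_pos _).le
        exact fun p hp => ⟨hp.1, hp.2.1⟩
      have ho := holderG hD.met hD.sub hD.cu hD.cgr hmA' (a := n - 2)
        (by have := hD.hn; omega) (by have := hD.hn; omega) hx hy
      have hcast : ((n - 2 : ℕ) : ℝ) = (n : ℝ) - 2 := by
        have := hD.hn
        rw [Nat.cast_sub (by omega)]
        norm_num
      have hnn : n - (n - 2) = 2 := by have := hD.hn; omega
      rw [hcast, hnn] at ho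
      have hexp : ((n : ℝ) - ((n : ℝ) - 2)) / n = 2 / n := by congr 1; ring
      rw [hexp] at ho
      have hxK : (h ^ n / C) ^ ((2 : ℝ) / n) ≤ h ^ 2 / T := by
        have h1 : h ^ n / C ≤ (h / T) ^ n := by
          rw [div_pow]
          exact div_le_div_of_nonneg_left (by positivity) (by positivity) hCT
        have h2 : (h ^ n / C) ^ ((2 : ℝ) / n) ≤ ((h / T) ^ n) ^ ((2 : ℝ) / n) :=
          Real.rpow_le_rpow (by positivity) h1 (by positivity)
        have h3 : ((h / T) ^ n) ^ ((2 : ℝ) / n) = (h / T) ^ 2 := by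
          rw [← Real.rpow_natCast, ← Real.rpow_mul (by positivity)]
          have : (n : ℝ) * (2 / n) = (2 : ℕ) := by
            push_cast
            field_simp
          rw [this, Real.rpow_natCast]
        rw [h3] at h2
        refine h2.trans ?_
        rw [div_pow]
        refine div_le_div_of_nonneg_left (by positivity) (by linarith) ?_
        nlinarith
      have hVj : 0 ≤ V j ^ α := Real.rpow_nonneg (hV0 j) _
      have hI1 : (∫ p in A', Real.exp (((n : ℝ) - 2) * u p) * grG G u p ^ 2 ∂(mu n G)) ≤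
          h ^ 2 / T * V j ^ α :=
        ho.trans (mul_le_mul_of_nonneg_right hxK hVj)
      -- second integral
      have hI2 : (∫ p in B n (ρ j) ∩ {p | k j ≤ u p},
          Real.exp (((n : ℝ) - 2) * u p) ∂(mu n G)) ≤ (d / C) ^ 2 * (1 / 4) ^ j * V j ^ α := by
        have h1 : (∫ p in B n (ρ j) ∩ {p | k j ≤ u p},
            Real.exp (((n : ℝ) - 2) * u p) ∂(mu n G)) ≤
            ∫ p in B n (ρ j) ∩ {p | k j ≤ u p},
              Real.exp (-(2 * k j)) * Real.exp (n * u p) ∂(mu n G) := by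
          refine setIntegral_mono_on ?_ ?_ hmA ?_
          · exact integrableOn_ofG hD.met hD.sub cexp2 _
          · exact (integrableOn_ofG hD.met hD.sub cexpn _).const_mul _
          · intro p hp
            rw [← Real.exp_add]
            apply Real.exp_le_exp.mpr
            have : k j ≤ u p := hp.2
            linarith
        rw [integral_const_mul] at h1
        have h2 : Real.exp (-(2 * k j)) ≤ (d / C) ^ 2 * (1 / 4) ^ j := by
          have h3 : -(2 * k j) = -(Real.log (C / d)) + -(Real.log (C / d)) + -(2 * (j * h)) := by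
            simp only [hk]
            ring
          rw [h3, Real.exp_add, Real.exp_add, Real.exp_neg (Real.log (C / d)),
            Real.exp_log (div_pos hC0 hd0), inv_div, ← sq]
          refine mul_le_mul_of_nonneg_left ?_ (sq_nonneg _)
          have h4 : Real.exp (-(2 * (j * h))) ≤ Real.exp (-(2 : ℝ)) ^ j := by
            rw [← Real.exp_nat_mul]
            apply Real.exp_le_exp.mpr
            have : (0 : ℝ) ≤ j := Nat.cast_nonneg j
            nlinarith
          refine h4.trans (pow_le_pow_left₀ (Real.exp_pos _).le ?_ j)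
          have h5 : Real.exp (-(2 : ℝ)) = (Real.exp 1)⁻¹ ^ 2 := by
            rw [← Real.exp_neg, ← Real.exp_nat_mul]
            norm_num
          rw [h5]
          have h6 : (2 : ℝ) ≤ Real.exp 1 := by
            have := Real.add_one_le_exp (1 : ℝ)
            linarith
          have h7 : (Real.exp 1)⁻¹ ≤ 1 / 2 := by
            rw [← one_div]
            exact one_div_le_one_div_of_le (by norm_num) h6
          calc (Real.exp 1)⁻¹ ^ 2 ≤ (1 / 2 : ℝ) ^ 2 :=
                pow_le_pow_left₀ (inv_nonneg.mpr (Real.exp_pos _).le) h7 2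
            _ = 1 / 4 := by norm_num
        calc _ ≤ _ := h1
          _ ≤ (d / C) ^ 2 * (1 / 4) ^ j * V j := mul_le_mul_of_nonneg_right h2 (hV0 j)
          _ ≤ _ := mul_le_mul_of_nonneg_left (hVα j) (by positivity)
      have hfin : S * (2 * (c1 / h) ^ 2 * (∫ p in A',
            Real.exp (((n : ℝ) - 2) * u p) * grG G u p ^ 2 ∂(mu n G)) +
          2 * (K * (c2 / (ρ j - ρ (j + 1))) ^ 2) * ∫ p in B n (ρ j) ∩ {p | k j ≤ u p},
            Real.exp (((n : ℝ) - 2) * u p) ∂(mu n G)) ≤ 1 / 2 * V j ^ α := by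
        have hh0 : 0 < h := by linarith
        have t1 : 2 * (c1 / h) ^ 2 * (∫ p in A',
            Real.exp (((n : ℝ) - 2) * u p) * grG G u p ^ 2 ∂(mu n G)) ≤
            2 * c1 ^ 2 / T * V j ^ α := by
          calc _ ≤ 2 * (c1 / h) ^ 2 * (h ^ 2 / T * V j ^ α) :=
                mul_le_mul_of_nonneg_left hI1 (by positivity)
            _ = 2 * c1 ^ 2 / T * V j ^ α := by
                have : T ≠ 0 := by positivity
                field_simp
        have t2 : 2 * (K * (c2 / (ρ j - ρ (j + 1))) ^ 2) *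
            (∫ p in B n (ρ j) ∩ {p | k j ≤ u p},
              Real.exp (((n : ℝ) - 2) * u p) ∂(mu n G)) ≤
            8 * (K * c2 ^ 2) / C ^ 2 * V j ^ α := by
          rw [hρs j]
          calc _ ≤ 2 * (K * (c2 / (d / 2 ^ (j + 1))) ^ 2) *
                  ((d / C) ^ 2 * (1 / 4) ^ j * V j ^ α) :=
                mul_le_mul_of_nonneg_left hI2 (by positivity)
            _ = 8 * (K * c2 ^ 2) / C ^ 2 * V j ^ α := by
                have h4 : (4 : ℝ) ^ j = 2 ^ j * 2 ^ j := by
                  rw [← mul_pow]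
                  norm_num
                rw [one_div, inv_pow, h4, pow_succ]
                field_simp
                ring
        have t3 : S * (2 * c1 ^ 2 / T) ≤ 1 / 4 := by
          rw [hT, mul_div_assoc', div_le_iff₀ (by positivity)]
          nlinarith
        have t4 : S * (8 * (K * c2 ^ 2) / C ^ 2) ≤ 1 / 4 := by
          rw [mul_div_assoc', div_le_iff₀ (by positivity)]
          have g1 : C ≤ C ^ 2 := by nlinarith
          have g2 : K * c2 ^ 2 ≤ (|K| + 1) * c2 ^ 2 :=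
            mul_le_mul_of_nonneg_right hKle (by linarith)
          have g3 : S * (K * c2 ^ 2) ≤ (|S| + 1) * ((|K| + 1) * c2 ^ 2) :=
            mul_le_mul hS g2 (by positivity) (by positivity)
          nlinarith
        calc _ ≤ S * (2 * c1 ^ 2 / T * V j ^ α + 8 * (K * c2 ^ 2) / C ^ 2 * V j ^ α) :=
              mul_le_mul_of_nonneg_left (add_le_add t1 t2) (by linarith)
          _ = (S * (2 * c1 ^ 2 / T)) * V j ^ α +
              (S * (8 * (K * c2 ^ 2) / C ^ 2)) * V j ^ α := by ring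
          _ ≤ 1 / 4 * V j ^ α + 1 / 4 * V j ^ α :=
              add_le_add (mul_le_mul_of_nonneg_right t3 hVj) (mul_le_mul_of_nonneg_right t4 hVj)
          _ = 1 / 2 * V j ^ α := by ring
      calc V (j + 1) ^ α ≤ _ := st
        _ ≤ 1 / 2 * V j ^ α := hfin
        _ ≤ 1 / 2 * (1 / 2) ^ j := mul_le_mul_of_nonneg_left ih (by norm_num)
        _ = (1 / 2) ^ (j + 1) := by rw [pow_succ]; ring
  intro j
  calc ∫ p in B n r ∩ {p | Real.log (C / d) + j * h ≤ u p}, Real.exp (n * u p) ∂(mu n G)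
      ≤ V j := by
        refine integral_mono_setG hD.met hD.sub cexpn ?_
          (Decay.meas_ge hD.cu (by linarith [hρr j]) (hρ2 j) _) fun p _ => (Real.exp_pos _).le
        exact Set.inter_subset_inter_left _ (B_mono (by linarith) (hρr j).le)
    _ ≤ V j ^ α := hVα j
    _ ≤ (1 / 2) ^ j := claim j

end

end Pool.Agent.Helper50.CG
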