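import Pool.Agent.Helper50.CF.Basic
import Pool.Agent.Helper73.HB.Extra

/-!
# Conformal metrics `e^{2u} G` with a lower Ricci bound: definitions

`G` is a background metric on the open set `Ω ⊇ Bc n 2`.  All norms, gradients, Hessians,
Laplacians of `u` are those of `G` (`ip`, `grad`, `hess`, `lap` of the HB library).  `mu n G` is the
Riemannian measure of `G` restricted to `B n 2`.
-/

namespace Pool.Agent.Helper50.CG

open scoped ContDiff Topology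
open Pool.Agent.Helper49.Ric Pool.Agent.Helper73.HB Pool.Agent.Helper50.CF MeasureTheory Filter

noncomputable section

variable {n : ℕ}

/-- The conformal metric `e^{2u} G`. -/
def cmet (u : (Fin n → ℝ) → ℝ) (G : (Fin n → ℝ) → Matrix (Fin n) (Fin n) ℝ)
    (p : Fin n → ℝ) : Matrix (Fin n) (Fin n) ℝ :=
  Real.exp (2 * u p) • G p

/-- `∇²u(∇u,∇u)` for the metric `G` -/
def hqG (G : (Fin n → ℝ) → Matrix (Fin n) (Fin n) ℝ) (u : (Fin n → ℝ) → ℝ)
    (p : Fin n → ℝ) : ℝ :=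
  ∑ i, ∑ j, hess G u i j p * grad G u i p * grad G u j p

/-- `|∇u|` for the metric `G` -/
def grG (G : (Fin n → ℝ) → Matrix (Fin n) (Fin n) ℝ) (u : (Fin n → ℝ) → ℝ)
    (p : Fin n → ℝ) : ℝ :=
  Real.sqrt (ip G u u p)

/-- the Riemannian measure of `G` on the ball `B n 2` -/
def mu (n : ℕ) (G : (Fin n → ℝ) → Matrix (Fin n) (Fin n) ℝ) : Measure (Fin n → ℝ) :=
  (volume.restrict (B n 2)).withDensity (fun p => ENNReal.ofReal (dens G p))

/-- The normalised situation: ball `B n 2`, volume of `e^{2u} G` at most one. -/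
structure Core (n : ℕ) (K S lam : ℝ) (Ω : Set (Fin n → ℝ))
    (G : (Fin n → ℝ) → Matrix (Fin n) (Fin n) ℝ) (u : (Fin n → ℝ) → ℝ) : Prop where
  hn : 3 ≤ n
  hK : 1 ≤ K
  hS : 1 ≤ S
  opn : IsOpen Ω
  met : IsMetricOn Ω G
  sub : Bc n 2 ⊆ Ω
  smooth : ∀ p ∈ Ω, ContDiffAt ℝ ∞ u p
  lam0 : 0 ≤ lam
  dual : ∀ p ∈ B n 2, ∀ f : (Fin n → ℝ) → ℝ, ip G f f p ≤ K * gs f p
  mass : (mu n G).real Set.univ ≤ K
  P1 : ∀ p ∈ B n 2, lap G u p ≤
    -(((n : ℝ) - 2) / 2) * ip G u u p + (lam * Real.exp (2 * u p) + K)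
  P2 : ∀ p ∈ B n 2, ((n : ℝ) - 2) * hqG G u p + lap G u p * ip G u u p ≤
    (lam * Real.exp (2 * u p) + K) * ip G u u p
  sob : ∀ f : (Fin n → ℝ) → ℝ, ContDiff ℝ ∞ f → HasCompactSupport f → tsupport f ⊆ B n 2 →
    (∫ p, |f p| ^ (2 * n / (n - 2) : ℝ) * Real.exp (n * u p) ∂(mu n G)) ^ ((n - 2) / n : ℝ) ≤
      S * ∫ p, ip G f f p * Real.exp ((n - 2) * u p) ∂(mu n G)
  vol : ∫ p, Real.exp (n * u p) ∂(mu n G) ≤ 1

end

end Pool.Agent.Helper50.CG
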