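import Pool.Agent.Helper50.CG.Basic

/-! # CG-2: the divergence of `(|∇u|²+ε)^{s/2} ∇u` for the metric `G`

PROOF. With `w = sqrt (ip G u u + ε)`: `pd_ip` (HB, `u = w`) gives
`∂ₖ(ip G u u) = 2 Σⱼ hessₖⱼ uʲ`, so `∂ₖw = (Σⱼ hessₖⱼ uʲ)/w`, `∂ₖ(w^s) = s w^s (Σⱼ hessₖⱼ uʲ)/w²`.
`∂ᵢ(dens w^s uⁱ) = ∂ᵢdens w^s uⁱ + dens ∂ᵢ(w^s) uⁱ + dens w^s ∂ᵢuⁱ`; `pd_dens`:
`∂ᵢdens = dens Σₗ Γˡₗᵢ`; `cov_grad`, `sum_hup`: `Σᵢ (∂ᵢuⁱ + Σₗ Γⁱᵢₗ uˡ) = lap G u`. -/

namespace Pool.Agent.Helper50.CG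

open scoped ContDiff Topology
open Pool.Agent.Helper49.Ric Pool.Agent.Helper73.HB Pool.Agent.Helper50.CF MeasureTheory Filter

noncomputable section

variable {n : ℕ} {K S lam : ℝ} {Ω : Set (Fin n → ℝ)}
  {G : (Fin n → ℝ) → Matrix (Fin n) (Fin n) ℝ} {u : (Fin n → ℝ) → ℝ} {p : Fin n → ℝ}

/-- chain rule for the partial derivatives -/
private theorem pd_comp {f : (Fin n → ℝ) → ℝ} {φ : ℝ → ℝ} {c : ℝ} (hf : DifferentiableAt ℝ f p)
    (hφ : HasDerivAt φ c (f p)) (i : Fin n) : pd i (fun q => φ (f q)) p = c * pd i f p := by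
  have h1 : HasFDerivAt (fun q => φ (f q)) (c • fderiv ℝ f p) p :=
    hφ.comp_hasFDerivAt p hf.hasFDerivAt
  rw [pd_eq h1.differentiableAt, h1.fderiv, pd_eq hf]
  rfl

/-- the divergence of `W ∇u` -/
private theorem div_W (hΩ : IsOpen Ω) (hG : IsMetricOn Ω G) (hp : p ∈ Ω)
    (hu : ContDiffAt ℝ ∞ u p) {W : (Fin n → ℝ) → ℝ} (hW : DifferentiableAt ℝ W p) :
    ∑ i, pd i (fun q => dens G q * (W q * grad G u i q)) p =
      dens G p * (W p * lap G u p + ∑ i, pd i W p * grad G u i p) := by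
  have hd : DifferentiableAt ℝ (dens G) p := diff_of_smooth (smooth_dens hG hp)
  have hg : ∀ i, DifferentiableAt ℝ (grad G u i) p := fun i =>
    diff_of_smooth (smooth_grad hG hp hu i)
  have h1 : ∀ i, pd i (fun q => dens G q * (W q * grad G u i q)) p =
      dens G p * (W p * (pd i (grad G u i) p + (∑ l, christoffel G l l i p) * grad G u i p)
        + pd i W p * grad G u i p) := by
    intro i
    rw [pd_mul hd (hW.fun_mul (hg i)), pd_mul hW (hg i), pd_dens hΩ hG hp i]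
    ring
  have h2 : ∑ i, (pd i (grad G u i) p + (∑ l, christoffel G l l i p) * grad G u i p) =
      lap G u p := by
    rw [← sum_hup hG hp, Finset.sum_add_distrib]
    have h3 : ∑ i, (∑ l, christoffel G l l i p) * grad G u i p =
        ∑ i, ∑ k, christoffel G i i k p * grad G u k p := by
      rw [Finset.sum_comm]
      exact Finset.sum_congr rfl fun i _ => Finset.sum_mul _ _ _
    rw [h3, ← Finset.sum_add_distrib]
    exact Finset.sum_congr rfl fun i _ => cov_grad hΩ hG hp hu i i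
  rw [Finset.sum_congr rfl fun i _ => h1 i, ← Finset.mul_sum, Finset.sum_add_distrib,
    ← Finset.mul_sum, h2]

private theorem smooth_sq (hG : IsMetricOn Ω G) (hp : p ∈ Ω) (hu : ContDiffAt ℝ ∞ u p) {ε : ℝ}
    (hε : 0 < ε) (s : ℕ) :
    ContDiffAt ℝ ∞ (fun q => Real.sqrt (ip G u u q + ε) ^ s) p := by
  have h0 : 0 < ip G u u p + ε := by
    have := ip_nonneg (f := u) hG hp
    linarith
  exact (((smooth_ip hG hp hu hu).add contDiffAt_const).sqrt h0.ne').pow s

theorem smooth_xG (hG : IsMetricOn Ω G) (hp : p ∈ Ω) (hu : ContDiffAt ℝ ∞ u p) {ε : ℝ}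
    (hε : 0 < ε) (s : ℕ) (i : Fin n) :
    ContDiffAt ℝ ∞ (fun q => dens G q * (Real.sqrt (ip G u u q + ε) ^ s * grad G u i q)) p :=
  (smooth_dens hG hp).mul ((smooth_sq hG hp hu hε s).mul (smooth_grad hG hp hu i))

theorem div_xG (hΩ : IsOpen Ω) (hG : IsMetricOn Ω G) (hp : p ∈ Ω)
    (hu : ∀ q ∈ Ω, ContDiffAt ℝ ∞ u q) {ε : ℝ} (hε : 0 < ε) (s : ℕ) :
    ∑ i, pd i (fun q => dens G q * (Real.sqrt (ip G u u q + ε) ^ s * grad G u i q)) p =
      dens G p * (Real.sqrt (ip G u u p + ε) ^ s *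
        (lap G u p + s * hqG G u p / (ip G u u p + ε))) := by
  have h0 : 0 < ip G u u p + ε := by
    have := ip_nonneg (f := u) hG hp
    linarith
  have hup := hu p hp
  have hip : DifferentiableAt ℝ (ip G u u) p := diff_of_smooth (smooth_ip hG hp hup hup)
  have hW : DifferentiableAt ℝ (fun q => Real.sqrt (ip G u u q + ε) ^ s) p :=
    diff_of_smooth (smooth_sq hG hp hup hε s)
  have h1 : ∀ i, pd i (fun q => Real.sqrt (ip G u u q + ε) ^ s) p =
      s * Real.sqrt (ip G u u p + ε) ^ s / (ip G u u p + ε) *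
        ∑ j, hess G u i j p * grad G u j p := by
    intro i
    have hφ : HasDerivAt (fun t : ℝ => Real.sqrt (t + ε) ^ s)
        (s * Real.sqrt (ip G u u p + ε) ^ (s - 1) *
          (1 / (2 * Real.sqrt (ip G u u p + ε)))) (ip G u u p) := by
      have h2 : HasDerivAt (fun t : ℝ => Real.sqrt (t + ε))
          (1 / (2 * Real.sqrt (ip G u u p + ε))) (ip G u u p) :=
        ((hasDerivAt_id (ip G u u p)).add_const ε).sqrt h0.ne'
      exact h2.fun_pow s
    rw [pd_comp hip hφ, pd_ip hΩ hG hp hup hup]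
    have hw : 0 < Real.sqrt (ip G u u p + ε) := Real.sqrt_pos.2 h0
    have hw2 : Real.sqrt (ip G u u p + ε) ^ 2 = ip G u u p + ε := Real.sq_sqrt h0.le
    obtain ⟨w, hwd⟩ : ∃ w, w = Real.sqrt (ip G u u p + ε) := ⟨_, rfl⟩
    rw [← hwd] at hw hw2 ⊢
    rw [← hw2]
    rcases Nat.eq_zero_or_pos s with hs | hs
    · subst hs
      simp
    · obtain ⟨k, rfl⟩ : ∃ k, s = k + 1 := ⟨s - 1, by omega⟩
      rw [Nat.add_sub_cancel]
      field_simp
      ring
  rw [div_W hΩ hG hp hup hW, Finset.sum_congr rfl fun i _ => by rw [h1 i]]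
  have h4 : ∑ i, s * Real.sqrt (ip G u u p + ε) ^ s / (ip G u u p + ε) *
        (∑ j, hess G u i j p * grad G u j p) * grad G u i p =
      s * Real.sqrt (ip G u u p + ε) ^ s / (ip G u u p + ε) * hqG G u p := by
    unfold hqG
    rw [Finset.mul_sum]
    refine Finset.sum_congr rfl fun i _ => ?_
    rw [mul_assoc, Finset.sum_mul]
    congr 1
    exact Finset.sum_congr rfl fun j _ => by ring
  rw [h4]
  ring

/-- the divergence of `φ(u) ∇u` -/
theorem div_fG (hΩ : IsOpen Ω) (hG : IsMetricOn Ω G) (hp : p ∈ Ω)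
    (hu : ∀ q ∈ Ω, ContDiffAt ℝ ∞ u q) (b : ℝ) :
    ∑ i, pd i (fun q => dens G q * (Real.exp (b * u q) * grad G u i q)) p =
      dens G p * (Real.exp (b * u p) * (lap G u p + b * ip G u u p)) := by
  have hup := hu p hp
  have hud : DifferentiableAt ℝ u p := diff_of_smooth hup
  have hφ : HasDerivAt (fun t : ℝ => Real.exp (b * t)) (Real.exp (b * u p) * b) (u p) := by
    have h2 : HasDerivAt (fun t : ℝ => b * t) b (u p) := by
      simpa using (hasDerivAt_id (u p)).const_mul b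
    exact h2.exp
  have hW : DifferentiableAt ℝ (fun q => Real.exp (b * u q)) p :=
    (hφ.comp_hasFDerivAt p hud.hasFDerivAt).differentiableAt
  rw [div_W hΩ hG hp hup hW, Finset.sum_congr rfl fun i _ => by rw [pd_comp hud hφ i]]
  have h4 : ∑ i, Real.exp (b * u p) * b * pd i u p * grad G u i p =
      Real.exp (b * u p) * b * ip G u u p := by
    unfold ip grad
    rw [Finset.mul_sum]
    refine Finset.sum_congr rfl fun i _ => ?_
    rw [mul_assoc, Finset.mul_sum]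
    congr 1
    exact Finset.sum_congr rfl fun j _ => by ring
  rw [h4]
  ring

theorem smooth_fG (hG : IsMetricOn Ω G) (hp : p ∈ Ω) (hu : ContDiffAt ℝ ∞ u p) (b : ℝ)
    (i : Fin n) :
    ContDiffAt ℝ ∞ (fun q => dens G q * (Real.exp (b * u q) * grad G u i q)) p :=
  (smooth_dens hG hp).mul (((contDiffAt_const.mul hu).exp).mul (smooth_grad hG hp hu i))

end

end Pool.Agent.Helper50.CG
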