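import Pool.Agent.Helper50.CG.DivG
import Pool.Agent.Helper50.CF.Div

/-! # CG-3: the weak form, `p = s + 2` (port of `CF/Test.lean`)

PROOF as in `CF/Test.lean` with `Xᵢ = dens (ip + ε)^{s/2} uⁱ` (`smooth_xG`, `div_xG`), `div_le` with
`E = lam e^{2u} + K`, `Σ ∂ᵢψ uⁱ = ip G ψ u`; the integrals are first integrals over the whole space
with the factor `dens` (`ψ`, `∂ψ` vanish off `B n 2`), then `integral_mu`. -/

namespace Pool.Agent.Helper50.CG

open scoped ContDiff Topology
open Pool.Agent.Helper49.Ric Pool.Agent.Helper73.HB Pool.Agent.Helper50.CF MeasureTheory Filter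

noncomputable section

variable {n : ℕ} {K S lam : ℝ} {Ω : Set (Fin n → ℝ)}
  {G : (Fin n → ℝ) → Matrix (Fin n) (Fin n) ℝ} {u : (Fin n → ℝ) → ℝ} {p : Fin n → ℝ}

private theorem cont_ip (hG : IsMetricOn Ω G) (hp : p ∈ Ω) (hu : ContDiffAt ℝ ∞ u p) :
    ContinuousAt (ip G u u) p := (smooth_ip hG hp hu hu).continuousAt

private theorem cont_w (hG : IsMetricOn Ω G) (hp : p ∈ Ω) (hu : ContDiffAt ℝ ∞ u p) (ε : ℝ)
    (s : ℕ) : ContinuousAt (fun q => Real.sqrt (ip G u u q + ε) ^ s) p :=
  (((cont_ip hG hp hu).add continuousAt_const).sqrt).pow s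

/-- the limit `ε → 0` in one of the three integrals -/
private theorem tendsto_test (hG : IsMetricOn Ω G) (hu : ∀ p ∈ Ω, ContDiffAt ℝ ∞ u p)
    {φ F : (Fin n → ℝ) → ℝ} (hφ : Continuous φ) (hc : HasCompactSupport φ)
    (ht : tsupport φ ⊆ Ω) (hF : ∀ p ∈ Ω, ContinuousAt F p) (s : ℕ) :
    Tendsto (fun k : ℕ => ∫ p, φ p * (Real.sqrt (ip G u u p + 1 / ((k : ℝ) + 1)) ^ s * F p)) atTop
      (𝓝 (∫ p, φ p * (grG G u p ^ s * F p))) := by
  have hint : ∀ ε : ℝ, Integrable (fun p => φ p * (Real.sqrt (ip G u u p + ε) ^ s * F p)) :=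
    fun ε => integrable_mul_of hφ hc fun p hp =>
      (cont_w hG (ht hp) (hu p (ht hp)) ε s).mul (hF p (ht hp))
  refine tendsto_integral_of_dominated_convergence
    (fun p => ‖φ p * (Real.sqrt (ip G u u p + 1) ^ s * F p)‖)
    (fun k => (hint _).aestronglyMeasurable) (hint 1).norm ?_ ?_
  · intro k
    refine Eventually.of_forall fun p => ?_
    rw [norm_mul, norm_mul, norm_mul, norm_mul]
    refine mul_le_mul_of_nonneg_left ?_ (norm_nonneg _)
    refine mul_le_mul_of_nonneg_right ?_ (norm_nonneg _)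
    rw [Real.norm_of_nonneg (pow_nonneg (Real.sqrt_nonneg _) s),
      Real.norm_of_nonneg (pow_nonneg (Real.sqrt_nonneg _) s)]
    refine pow_le_pow_left₀ (Real.sqrt_nonneg _) (Real.sqrt_le_sqrt ?_) s
    have h1 : 1 / ((k : ℝ) + 1) ≤ 1 := by
      rw [div_le_one (by positivity)]
      linarith [(Nat.cast_nonneg k : (0 : ℝ) ≤ k)]
    linarith
  · refine Eventually.of_forall fun p => ?_
    have h1 : Tendsto (fun k : ℕ => ip G u u p + 1 / ((k : ℝ) + 1)) atTop
        (𝓝 (ip G u u p)) := by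
      simpa using (tendsto_const_nhds (x := ip G u u p)).add
        (tendsto_one_div_add_atTop_nhds_zero_nat (𝕜 := ℝ))
    have h2 : Tendsto (fun k : ℕ => Real.sqrt (ip G u u p + 1 / ((k : ℝ) + 1))) atTop
        (𝓝 (grG G u p)) := (Real.continuous_sqrt.tendsto _).comp h1
    exact ((h2.pow s).mul_const (F p)).const_mul (φ p)

private theorem cont_pd {ψ : (Fin n → ℝ) → ℝ} (hψ : ContDiff ℝ ∞ ψ) (i : Fin n) :
    Continuous (pd i ψ) :=
  continuous_iff_continuousAt.mpr fun _ => (smooth_pd hψ.contDiffAt i).continuousAt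

private theorem tsupport_pd (ψ : (Fin n → ℝ) → ℝ) (i : Fin n) :
    tsupport (pd i ψ) ⊆ tsupport ψ := by
  refine closure_minimal ?_ (isClosed_tsupport ψ)
  intro p hp
  by_contra h1
  exact hp (pd_zero_off h1 i)

/-- `Σᵢ ∂ᵢf uⁱ` is the inner product of the gradients -/
private theorem sum_pd_grad (f : (Fin n → ℝ) → ℝ) (p : Fin n → ℝ) :
    ∑ i, pd i f p * grad G u i p = ip G f u p := by
  unfold grad ip
  refine Finset.sum_congr rfl fun i _ => ?_
  rw [Finset.mul_sum]
  exact Finset.sum_congr rfl fun j _ => by ring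

/-- the inequality before the limit -/
private theorem test_eps (h : Core n K S lam Ω G u) {s : ℕ} (hs : s + 2 ≤ n)
    {ψ : (Fin n → ℝ) → ℝ} (hψ : ContDiff ℝ ∞ ψ) (hc : HasCompactSupport ψ)
    (ht : tsupport ψ ⊆ B n 2) (h0 : ∀ p, 0 ≤ ψ p) {ε : ℝ} (hε : 0 < ε) :
    (((n : ℝ) - 2 - s) / 2) *
        ∫ p, ψ p * (Real.sqrt (ip G u u p + ε) ^ s * (dens G p * ip G u u p)) ≤
      (∑ i, ∫ p, pd i ψ p * (Real.sqrt (ip G u u p + ε) ^ s * (dens G p * grad G u i p)))
        + ∫ p, ψ p * (Real.sqrt (ip G u u p + ε) ^ s *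
            (dens G p * (lam * Real.exp (2 * u p) + K))) := by
  obtain ⟨D, hD⟩ := lip_of hψ hc
  have hsub : tsupport ψ ⊆ Ω := ht.trans h.sub2
  have hX : ∀ p ∈ Ω, ∀ i, ContDiffAt ℝ ∞
      (fun q => dens G q * (Real.sqrt (ip G u u q + ε) ^ s * grad G u i q)) p :=
    fun p hp i => smooth_xG h.met hp (h.smooth p hp) hε s i
  have h1 : ∀ i, ∫ p, ψ p *
        pd i (fun q => dens G q * (Real.sqrt (ip G u u q + ε) ^ s * grad G u i q)) p =
      - ∫ p, pd i ψ p * (dens G p * (Real.sqrt (ip G u u p + ε) ^ s * grad G u i p)) := fun i =>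
    ibp h.opn hD hc hsub (fun p hp => (hX p hp i).of_le (by exact_mod_cast le_top)) i
  have i1 : ∀ i, Integrable (fun p => ψ p *
      pd i (fun q => dens G q * (Real.sqrt (ip G u u q + ε) ^ s * grad G u i q)) p) := fun i =>
    integrable_mul hD hc hsub fun p hp => (smooth_pd (hX p hp i) i).continuousAt
  have i2 : Integrable (fun p => ψ p * (Real.sqrt (ip G u u p + ε) ^ s *
      (dens G p * ip G u u p))) :=
    integrable_mul_of hψ.continuous hc fun p hp =>
      (cont_w h.met (hsub hp) (h.smooth p (hsub hp)) ε s).mul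
        ((smooth_dens h.met (hsub hp)).continuousAt.mul
          (cont_ip h.met (hsub hp) (h.smooth p (hsub hp))))
  have i3 : Integrable (fun p => ψ p * (Real.sqrt (ip G u u p + ε) ^ s *
      (dens G p * (lam * Real.exp (2 * u p) + K)))) :=
    integrable_mul_of hψ.continuous hc fun p hp =>
      (cont_w h.met (hsub hp) (h.smooth p (hsub hp)) ε s).mul
        ((smooth_dens h.met (hsub hp)).continuousAt.mul
          ((continuousAt_const.mul (Real.continuous_exp.continuousAt.comp
            (continuousAt_const.mul (h.smooth p (hsub hp)).continuousAt))).add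
              continuousAt_const))
  have h2 : ∫ p, ∑ i, ψ p *
        pd i (fun q => dens G q * (Real.sqrt (ip G u u q + ε) ^ s * grad G u i q)) p =
      - ∑ i, ∫ p, pd i ψ p * (Real.sqrt (ip G u u p + ε) ^ s * (dens G p * grad G u i p)) := by
    rw [integral_finsetSum _ fun i _ => i1 i, ← Finset.sum_neg_distrib]
    refine Finset.sum_congr rfl fun i _ => ?_
    rw [h1 i]
    congr 2
    funext p
    ring
  have h3 : ∫ p, ∑ i, ψ p *
        pd i (fun q => dens G q * (Real.sqrt (ip G u u q + ε) ^ s * grad G u i q)) p ≤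
      ∫ p, (-(((n : ℝ) - 2 - s) / 2) * (ψ p * (Real.sqrt (ip G u u p + ε) ^ s *
          (dens G p * ip G u u p)))
        + ψ p * (Real.sqrt (ip G u u p + ε) ^ s *
          (dens G p * (lam * Real.exp (2 * u p) + K)))) := by
    refine integral_mono (integrable_finsetSum _ fun i _ => i1 i)
      ((i2.const_mul _).add i3) ?_
    intro p
    dsimp only
    rw [← Finset.mul_sum]
    by_cases hp : p ∈ tsupport ψ
    · have hB : p ∈ B n 2 := ht hp
      rw [div_xG h.opn h.met (hsub hp) h.smooth hε s]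
      have e0 : 0 ≤ lam * Real.exp (2 * u p) + K :=
        add_nonneg (mul_nonneg h.lam0 (Real.exp_nonneg (2 * u p))) (by linarith [h.hK])
      have e1 := div_le h.hn hs hε (ip_nonneg (f := u) h.met (hsub hp)) e0
        (h.P1 p hB) (h.P2 p hB)
      have e2 : 0 ≤ ψ p * (dens G p * Real.sqrt (ip G u u p + ε) ^ s) :=
        mul_nonneg (h0 p) (mul_nonneg (dens_pos h.met (hsub hp)).le
          (pow_nonneg (Real.sqrt_nonneg _) s))
      have e3 := mul_le_mul_of_nonneg_left e1 e2
      calc ψ p * (dens G p * (Real.sqrt (ip G u u p + ε) ^ s *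
              (lap G u p + s * hqG G u p / (ip G u u p + ε))))
          = ψ p * (dens G p * Real.sqrt (ip G u u p + ε) ^ s) *
              (lap G u p + s * hqG G u p / (ip G u u p + ε)) := by ring
        _ ≤ ψ p * (dens G p * Real.sqrt (ip G u u p + ε) ^ s) *
            (-(((n : ℝ) - 2 - s) / 2) * ip G u u p + (lam * Real.exp (2 * u p) + K)) := e3
        _ = _ := by ring
    · rw [image_eq_zero_of_notMem_tsupport hp]
      simp
  have h4 : ∫ p, (-(((n : ℝ) - 2 - s) / 2) * (ψ p * (Real.sqrt (ip G u u p + ε) ^ s *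
          (dens G p * ip G u u p)))
        + ψ p * (Real.sqrt (ip G u u p + ε) ^ s *
          (dens G p * (lam * Real.exp (2 * u p) + K)))) =
      -(((n : ℝ) - 2 - s) / 2) * (∫ p, ψ p * (Real.sqrt (ip G u u p + ε) ^ s *
          (dens G p * ip G u u p)))
        + ∫ p, ψ p * (Real.sqrt (ip G u u p + ε) ^ s *
          (dens G p * (lam * Real.exp (2 * u p) + K))) := by
    rw [integral_add (i2.const_mul _) i3, integral_const_mul]
  rw [h2, h4] at h3
  linarith

/-- an integral with respect to `mu` of a function which vanishes off `B n 2` -/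
private theorem integral_mu_of (h : Core n K S lam Ω G u) {f : (Fin n → ℝ) → ℝ}
    (hf : ∀ p, p ∉ B n 2 → f p = 0) :
    ∫ p, f p ∂(mu n G) = ∫ p, dens G p * f p := by
  rw [integral_mu h.met h.sub]
  refine setIntegral_eq_integral_of_forall_compl_eq_zero fun p hp => ?_
  rw [hf p hp, mul_zero]

theorem test0G (h : Core n K S lam Ω G u) {s : ℕ} (hs : s + 2 ≤ n) {ψ : (Fin n → ℝ) → ℝ}
    (hψ : ContDiff ℝ ∞ ψ) (hc : HasCompactSupport ψ) (ht : tsupport ψ ⊆ B n 2)
    (h0 : ∀ p, 0 ≤ ψ p) :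
    (((n : ℝ) - 2 - s) / 2) * ∫ p, ψ p * grG G u p ^ (s + 2) ∂(mu n G) ≤
      ∫ p, grG G u p ^ s * ip G ψ u p ∂(mu n G)
        + ∫ p, ψ p * (grG G u p ^ s * (lam * Real.exp (2 * u p) + K)) ∂(mu n G) := by
  have hsub : tsupport ψ ⊆ Ω := ht.trans h.sub2
  have hsubi : ∀ i, tsupport (pd i ψ) ⊆ Ω := fun i => (tsupport_pd ψ i).trans hsub
  have hci : ∀ i, HasCompactSupport (pd i ψ) := fun i =>
    IsCompact.of_isClosed_subset hc (isClosed_tsupport _) (tsupport_pd ψ i)
  have z0 : ∀ p, p ∉ B n 2 → ψ p = 0 := fun p hp =>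
    image_eq_zero_of_notMem_tsupport fun h1 => hp (ht h1)
  have z1 : ∀ i p, p ∉ B n 2 → pd i ψ p = 0 := fun i p hp =>
    pd_zero_off (fun h1 => hp (ht h1)) i
  have cd : ∀ p ∈ Ω, ContinuousAt (dens G) p := fun p hp => (smooth_dens h.met hp).continuousAt
  have t1 := tendsto_test h.met h.smooth hψ.continuous hc hsub
    (F := fun p => dens G p * ip G u u p)
    (fun p hp => (cd p hp).mul (cont_ip h.met hp (h.smooth p hp))) s
  have t2 : ∀ i, _ := fun i => tendsto_test h.met h.smooth (cont_pd hψ i) (hci i) (hsubi i)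
    (F := fun p => dens G p * grad G u i p)
    (fun p hp => (cd p hp).mul (smooth_grad h.met hp (h.smooth p hp) i).continuousAt) s
  have t3 := tendsto_test h.met h.smooth hψ.continuous hc hsub
    (F := fun p => dens G p * (lam * Real.exp (2 * u p) + K))
    (fun p hp => (cd p hp).mul ((continuousAt_const.mul (Real.continuous_exp.continuousAt.comp
      (continuousAt_const.mul (h.smooth p hp).continuousAt))).add continuousAt_const)) s
  have t4 := le_of_tendsto_of_tendsto' (t1.const_mul (((n : ℝ) - 2 - s) / 2))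
    ((tendsto_finsetSum Finset.univ fun i _ => t2 i).add t3)
    (fun k => test_eps h hs hψ hc ht h0 (by positivity : (0 : ℝ) < 1 / ((k : ℝ) + 1)))
  have e1 : ∫ p, ψ p * grG G u p ^ (s + 2) ∂(mu n G) =
      ∫ p, ψ p * (grG G u p ^ s * (dens G p * ip G u u p)) := by
    rw [integral_mu_of h fun p hp => by rw [z0 p hp, zero_mul]]
    congr 1
    funext p
    by_cases hp : p ∈ B n 2
    · rw [pow_add, grG_sq h.met (h.sub2 hp)]
      ring
    · rw [z0 p hp]
      simp
  have e2 : ∑ i, ∫ p, pd i ψ p * (grG G u p ^ s * (dens G p * grad G u i p)) =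
      ∫ p, grG G u p ^ s * ip G ψ u p ∂(mu n G) := by
    rw [integral_mu_of h fun p hp => by
      rw [← sum_pd_grad, Finset.sum_eq_zero fun i _ => by rw [z1 i p hp, zero_mul], mul_zero]]
    rw [← integral_finsetSum]
    · congr 1
      funext p
      rw [← sum_pd_grad, Finset.mul_sum, Finset.mul_sum]
      exact Finset.sum_congr rfl fun i _ => by ring
    · intro i _
      exact integrable_mul_of (cont_pd hψ i) (hci i) fun p hp =>
        ((continuousAt_grG h.met (hsubi i hp) (h.smooth p (hsubi i hp))).pow s).mul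
          ((cd p (hsubi i hp)).mul
            (smooth_grad h.met (hsubi i hp) (h.smooth p (hsubi i hp)) i).continuousAt)
  have e3 : ∫ p, ψ p * (grG G u p ^ s * (lam * Real.exp (2 * u p) + K)) ∂(mu n G) =
      ∫ p, ψ p * (grG G u p ^ s * (dens G p * (lam * Real.exp (2 * u p) + K))) := by
    rw [integral_mu_of h fun p hp => by rw [z0 p hp, zero_mul]]
    congr 1
    funext p
    ring
  rw [e1, e3, ← e2]
  exact t4

end

end Pool.Agent.Helper50.CG
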