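import Pool.Agent.Helper50.CG.OuterG
import Pool.Agent.Helper50.CG.TestG
import Pool.Agent.Helper73.HB.Div

/-! # CG-11: the last integration by parts (port of `CF/Last.lean`)

PROOF as in `CF/Last.lean`: `Q = -2(n-1) lap - (n-1)(n-2) ip`, `(Q + 2(n-1)(lam e^{2u} + K)) e^{(n-2)u}
≥ 0` by `Core.P1`; `ibp` with `F = dens e^{(n-2)u} uⁱ` (`div_fG`, `smooth_fG`, `b = n - 2`);
`scal G e^{(n-2)u} ≤ R (1 + e^{nu})`. Mass `≤ K`, `Core.vol`, `exists_EG`. -/

namespace Pool.Agent.Helper50.CG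

open scoped ContDiff Topology
open Pool.Agent.Helper49.Ric Pool.Agent.Helper73.HB Pool.Agent.Helper50.CF MeasureTheory Filter

noncomputable section

variable {n : ℕ} {K S lam : ℝ} {Ω : Set (Fin n → ℝ)}
  {G : (Fin n → ℝ) → Matrix (Fin n) (Fin n) ℝ} {u : (Fin n → ℝ) → ℝ} {p : Fin n → ℝ}

/-- `Σᵢ ∂ᵢf uⁱ` is the inner product of the gradients -/
private theorem sum_pd_grad' (f : (Fin n → ℝ) → ℝ) (p : Fin n → ℝ) :
    ∑ i, pd i f p * grad G u i p = ip G f u p := by
  unfold grad ip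
  refine Finset.sum_congr rfl fun i _ => ?_
  rw [Finset.mul_sum]
  exact Finset.sum_congr rfl fun j _ => by ring

/-- an integral with respect to `mu` of a function which vanishes off `B n 2` -/
private theorem integral_mu_of' (h : Core n K S lam Ω G u) {f : (Fin n → ℝ) → ℝ}
    (hf : ∀ p, p ∉ B n 2 → f p = 0) :
    ∫ p, f p ∂(mu n G) = ∫ p, dens G p * f p := by
  rw [integral_mu h.met h.sub]
  refine setIntegral_eq_integral_of_forall_compl_eq_zero fun p hp => ?_
  rw [hf p hp, mul_zero]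

/-- integration by parts -/
private theorem partsG (h : Core n K S lam Ω G u) {φ : (Fin n → ℝ) → ℝ} (hφ : ContDiff ℝ ∞ φ)
    (hc : HasCompactSupport φ) (hs : tsupport φ ⊆ B n 2) (b : ℝ) :
    ∫ p, φ p * (Real.exp (b * u p) * (lap G u p + b * ip G u u p)) ∂(mu n G)
      = - ∫ p, Real.exp (b * u p) * ip G φ u p ∂(mu n G) := by
  obtain ⟨D, hD⟩ := lip_of hφ hc
  have hsΩ : tsupport φ ⊆ Ω := hs.trans h.sub2
  have hF : ∀ i, ∀ p ∈ Ω, ContDiffAt ℝ ∞
      (fun q => dens G q * (Real.exp (b * u q) * grad G u i q)) p :=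
    fun i p hp => smooth_fG h.met hp (h.smooth p hp) b i
  have h1 : ∀ i, ∫ p, φ p * pd i (fun q => dens G q * (Real.exp (b * u q) * grad G u i q)) p
      = - ∫ p, pd i φ p * (dens G p * (Real.exp (b * u p) * grad G u i p)) := fun i =>
    ibp h.opn hD hc hsΩ (fun p hp => (hF i p hp).of_le (by exact_mod_cast le_top)) i
  have z0 : ∀ p, p ∉ B n 2 → φ p = 0 := fun p hp =>
    image_eq_zero_of_notMem_tsupport fun h1 => hp (hs h1)
  have z1 : ∀ p, p ∉ B n 2 → ip G φ u p = 0 := fun p hp => by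
    rw [← sum_pd_grad', Finset.sum_eq_zero fun i _ => by
      rw [pd_zero_off (fun h1 => hp (hs h1)) i, zero_mul]]
  rw [integral_mu_of' h fun p hp => by rw [z0 p hp, zero_mul],
    integral_mu_of' h fun p hp => by rw [z1 p hp, mul_zero]]
  have e1 : (fun p => dens G p * (φ p * (Real.exp (b * u p) * (lap G u p + b * ip G u u p))))
      = fun p => ∑ i, φ p * pd i (fun q => dens G q * (Real.exp (b * u q) * grad G u i q)) p := by
    funext p
    by_cases hp : p ∈ tsupport φ
    · rw [← Finset.mul_sum, div_fG h.opn h.met (hsΩ hp) h.smooth b]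
      ring
    · simp only [image_eq_zero_of_notMem_tsupport hp, zero_mul, mul_zero, Finset.sum_const_zero]
  have e2 : (fun p => dens G p * (Real.exp (b * u p) * ip G φ u p))
      = fun p => ∑ i, pd i φ p * (dens G p * (Real.exp (b * u p) * grad G u i p)) := by
    funext p
    rw [← sum_pd_grad', Finset.mul_sum, Finset.mul_sum]
    refine Finset.sum_congr rfl fun i _ => ?_
    ring
  rw [e1, e2, integral_finsetSum, integral_finsetSum]
  · simp only [h1, Finset.sum_neg_distrib]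
  · intro i _
    exact integrable_pd_mul hD hc hsΩ (fun p hp => (hF i p hp).continuousAt) i
  · intro i _
    exact integrable_mul_of hφ.continuous hc fun p hp =>
      (smooth_pd (hF i p (hsΩ hp)) i).continuousAt

theorem exists_lastG (n : ℕ) (K S Lam R : ℝ) : ∃ C : ℝ, 1 ≤ C ∧
    ∀ {lam : ℝ} {Ω : Set (Fin n → ℝ)} {G : (Fin n → ℝ) → Matrix (Fin n) (Fin n) ℝ}
      {u : (Fin n → ℝ) → ℝ}, Core n K S lam Ω G u → lam ≤ Lam → 0 ≤ R →
      (∀ p ∈ B n 2, scal G p ≤ R) →
      ∫ p in B n 1, (scal G p - 2 * ((n : ℝ) - 1) * lap G u p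
        - ((n : ℝ) - 1) * ((n : ℝ) - 2) * ip G u u p) * Real.exp ((n - 2) * u p) ∂(mu n G)
        ≤ C := by
  by_cases hn : 3 ≤ n
  swap
  · exact ⟨1, le_rfl, fun h _ => absurd h.hn hn⟩
  by_cases hK : 1 ≤ K
  swap
  · exact ⟨1, le_rfl, fun h _ => absurd h.hK hK⟩
  obtain ⟨CE, hCE, HE⟩ := exists_EG n K S Lam
  obtain ⟨c, hc1, hcut⟩ := exists_cutoff
  obtain ⟨ζ, hζ, hζc, hζs, hζ0, hζ1, hζe, hζg⟩ := hcut n 1 (9 / 8) (by norm_num) (by norm_num)
  have hN : (3 : ℝ) ≤ n := by exact_mod_cast hn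
  have hn1 : 0 ≤ (n : ℝ) - 1 := by linarith
  have hn2 : 0 ≤ (n : ℝ) - 2 := by linarith
  have hn12 : 0 ≤ ((n : ℝ) - 1) * ((n : ℝ) - 2) := mul_nonneg hn1 hn2
  have hK0 : 0 ≤ K := by linarith
  have hc0 : 0 ≤ c := by linarith
  have hCE0 : 0 ≤ CE := by linarith
  refine ⟨1 + |R| * (K + 1) + 2 * ((n : ℝ) - 1) * (8 * c * K * (K + 1 + CE))
    + ((n : ℝ) - 1) * ((n : ℝ) - 2) * CE + 2 * ((n : ℝ) - 1) * |Lam|
    + 2 * ((n : ℝ) - 1) * (K * (K + 1)), ?_, ?_⟩
  · have h1 : 0 ≤ |R| * (K + 1) := by positivity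
    have h2 : 0 ≤ 2 * ((n : ℝ) - 1) * (8 * c * K * (K + 1 + CE)) := by positivity
    have h3 : 0 ≤ ((n : ℝ) - 1) * ((n : ℝ) - 2) * CE := by positivity
    have h4 : 0 ≤ 2 * ((n : ℝ) - 1) * |Lam| := by positivity
    have h5 : 0 ≤ 2 * ((n : ℝ) - 1) * (K * (K + 1)) := by positivity
    linarith
  intro lam Ω G u h hlam hR hscal
  have hg8 : ∀ p, gr ζ p ≤ 8 * c := by
    intro p
    refine (hζg p).trans (le_of_eq ?_)
    norm_num
    ring
  have hsub : B n (9 / 8) ⊆ B n 2 := B_mono (by norm_num) (by norm_num)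
  have hs2 : tsupport ζ ⊆ B n 2 := hζs.trans hsub
  have hz : ∀ p, p ∉ B n (9 / 8) → ζ p = 0 := fun p hp =>
    image_eq_zero_of_notMem_tsupport fun hq => hp (hζs hq)
  have hzi : ∀ p, p ∉ B n (9 / 8) → ip G ζ u p = 0 := fun p hp => by
    rw [← sum_pd_grad', Finset.sum_eq_zero fun i _ => by
      rw [pd_zero_off (fun h1 => hp (hζs h1)) i, zero_mul]]
  -- continuity
  have hsm : ∀ p ∈ Bc n 2, ContDiffAt ℝ ∞ u p := fun p hp => h.smooth p (h.sub hp)
  have cex : ∀ b : ℝ, ContinuousOn (fun p => Real.exp (b * u p)) (Bc n 2) := fun b =>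
    Real.continuous_exp.comp_continuousOn (continuousOn_const.mul h.cu)
  have cw := cex ((n : ℝ) - 2)
  have ce := cex (n : ℝ)
  have cI : ContinuousOn (fun p => ip G u u p) (Bc n 2) := fun p hp =>
    (smooth_ip h.met (h.sub hp) (hsm p hp) (hsm p hp)).continuousAt.continuousWithinAt
  have cL : ContinuousOn (fun p => lap G u p) (Bc n 2) := fun p hp =>
    (smooth_lap h.met (h.sub hp) (hsm p hp)).continuousAt.continuousWithinAt
  have cS : ContinuousOn (fun p => scal G p) (Bc n 2) := fun p hp =>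
    (smooth_scal h.met (h.sub hp)).continuousAt.continuousWithinAt
  have cz : ContinuousOn ζ (Bc n 2) := hζ.continuous.continuousOn
  have cip : ContinuousOn (fun p => ip G ζ u p) (Bc n 2) := fun p hp =>
    (smooth_ip h.met (h.sub hp) hζ.contDiffAt (hsm p hp)).continuousAt.continuousWithinAt
  have cgr2 : ContinuousOn (fun p => grG G u p ^ 2) (Bc n 2) := h.cgr.pow 2
  have iw := integrable_of h.met h.sub cw
  have ie := integrable_of h.met h.sub ce
  have i1 : Integrable (fun p => ζ p * (Real.exp ((n - 2) * u p) *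
      (lap G u p + (n - 2) * ip G u u p))) (mu n G) :=
    integrable_of h.met h.sub (cz.mul (cw.mul (cL.add (continuousOn_const.mul cI))))
  have i2 : Integrable (fun p => ζ p * (Real.exp ((n - 2) * u p) * ip G u u p)) (mu n G) :=
    integrable_of h.met h.sub (cz.mul (cw.mul cI))
  have i3 : Integrable (fun p => ζ p * Real.exp (n * u p)) (mu n G) :=
    integrable_of h.met h.sub (cz.mul ce)
  have i4 : Integrable (fun p => ζ p * Real.exp ((n - 2) * u p)) (mu n G) :=
    integrable_of h.met h.sub (cz.mul cw)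
  have i0 : Integrable (fun p => (scal G p - 2 * ((n : ℝ) - 1) * lap G u p
        - ((n : ℝ) - 1) * ((n : ℝ) - 2) * ip G u u p) * Real.exp ((n - 2) * u p)) (mu n G) :=
    integrable_of h.met h.sub (((cS.sub (continuousOn_const.mul cL)).sub
      (continuousOn_const.mul cI)).mul cw)
  have _ := fin_mu h.met h.sub
  have ione : Integrable (fun _ : Fin n → ℝ => (1 : ℝ)) (mu n G) := integrable_const 1
  have hexp : ∀ p, Real.exp (2 * u p) * Real.exp ((n - 2) * u p) = Real.exp (n * u p) := by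
    intro p
    rw [← Real.exp_add]
    congr 1
    ring
  have hw0 : ∀ p, 0 ≤ Real.exp ((n - 2) * u p) := fun p => (Real.exp_pos _).le
  have he0 : ∀ p, 0 ≤ Real.exp (n * u p) := fun p => (Real.exp_pos _).le
  have hwe : ∀ p, Real.exp ((n - 2) * u p) ≤ 1 + Real.exp (n * u p) := by
    intro p
    rcases le_total (u p) 0 with hu | hu
    · have h4 : Real.exp ((n - 2) * u p) ≤ 1 := by
        rw [Real.exp_le_one_iff]
        exact mul_nonpos_of_nonneg_of_nonpos hn2 hu
      linarith [he0 p]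
    · have h4 : Real.exp ((n - 2) * u p) ≤ Real.exp (n * u p) := by
        apply Real.exp_le_exp.mpr
        exact mul_le_mul_of_nonneg_right (by linarith) hu
      linarith
  have hmass : ∫ _, (1 : ℝ) ∂(mu n G) ≤ K := by
    rw [integral_const, smul_eq_mul, mul_one]
    exact h.mass
  have J5 : ∫ p, Real.exp ((n - 2) * u p) ∂(mu n G) ≤ K + 1 := by
    calc ∫ p, Real.exp ((n - 2) * u p) ∂(mu n G)
        ≤ ∫ p, (1 + Real.exp (n * u p)) ∂(mu n G) :=
          integral_mono iw (ione.add ie) fun p => hwe p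
      _ = (∫ _, (1 : ℝ) ∂(mu n G)) + ∫ p, Real.exp (n * u p) ∂(mu n G) :=
          integral_add ione ie
      _ ≤ K + 1 := add_le_add hmass h.vol
  have J4 : ∫ p, ζ p * Real.exp ((n - 2) * u p) ∂(mu n G) ≤ K + 1 := by
    refine le_trans ?_ J5
    exact integral_mono i4 iw fun p => mul_le_of_le_one_left (hw0 p) (hζ1 p)
  have J3 : ∫ p, ζ p * Real.exp (n * u p) ∂(mu n G) ≤ 1 := by
    refine le_trans ?_ h.vol
    exact integral_mono i3 ie fun p => mul_le_of_le_one_left (he0 p) (hζ1 p)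
  have cwI2 : ContinuousOn (fun p => Real.exp ((n - 2) * u p) * grG G u p ^ 2) (Bc n 2) :=
    cw.mul cgr2
  have hEE := HE h hlam
  have J2 : ∫ p, ζ p * (Real.exp ((n - 2) * u p) * ip G u u p) ∂(mu n G) ≤ CE := by
    refine le_trans ?_ hEE
    have e1 : ∫ p, ζ p * (Real.exp ((n - 2) * u p) * ip G u u p) ∂(mu n G)
        = ∫ p in B n (9 / 8), ζ p * (Real.exp ((n - 2) * u p) * ip G u u p) ∂(mu n G) := by
      symm
      refine setIntegral_eq_integral_of_forall_compl_eq_zero fun p hp => ?_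
      rw [hz p hp, zero_mul]
    rw [e1]
    refine setIntegral_mono_on i2.integrableOn (integrableOn_ofG h.met h.sub cwI2 _)
      (measurableSet_B _) fun p hp => ?_
    rw [grG_sq h.met (h.sub2 (hsub hp))]
    exact mul_le_of_le_one_left (mul_nonneg (hw0 p) (ip_nonneg h.met (h.sub2 (hsub hp)))) (hζ1 p)
  have iip : Integrable (fun p => Real.exp ((n - 2) * u p) * ip G ζ u p) (mu n G) :=
    integrable_of h.met h.sub (cw.mul cip)
  have J6 : ∫ p, Real.exp ((n - 2) * u p) * ip G ζ u p ∂(mu n G) ≤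
      8 * c * K * (K + 1 + CE) := by
    have e1 : ∫ p, Real.exp ((n - 2) * u p) * ip G ζ u p ∂(mu n G)
        = ∫ p in B n (9 / 8), Real.exp ((n - 2) * u p) * ip G ζ u p ∂(mu n G) := by
      symm
      refine setIntegral_eq_integral_of_forall_compl_eq_zero fun p hp => ?_
      rw [hzi p hp, mul_zero]
    have hI1 : Integrable (fun p => 1 + Real.exp (n * u p)) (mu n G) := ione.add ie
    have hI2 : Integrable (fun p => Real.exp ((n - 2) * u p) * grG G u p ^ 2) (mu n G) :=
      integrable_of h.met h.sub cwI2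
    have hI : Integrable (fun p => 8 * c * K * (1 + Real.exp (n * u p)
        + Real.exp ((n - 2) * u p) * grG G u p ^ 2)) (mu n G) :=
      (hI1.add hI2).const_mul _
    rw [e1]
    calc ∫ p in B n (9 / 8), Real.exp ((n - 2) * u p) * ip G ζ u p ∂(mu n G)
        ≤ ∫ p in B n (9 / 8), 8 * c * K * (1 + Real.exp (n * u p)
          + Real.exp ((n - 2) * u p) * grG G u p ^ 2) ∂(mu n G) := by
          refine setIntegral_mono_on iip.integrableOn hI.integrableOn
            (measurableSet_B _) fun p hp => ?_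
          have hpB := hsub hp
          have h1 : ip G ζ u p ≤ grG G ζ p * grG G u p :=
            (le_abs_self _).trans (abs_ip_le h.met (h.sub2 hpB) ζ u)
          have h2 : grG G ζ p ≤ 8 * c * K := by
            calc grG G ζ p ≤ K * gr ζ p := h.grG_le hpB ζ
              _ ≤ K * (8 * c) := mul_le_mul_of_nonneg_left (hg8 p) hK0
              _ = 8 * c * K := by ring
          have h3 : grG G u p ≤ 1 + grG G u p ^ 2 := by nlinarith [sq_nonneg (grG G u p - 1)]
          have h4 : grG G ζ p * grG G u p ≤ 8 * c * K * (1 + grG G u p ^ 2) :=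
            mul_le_mul h2 h3 (grG_nonneg _ _ _) (by positivity)
          calc Real.exp ((n - 2) * u p) * ip G ζ u p
              ≤ Real.exp ((n - 2) * u p) * (8 * c * K * (1 + grG G u p ^ 2)) :=
                mul_le_mul_of_nonneg_left (h1.trans h4) (hw0 p)
            _ = 8 * c * K * (Real.exp ((n - 2) * u p)
                + Real.exp ((n - 2) * u p) * grG G u p ^ 2) := by ring
            _ ≤ 8 * c * K * (1 + Real.exp (n * u p)
                + Real.exp ((n - 2) * u p) * grG G u p ^ 2) :=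
                mul_le_mul_of_nonneg_left (by linarith [hwe p]) (by positivity)
      _ = 8 * c * K * ((∫ p in B n (9 / 8), (1 + Real.exp (n * u p)) ∂(mu n G))
          + ∫ p in B n (9 / 8), Real.exp ((n - 2) * u p) * grG G u p ^ 2 ∂(mu n G)) := by
          rw [integral_const_mul, integral_add hI1.integrableOn hI2.integrableOn]
      _ ≤ 8 * c * K * (K + 1 + CE) := by
          refine mul_le_mul_of_nonneg_left ?_ (by positivity)
          have h1 : ∫ p in B n (9 / 8), (1 + Real.exp (n * u p)) ∂(mu n G) ≤ K + 1 := by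
            calc ∫ p in B n (9 / 8), (1 + Real.exp (n * u p)) ∂(mu n G)
                ≤ ∫ p, (1 + Real.exp (n * u p)) ∂(mu n G) :=
                  setIntegral_le_integral hI1 (Eventually.of_forall fun p => by
                    have := he0 p
                    simp only [Pi.zero_apply]
                    linarith)
              _ = (∫ _, (1 : ℝ) ∂(mu n G)) + ∫ p, Real.exp (n * u p) ∂(mu n G) :=
                  integral_add ione ie
              _ ≤ K + 1 := add_le_add hmass h.vol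
          linarith
  have J1 := partsG h hζ hζc hs2 ((n : ℝ) - 2)
  -- comparison
  have hT : ∀ p ∈ B n 2, 0 ≤ 2 * ((n : ℝ) - 1) * (lam * Real.exp (2 * u p) + K)
      - 2 * ((n : ℝ) - 1) * lap G u p - ((n : ℝ) - 1) * ((n : ℝ) - 2) * ip G u u p := by
    intro p hp
    have h1 := h.P1 p hp
    have h2 : 0 ≤ 2 * ((n : ℝ) - 1) * (-(((n : ℝ) - 2) / 2) * ip G u u p
        + (lam * Real.exp (2 * u p) + K) - lap G u p) :=
      mul_nonneg (by linarith) (by linarith)
    calc (0 : ℝ) ≤ _ := h2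
      _ = _ := by ring
  have iT : Integrable (fun p => R * Real.exp ((n - 2) * u p)
      + (-(2 * ((n : ℝ) - 1)) * (ζ p * (Real.exp ((n - 2) * u p) *
          (lap G u p + (n - 2) * ip G u u p)))
      + (((n : ℝ) - 1) * ((n : ℝ) - 2) * (ζ p * (Real.exp ((n - 2) * u p) * ip G u u p))
      + (2 * ((n : ℝ) - 1) * lam * (ζ p * Real.exp (n * u p))
      + 2 * ((n : ℝ) - 1) * K * (ζ p * Real.exp ((n - 2) * u p)))))) (mu n G) :=
    (iw.const_mul _).add ((i1.const_mul _).add ((i2.const_mul _).add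
      ((i3.const_mul _).add (i4.const_mul _))))
  have hpt : ∀ p, R * Real.exp ((n - 2) * u p)
      + (-(2 * ((n : ℝ) - 1)) * (ζ p * (Real.exp ((n - 2) * u p) *
          (lap G u p + (n - 2) * ip G u u p)))
      + (((n : ℝ) - 1) * ((n : ℝ) - 2) * (ζ p * (Real.exp ((n - 2) * u p) * ip G u u p))
      + (2 * ((n : ℝ) - 1) * lam * (ζ p * Real.exp (n * u p))
      + 2 * ((n : ℝ) - 1) * K * (ζ p * Real.exp ((n - 2) * u p))))) =
      R * Real.exp ((n - 2) * u p) + ζ p * ((2 * ((n : ℝ) - 1) * (lam * Real.exp (2 * u p) + K)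
      - 2 * ((n : ℝ) - 1) * lap G u p - ((n : ℝ) - 1) * ((n : ℝ) - 2) * ip G u u p)
        * Real.exp ((n - 2) * u p)) := by
    intro p
    rw [← hexp p]
    ring
  have step1 : ∫ p in B n 1, (scal G p - 2 * ((n : ℝ) - 1) * lap G u p
        - ((n : ℝ) - 1) * ((n : ℝ) - 2) * ip G u u p) * Real.exp ((n - 2) * u p) ∂(mu n G)
      ≤ ∫ p, (R * Real.exp ((n - 2) * u p)
      + (-(2 * ((n : ℝ) - 1)) * (ζ p * (Real.exp ((n - 2) * u p) *
          (lap G u p + (n - 2) * ip G u u p)))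
      + (((n : ℝ) - 1) * ((n : ℝ) - 2) * (ζ p * (Real.exp ((n - 2) * u p) * ip G u u p))
      + (2 * ((n : ℝ) - 1) * lam * (ζ p * Real.exp (n * u p))
      + 2 * ((n : ℝ) - 1) * K * (ζ p * Real.exp ((n - 2) * u p)))))) ∂(mu n G) := by
    refine le_trans ?_ (setIntegral_le_integral (s := B n 1) iT ?_)
    · refine setIntegral_mono_on i0.integrableOn iT.integrableOn (measurableSet_B 1) ?_
      intro p hp
      have hpB : p ∈ B n 2 := B_mono (by norm_num) (by norm_num) hp
      have e1 : ζ p = 1 := hζe p (B_subset_Bc 1 hp)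
      rw [hpt p, e1, one_mul, ← add_mul]
      refine mul_le_mul_of_nonneg_right ?_ (hw0 p)
      have h1 := hscal p hpB
      have h2 : 0 ≤ 2 * ((n : ℝ) - 1) * (lam * Real.exp (2 * u p) + K) :=
        mul_nonneg (by linarith) (add_nonneg (mul_nonneg h.lam0 (Real.exp_pos _).le) hK0)
      linarith
    · filter_upwards [ae_mem_B] with p hp
      simp only [Pi.zero_apply]
      rw [hpt p]
      exact add_nonneg (mul_nonneg hR (hw0 p))
        (mul_nonneg (hζ0 p) (mul_nonneg (hT p hp) (hw0 p)))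
  refine step1.trans ?_
  have k4 : Integrable (fun p => 2 * ((n : ℝ) - 1) * K * (ζ p * Real.exp ((n - 2) * u p)))
      (mu n G) := i4.const_mul _
  have k3 : Integrable (fun p => 2 * ((n : ℝ) - 1) * lam * (ζ p * Real.exp (n * u p)))
      (mu n G) := i3.const_mul _
  have k34 : Integrable (fun p => 2 * ((n : ℝ) - 1) * lam * (ζ p * Real.exp (n * u p))
      + 2 * ((n : ℝ) - 1) * K * (ζ p * Real.exp ((n - 2) * u p))) (mu n G) := k3.add k4
  have k2 : Integrable (fun p => ((n : ℝ) - 1) * ((n : ℝ) - 2) *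
      (ζ p * (Real.exp ((n - 2) * u p) * ip G u u p))) (mu n G) := i2.const_mul _
  have k234 : Integrable (fun p => ((n : ℝ) - 1) * ((n : ℝ) - 2) *
      (ζ p * (Real.exp ((n - 2) * u p) * ip G u u p))
      + (2 * ((n : ℝ) - 1) * lam * (ζ p * Real.exp (n * u p))
      + 2 * ((n : ℝ) - 1) * K * (ζ p * Real.exp ((n - 2) * u p)))) (mu n G) := k2.add k34
  have k1 : Integrable (fun p => -(2 * ((n : ℝ) - 1)) * (ζ p * (Real.exp ((n - 2) * u p) *
          (lap G u p + (n - 2) * ip G u u p)))) (mu n G) := i1.const_mul _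
  have k0 : Integrable (fun p => R * Real.exp ((n - 2) * u p)) (mu n G) := iw.const_mul _
  have k1234 : Integrable (fun p => -(2 * ((n : ℝ) - 1)) * (ζ p * (Real.exp ((n - 2) * u p) *
          (lap G u p + (n - 2) * ip G u u p)))
      + (((n : ℝ) - 1) * ((n : ℝ) - 2) * (ζ p * (Real.exp ((n - 2) * u p) * ip G u u p))
      + (2 * ((n : ℝ) - 1) * lam * (ζ p * Real.exp (n * u p))
      + 2 * ((n : ℝ) - 1) * K * (ζ p * Real.exp ((n - 2) * u p))))) (mu n G) := k1.add k234
  rw [integral_add k0 k1234, integral_add k1 k234, integral_add k2 k34,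
    integral_add k3 k4, integral_const_mul, integral_const_mul, integral_const_mul,
    integral_const_mul, integral_const_mul, J1]
  have b0 : R * ∫ p, Real.exp ((n - 2) * u p) ∂(mu n G) ≤ |R| * (K + 1) := by
    calc R * ∫ p, Real.exp ((n - 2) * u p) ∂(mu n G) ≤ R * (K + 1) :=
          mul_le_mul_of_nonneg_left J5 hR
      _ ≤ |R| * (K + 1) := mul_le_mul_of_nonneg_right (le_abs_self _) (by linarith)
  have b1 : 2 * ((n : ℝ) - 1) * ∫ p, Real.exp ((n - 2) * u p) * ip G ζ u p ∂(mu n G) ≤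
      2 * ((n : ℝ) - 1) * (8 * c * K * (K + 1 + CE)) :=
    mul_le_mul_of_nonneg_left J6 (by linarith)
  have b2 : ((n : ℝ) - 1) * ((n : ℝ) - 2) *
      ∫ p, ζ p * (Real.exp ((n - 2) * u p) * ip G u u p) ∂(mu n G) ≤
      ((n : ℝ) - 1) * ((n : ℝ) - 2) * CE := mul_le_mul_of_nonneg_left J2 hn12
  have b3 : 2 * ((n : ℝ) - 1) * lam * ∫ p, ζ p * Real.exp (n * u p) ∂(mu n G)
      ≤ 2 * ((n : ℝ) - 1) * |Lam| := by
    have h1 : 0 ≤ 2 * ((n : ℝ) - 1) * lam := mul_nonneg (by linarith) h.lam0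
    have hlamL : lam ≤ |Lam| := hlam.trans (le_abs_self _)
    calc 2 * ((n : ℝ) - 1) * lam * ∫ p, ζ p * Real.exp (n * u p) ∂(mu n G)
        ≤ 2 * ((n : ℝ) - 1) * lam * 1 := mul_le_mul_of_nonneg_left J3 h1
      _ = 2 * ((n : ℝ) - 1) * lam := mul_one _
      _ ≤ 2 * ((n : ℝ) - 1) * |Lam| := mul_le_mul_of_nonneg_left hlamL (by linarith)
  have b4 : 2 * ((n : ℝ) - 1) * K * ∫ p, ζ p * Real.exp ((n - 2) * u p) ∂(mu n G) ≤
      2 * ((n : ℝ) - 1) * (K * (K + 1)) := by
    rw [mul_assoc]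
    exact mul_le_mul_of_nonneg_left (mul_le_mul_of_nonneg_left J4 hK0) (by linarith)
  linarith

end

end Pool.Agent.Helper50.CG
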