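import Pool.Agent.Helper50.CG.StepGG

/-! # CG-6: the energy of a layer (port of `CF/Layer.lean`)

PROOF as in `CF/Layer.lean`; the new term is `4h ∫_{B n R} gr^(n-2) (lam e^{2u} + K) ≤
4h (Lam + K) (M(R) + ∫_{B n (3/2)} gr^(n-2))`, `gr^(n-2) ≤ 1 + gr^(n-1)`, mass `≤ K`, `exists_GG`, and
`1/(R-r) ≥ 1` absorbs constants. -/

namespace Pool.Agent.Helper50.CG

open scoped ContDiff Topology
open Pool.Agent.Helper49.Ric Pool.Agent.Helper73.HB Pool.Agent.Helper50.CF MeasureTheory Filter

noncomputable section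

variable {n : ℕ} {K S lam : ℝ} {Ω : Set (Fin n → ℝ)}
  {G : (Fin n → ℝ) → Matrix (Fin n) (Fin n) ℝ} {u : (Fin n → ℝ) → ℝ} {p : Fin n → ℝ}

/-- the profile `χ` -/
private def chi (k h t : ℝ) : ℝ := h * (Real.pi / 2 - Real.arctan ((t - k) / h))

/-- minus its derivative -/
private def wgt (k h t : ℝ) : ℝ := 1 / (1 + ((t - k) / h) ^ 2)

private theorem chi_smooth (k h : ℝ) : ContDiff ℝ ∞ (chi k h) := by
  unfold chi
  have h1 : ContDiff ℝ ∞ (fun t : ℝ => Real.arctan ((t - k) / h)) :=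
    Real.contDiff_arctan.comp ((contDiff_id.sub contDiff_const).div_const h)
  exact contDiff_const.mul (contDiff_const.sub h1)

private theorem chi_deriv (k : ℝ) {h : ℝ} (hh : 0 < h) (t : ℝ) :
    HasDerivAt (chi k h) (-wgt k h t) t := by
  have h1 : HasDerivAt (fun t : ℝ => (t - k) / h) (1 / h) t :=
    ((hasDerivAt_id t).sub_const k).div_const h
  have h2 := (h1.arctan).const_sub (Real.pi / 2)
  have h3 := h2.const_mul h
  refine h3.congr_deriv ?_
  unfold wgt
  have h4 : (1 : ℝ) + ((t - k) / h) ^ 2 ≠ 0 := by positivity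
  field_simp

private theorem chi_nonneg (k : ℝ) {h : ℝ} (hh : 0 < h) (t : ℝ) : 0 ≤ chi k h t := by
  unfold chi
  have := Real.arctan_lt_pi_div_two ((t - k) / h)
  exact mul_nonneg hh.le (by linarith)

private theorem chi_le (k : ℝ) {h : ℝ} (hh : 0 < h) (t : ℝ) : chi k h t ≤ 4 * h := by
  unfold chi
  have h1 := Real.neg_pi_div_two_lt_arctan ((t - k) / h)
  have h2 := Real.pi_le_four
  nlinarith

private theorem wgt_nonneg (k h t : ℝ) : 0 ≤ wgt k h t := by
  unfold wgt
  positivity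

private theorem wgt_half {k h t : ℝ} (hh : 0 < h) (h1 : k ≤ t) (h2 : t ≤ k + h) :
    1 / 2 ≤ wgt k h t := by
  unfold wgt
  have h3 : 0 ≤ (t - k) / h := div_nonneg (by linarith) hh.le
  have h4 : (t - k) / h ≤ 1 := by
    rw [div_le_one hh]
    linarith
  have h5 : ((t - k) / h) ^ 2 ≤ 1 := pow_le_one₀ h3 h4
  exact one_div_le_one_div_of_le (by positivity) (by linarith)

private theorem wgt_cont (k h : ℝ) : Continuous (wgt k h) := by
  unfold wgt
  refine continuous_const.div (by fun_prop) fun t => ?_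
  positivity

/-- derivative of `φ χ(u)` -/
private theorem pd_psi {φ : (Fin n → ℝ) → ℝ} (hφ : ContDiff ℝ ∞ φ) (hu : ContDiffAt ℝ ∞ u p)
    (k : ℝ) {h : ℝ} (hh : 0 < h) (i : Fin n) :
    pd i (fun q => φ q * chi k h (u q)) p =
      pd i φ p * chi k h (u p) - φ p * (wgt k h (u p) * pd i u p) := by
  have hud : DifferentiableAt ℝ u p := diff_of_smooth hu
  have h1 : HasFDerivAt (fun q => chi k h (u q)) ((-wgt k h (u p)) • fderiv ℝ u p) p :=
    (chi_deriv k hh (u p)).comp_hasFDerivAt p hud.hasFDerivAt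
  have h2 : DifferentiableAt ℝ (fun q => chi k h (u q)) p := h1.differentiableAt
  have h3 : pd i (fun q => chi k h (u q)) p = -(wgt k h (u p)) * pd i u p := by
    rw [pd_eq h2, pd_eq hud, h1.fderiv]
    rfl
  rw [pd_mul (hφ.contDiffAt.differentiableAt (by simp)) h2, h3]
  ring

private theorem meas_layer (hcu : ContinuousOn u (Bc n 2)) {r : ℝ} (hr : B n r ⊆ B n 2)
    (k e : ℝ) : MeasurableSet (B n r ∩ {p | k ≤ u p ∧ u p ≤ k + e}) := by
  have h1 : IsClosed (Bc n 2 ∩ u ⁻¹' (Set.Icc k (k + e))) :=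
    hcu.preimage_isClosed_of_isClosed (isClosed_Bc 2) isClosed_Icc
  have h2 : B n r ∩ {p | k ≤ u p ∧ u p ≤ k + e} =
      B n r ∩ (Bc n 2 ∩ u ⁻¹' (Set.Icc k (k + e))) := by
    ext p
    constructor
    · rintro ⟨a, b⟩
      exact ⟨a, B_subset_Bc 2 (hr a), b⟩
    · rintro ⟨a, b, c⟩
      exact ⟨a, c⟩
  rw [h2]
  exact (measurableSet_B r).inter h1.measurableSet

theorem exists_layerG (n : ℕ) (K Lam : ℝ) : ∃ C : ℝ, 1 ≤ C ∧
    ∀ {S lam : ℝ} {Ω : Set (Fin n → ℝ)} {G : (Fin n → ℝ) → Matrix (Fin n) (Fin n) ℝ}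
      {u : (Fin n → ℝ) → ℝ}, Core n K S lam Ω G u → lam ≤ Lam →
      ∀ r R : ℝ, 1 ≤ r → r < R → R ≤ 3 / 2 → ∀ k h : ℝ, 0 < h →
        ∫ p in B n r ∩ {p | k ≤ u p ∧ u p ≤ k + h}, grG G u p ^ n ∂(mu n G) ≤
          h * (C * (1 / (R - r)
            + ∫ p in B n R, Real.exp (2 * u p) * grG G u p ^ (n - 2) ∂(mu n G))) := by
  obtain ⟨c, hc1, hcut⟩ := exists_cutoff
  obtain ⟨H, hH1, hH⟩ := exists_GG n K Lam
  refine ⟨1 + 8 * (|K| * c * H + |Lam| + |K| * (|K| + H)), ?_, ?_⟩
  · have h1 := abs_nonneg Lam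
    have h2 := abs_nonneg K
    have h3 : 0 ≤ |K| * c * H := by positivity
    have h4 : 0 ≤ |K| * (|K| + H) := by positivity
    linarith
  intro S lam Ω G u hD hlam r R hr1 hrR hR k e he
  obtain ⟨φ, hφ, hφc, hφt, hφ0, hφ1, hφr, hφg⟩ := hcut n r R (by linarith) hrR
  have hn : 3 ≤ n := hD.hn
  have hK1 : 1 ≤ K := hD.hK
  have hK0 : 0 ≤ K := by linarith
  have hKabs : |K| = K := abs_of_nonneg hK0
  have hRr : 0 < R - r := by linarith
  have hBR : B n R ⊆ B n (3 / 2) := B_mono (by linarith) hR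
  have hB32 : B n (3 / 2) ⊆ B n 2 := B_mono (by norm_num) (by norm_num)
  have hBR2 : B n R ⊆ B n 2 := hBR.trans hB32
  have hsmΩ : ∀ p ∈ B n 2, p ∈ Ω := fun p hp => hD.sub2 hp
  have hsm : ∀ p ∈ B n 2, ContDiffAt ℝ ∞ u p := fun p hp => hD.smooth p (hD.sub2 hp)
  have hsm2 : ∀ p ∈ B n R, ContDiffAt ℝ ∞ (fun q => chi k e (u q)) p := fun p hp =>
    ((chi_smooth k e).contDiffAt).comp p (hsm p (hBR2 hp))
  have hψ : ContDiff ℝ ∞ (fun q => φ q * chi k e (u q)) := smooth_mul_of hφ hφt hsm2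
  have hψc : HasCompactSupport (fun q => φ q * chi k e (u q)) := hφc.mul_right
  have hψt : tsupport (fun q => φ q * chi k e (u q)) ⊆ B n R :=
    (tsupport_mul_subset_left (f := φ) (g := fun q => chi k e (u q))).trans hφt
  have key := test0G hD (s := n - 2) (by omega) hψ hψc (hψt.trans hBR2)
    (fun p => mul_nonneg (hφ0 p) (chi_nonneg k he _))
  have hcoef : ((n : ℝ) - 2 - ((n - 2 : ℕ) : ℝ)) / 2 = 0 := by
    rw [Nat.cast_sub (by omega)]
    push_cast
    ring
  rw [hcoef, zero_mul] at key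
  have := fin_mu hD.met hD.sub
  -- pointwise identity
  have hid : ∀ p ∈ B n 2, grG G u p ^ (n - 2) * ip G (fun q => φ q * chi k e (u q)) u p =
      chi k e (u p) * grG G u p ^ (n - 2) * ip G φ u p -
        φ p * (wgt k e (u p) * grG G u p ^ n) := by
    intro p hp
    have h1 : ip G (fun q => φ q * chi k e (u q)) u p =
        chi k e (u p) * ip G φ u p - φ p * wgt k e (u p) * ip G u u p := by
      simp only [ip]
      rw [Finset.mul_sum, Finset.mul_sum, ← Finset.sum_sub_distrib]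
      refine Finset.sum_congr rfl fun i _ => ?_
      rw [Finset.mul_sum, Finset.mul_sum, ← Finset.sum_sub_distrib]
      refine Finset.sum_congr rfl fun j _ => ?_
      rw [pd_psi hφ (hsm p hp) k he i]
      ring
    have h2 : grG G u p ^ n = grG G u p ^ (n - 2) * grG G u p ^ 2 := by
      rw [← pow_add]
      congr 1
      omega
    rw [h1, h2, grG_sq hD.met (hsmΩ p hp)]
    ring
  -- continuity
  have cφ : ContinuousOn φ (Bc n 2) := hφ.continuous.continuousOn
  have cg : ContinuousOn (grG G u) (Bc n 2) := hD.cgr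
  have cu : ContinuousOn u (Bc n 2) := hD.cu
  have cchi : ContinuousOn (fun q => chi k e (u q)) (Bc n 2) :=
    (chi_smooth k e).continuous.comp_continuousOn cu
  have cw : ContinuousOn (fun q => wgt k e (u q)) (Bc n 2) := (wgt_cont k e).comp_continuousOn cu
  have cip : ContinuousOn (fun p => ip G φ u p) (Bc n 2) :=
    fun p hp => (smooth_ip hD.met (hD.sub hp) hφ.contDiffAt
      (hD.smooth p (hD.sub hp))).continuousAt.continuousWithinAt
  have cexp2 : ContinuousOn (fun p => Real.exp (2 * u p)) (Bc n 2) :=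
    Real.continuous_exp.comp_continuousOn (continuousOn_const.mul cu)
  have c1 : ContinuousOn (fun p => chi k e (u p) * grG G u p ^ (n - 2) * ip G φ u p) (Bc n 2) :=
    (cchi.mul (cg.pow _)).mul cip
  have c2 : ContinuousOn (fun p => φ p * (wgt k e (u p) * grG G u p ^ n)) (Bc n 2) :=
    cφ.mul (cw.mul (cg.pow _))
  have c3 : ContinuousOn (fun p => φ p * chi k e (u p) *
      (grG G u p ^ (n - 2) * (lam * Real.exp (2 * u p) + K))) (Bc n 2) :=
    (cφ.mul cchi).mul ((cg.pow _).mul ((continuousOn_const.mul cexp2).add continuousOn_const))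
  have hI1 := integrable_of hD.met hD.sub c1
  have hI2 := integrable_of hD.met hD.sub c2
  have hI3 := integrable_of hD.met hD.sub c3
  rw [integral_congr_B hid, integral_sub hI1 hI2] at key
  -- first bound
  have hgr32 : ContinuousOn (fun p => 4 * e * (K * (c / (R - r))) * grG G u p ^ (n - 1))
      (Bc n 2) := continuousOn_const.mul (cg.pow _)
  have b1 : ∫ p, chi k e (u p) * grG G u p ^ (n - 2) * ip G φ u p ∂(mu n G) ≤
      4 * e * (K * (c / (R - r))) * H := by
    have h0 : ∀ p, p ∉ B n (3 / 2) →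
        chi k e (u p) * grG G u p ^ (n - 2) * ip G φ u p = 0 := by
      intro p hp
      have : ip G φ u p = 0 := by
        unfold ip
        refine Finset.sum_eq_zero fun i _ => Finset.sum_eq_zero fun j _ => ?_
        rw [pd_zero_off (fun hq => hp (hBR (hφt hq))) i, mul_zero, zero_mul]
      rw [this, mul_zero]
    rw [← setIntegral_eq_integral_of_forall_compl_eq_zero h0]
    have h1 : ∫ p in B n (3 / 2), chi k e (u p) * grG G u p ^ (n - 2) * ip G φ u p ∂(mu n G) ≤
        ∫ p in B n (3 / 2), 4 * e * (K * (c / (R - r))) * grG G u p ^ (n - 1) ∂(mu n G) := by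
      refine setIntegral_mono_on hI1.integrableOn
        (integrableOn_ofG hD.met hD.sub hgr32 _) (measurableSet_B _) fun p hp => ?_
      have hp2 : p ∈ B n 2 := hB32 hp
      have h3 : ip G φ u p ≤ K * (c / (R - r)) * grG G u p := by
        refine (le_abs_self _).trans ((abs_ip_le hD.met (hsmΩ p hp2) φ u).trans ?_)
        refine mul_le_mul_of_nonneg_right ((hD.grG_le hp2 φ).trans ?_) (grG_nonneg G u p)
        exact mul_le_mul_of_nonneg_left (hφg p) hK0
      have h4 : 0 ≤ chi k e (u p) * grG G u p ^ (n - 2) :=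
        mul_nonneg (chi_nonneg k he _) (pow_nonneg (grG_nonneg G u p) _)
      have h5 : 0 ≤ K * (c / (R - r)) * grG G u p :=
        mul_nonneg (mul_nonneg hK0 (div_nonneg (by linarith) hRr.le)) (grG_nonneg G u p)
      have h6 : grG G u p ^ (n - 1) = grG G u p ^ (n - 2) * grG G u p := by
        rw [← pow_succ]
        congr 1
        omega
      rw [h6]
      calc chi k e (u p) * grG G u p ^ (n - 2) * ip G φ u p
          ≤ chi k e (u p) * grG G u p ^ (n - 2) * (K * (c / (R - r)) * grG G u p) :=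
            mul_le_mul_of_nonneg_left h3 h4
        _ ≤ 4 * e * grG G u p ^ (n - 2) * (K * (c / (R - r)) * grG G u p) :=
            mul_le_mul_of_nonneg_right
              (mul_le_mul_of_nonneg_right (chi_le k he _) (pow_nonneg (grG_nonneg G u p) _)) h5
        _ = 4 * e * (K * (c / (R - r))) * (grG G u p ^ (n - 2) * grG G u p) := by ring
    refine h1.trans ?_
    rw [integral_const_mul]
    refine mul_le_mul_of_nonneg_left (hH hD hlam) ?_
    exact mul_nonneg (by linarith) (mul_nonneg hK0 (div_nonneg (by linarith) hRr.le))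
  -- second bound
  have hexp : ContinuousOn (fun p => Real.exp (2 * u p) * grG G u p ^ (n - 2)) (Bc n 2) :=
    cexp2.mul (cg.pow _)
  have hg2 : ContinuousOn (fun p => grG G u p ^ (n - 2)) (Bc n 2) := cg.pow _
  have hg1 : ContinuousOn (fun p => grG G u p ^ (n - 1)) (Bc n 2) := cg.pow _
  have jexp := integrableOn_ofG hD.met hD.sub hexp (B n R)
  have jg2 := integrableOn_ofG hD.met hD.sub hg2 (B n R)
  -- integral of the power n - 2
  have b5 : ∫ p in B n R, grG G u p ^ (n - 2) ∂(mu n G) ≤ K + H := by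
    have h1 : ∫ p in B n R, grG G u p ^ (n - 2) ∂(mu n G) ≤
        ∫ p in B n (3 / 2), grG G u p ^ (n - 2) ∂(mu n G) :=
      integral_mono_setG hD.met hD.sub hg2 hBR (measurableSet_B _)
        fun p _ => pow_nonneg (grG_nonneg G u p) _
    have h2 : ∫ p in B n (3 / 2), grG G u p ^ (n - 2) ∂(mu n G) ≤
        ∫ p in B n (3 / 2), (1 + grG G u p ^ (n - 1)) ∂(mu n G) := by
      refine setIntegral_mono_on (integrableOn_ofG hD.met hD.sub hg2 _)
        (integrableOn_ofG hD.met hD.sub (continuousOn_const.add hg1) _)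
        (measurableSet_B _) fun p _ => ?_
      have hg0 := grG_nonneg G u p
      rcases le_total (grG G u p) 1 with h | h
      · have e1 : grG G u p ^ (n - 2) ≤ 1 := pow_le_one₀ hg0 h
        have e2 : 0 ≤ grG G u p ^ (n - 1) := by positivity
        linarith
      · have e1 : grG G u p ^ (n - 2) ≤ grG G u p ^ (n - 1) :=
          pow_le_pow_right₀ h (by omega)
        linarith
    have h3 : ∫ p in B n (3 / 2), (1 + grG G u p ^ (n - 1)) ∂(mu n G) =
        (∫ p in B n (3 / 2), (1 : ℝ) ∂(mu n G)) +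
          ∫ p in B n (3 / 2), grG G u p ^ (n - 1) ∂(mu n G) :=
      integral_add (integrableOn_ofG hD.met hD.sub continuousOn_const _)
        (integrableOn_ofG hD.met hD.sub hg1 _)
    have h4 : ∫ p in B n (3 / 2), (1 : ℝ) ∂(mu n G) ≤ K := by
      have h5 : ∫ p in B n (3 / 2), (1 : ℝ) ∂(mu n G) ≤ ∫ p, (1 : ℝ) ∂(mu n G) :=
        setIntegral_le_integral (integrable_const _) (Eventually.of_forall fun p => zero_le_one)
      have h7 : ∫ p, (1 : ℝ) ∂(mu n G) = (mu n G).real Set.univ := by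
        rw [integral_const, smul_eq_mul, mul_one]
      exact (h5.trans h7.le).trans hD.mass
    have h6 := hH hD hlam
    linarith
  have hE0 : ∀ p, 0 ≤ lam * Real.exp (2 * u p) + K := fun p =>
    add_nonneg (mul_nonneg hD.lam0 (Real.exp_pos _).le) hK0
  have b2 : ∫ p, φ p * chi k e (u p) * (grG G u p ^ (n - 2) * (lam * Real.exp (2 * u p) + K))
      ∂(mu n G) ≤ 4 * e * (lam * (∫ p in B n R, Real.exp (2 * u p) * grG G u p ^ (n - 2) ∂(mu n G))
        + K * ∫ p in B n R, grG G u p ^ (n - 2) ∂(mu n G)) := by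
    have h0 : ∀ p, p ∉ B n R →
        φ p * chi k e (u p) * (grG G u p ^ (n - 2) * (lam * Real.exp (2 * u p) + K)) = 0 := by
      intro p hp
      rw [image_eq_zero_of_notMem_tsupport (fun hq => hp (hφt hq)), zero_mul, zero_mul]
    rw [← setIntegral_eq_integral_of_forall_compl_eq_zero h0, ← integral_const_mul,
      ← integral_const_mul, ← integral_add (jexp.const_mul _) (jg2.const_mul _),
      ← integral_const_mul]
    refine setIntegral_mono_on hI3.integrableOn
      (((jexp.const_mul _).add (jg2.const_mul _)).const_mul _) (measurableSet_B _) fun p _ => ?_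
    have h1 : φ p * chi k e (u p) ≤ 1 * (4 * e) :=
      mul_le_mul (hφ1 p) (chi_le k he _) (chi_nonneg k he _) zero_le_one
    have h2 : 0 ≤ grG G u p ^ (n - 2) * (lam * Real.exp (2 * u p) + K) :=
      mul_nonneg (pow_nonneg (grG_nonneg G u p) _) (hE0 p)
    calc φ p * chi k e (u p) * (grG G u p ^ (n - 2) * (lam * Real.exp (2 * u p) + K))
        ≤ 1 * (4 * e) * (grG G u p ^ (n - 2) * (lam * Real.exp (2 * u p) + K)) :=
          mul_le_mul_of_nonneg_right h1 h2
      _ = 4 * e * (lam * (Real.exp (2 * u p) * grG G u p ^ (n - 2)) +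
            K * grG G u p ^ (n - 2)) := by ring
  have hIR0 : 0 ≤ ∫ p in B n R, Real.exp (2 * u p) * grG G u p ^ (n - 2) ∂(mu n G) :=
    setIntegral_nonneg (measurableSet_B _) fun p _ =>
      mul_nonneg (Real.exp_pos _).le (pow_nonneg (grG_nonneg G u p) _)
  have b3 : ∫ p, φ p * chi k e (u p) * (grG G u p ^ (n - 2) * (lam * Real.exp (2 * u p) + K))
      ∂(mu n G) ≤ 4 * e * (|Lam| *
        (∫ p in B n R, Real.exp (2 * u p) * grG G u p ^ (n - 2) ∂(mu n G)) + K * (K + H)) := by
    refine b2.trans (mul_le_mul_of_nonneg_left (add_le_add ?_ ?_) (by linarith))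
    · exact mul_le_mul_of_nonneg_right (hlam.trans (le_abs_self _)) hIR0
    · exact mul_le_mul_of_nonneg_left b5 hK0
  -- left side
  have hBr : B n r ⊆ B n 2 := B_mono (by linarith) (by linarith)
  have hgn : ContinuousOn (fun p => grG G u p ^ n) (Bc n 2) := cg.pow _
  have b4 : 1 / 2 * ∫ p in B n r ∩ {p | k ≤ u p ∧ u p ≤ k + e}, grG G u p ^ n ∂(mu n G) ≤
      ∫ p, φ p * (wgt k e (u p) * grG G u p ^ n) ∂(mu n G) := by
    rw [← integral_const_mul]
    have h1 : ∫ p in B n r ∩ {p | k ≤ u p ∧ u p ≤ k + e}, 1 / 2 * grG G u p ^ n ∂(mu n G) ≤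
        ∫ p in B n r ∩ {p | k ≤ u p ∧ u p ≤ k + e},
          φ p * (wgt k e (u p) * grG G u p ^ n) ∂(mu n G) := by
      refine setIntegral_mono_on ((integrableOn_ofG hD.met hD.sub hgn _).const_mul _)
        hI2.integrableOn (meas_layer cu hBr k e) fun p hp => ?_
      rw [hφr p (B_subset_Bc r hp.1), one_mul]
      exact mul_le_mul_of_nonneg_right (wgt_half he hp.2.1 hp.2.2) (pow_nonneg (grG_nonneg G u p) _)
    refine h1.trans (setIntegral_le_integral hI2 (Eventually.of_forall fun p => ?_))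
    exact mul_nonneg (hφ0 p) (mul_nonneg (wgt_nonneg _ _ _) (pow_nonneg (grG_nonneg G u p) _))
  set I := ∫ p in B n R, Real.exp (2 * u p) * grG G u p ^ (n - 2) ∂(mu n G) with hI
  set J := ∫ p in B n r ∩ {p | k ≤ u p ∧ u p ≤ k + e}, grG G u p ^ n ∂(mu n G) with hJ
  have hfin : J ≤ 8 * e * (K * (c / (R - r)) * H + (|Lam| * I + K * (K + H))) := by linarith
  refine hfin.trans ?_
  have hx : 1 ≤ 1 / (R - r) := by
    rw [le_div_iff₀ hRr]
    linarith
  set x := 1 / (R - r) with hxdef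
  have e1 : K * (c / (R - r)) * H = K * c * H * x := by rw [hxdef]; ring
  have hcG : 0 ≤ K * c * H := mul_nonneg (mul_nonneg hK0 (by linarith)) (by linarith)
  have hKH : 0 ≤ K * (K + H) := mul_nonneg hK0 (by linarith)
  have hLa := abs_nonneg Lam
  rw [hKabs]
  have h1 : K * (c / (R - r)) * H + (|Lam| * I + K * (K + H)) ≤
      (K * c * H + |Lam| + K * (K + H)) * (x + I) := by
    rw [e1]
    have k1 : 0 ≤ K * c * H * I := mul_nonneg hcG hIR0
    have k2 : 0 ≤ |Lam| * x := mul_nonneg hLa (by linarith)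
    have k3 : K * (K + H) * 1 ≤ K * (K + H) * x := mul_le_mul_of_nonneg_left hx hKH
    have k4 : 0 ≤ K * (K + H) * I := mul_nonneg hKH hIR0
    nlinarith
  have h2 := mul_le_mul_of_nonneg_left h1 (by linarith : (0 : ℝ) ≤ 8 * e)
  have h3 : 0 ≤ e * (x + I) := mul_nonneg he.le (by linarith)
  nlinarith

end

end Pool.Agent.Helper50.CG
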