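import Pool.Agent.Helper50.CG.ScaleGA

/-! # CG-12b: normalisation by dilation and by a constant

`V = gvol (cmet u G) (eball a (2 r)) > 0`, `u' = rescG u a r V`, `G' = G ∘ aff a r`,
`c = r² V^(-2/n)`: `cmet u' G' x = c • cmet u G (aff a r x)`. `lam' = lam V^(2/n)`.
PROOF. Ricci lower bound for `cmet u' G'` by `ricci_aff`: both sides get the factor `r²`
(`lam' c = lam r²`). `Ric_{G'} = r² Ric_G ∘ aff ≤ K |v|² ≤ K² G'(v,v)` by hypothesis. `P1_cmet`,
`P2_cmet` with `R = K²`, `dual_of`, `dens_le` give the fields of `Core` with the constant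
`Kc n K = K^2 + K^n * vol (B n 2)`. Sobolev: for `f` on `B n 2` put `F y = f (r⁻¹ • (y - a))` and
use `integral_mu`, `dens_cmet`, `inv_cmet`, `integral_aff`; both sides are multiplied by the same
power of `V` (`(V⁻¹)^((n-2)/n)`). Volume: `V⁻¹ V = 1`. `scal_rescG`: `scal_cmet` for `u'`, `G'`,
`setIntegral_mu`, then `scal_aff` and `setIntegral_aff`. -/

namespace Pool.Agent.Helper50.CG

open scoped ContDiff Topology
open Pool.Agent.Helper49.Ric Pool.Agent.Helper73.HB Pool.Agent.Helper50.CF MeasureTheory Filter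

noncomputable section

variable {n : ℕ} {K S lam : ℝ} {Ω : Set (Fin n → ℝ)}
  {G : (Fin n → ℝ) → Matrix (Fin n) (Fin n) ℝ} {u : (Fin n → ℝ) → ℝ} {p : Fin n → ℝ}

/-- the normalised conformal factor -/
def rescG (u : (Fin n → ℝ) → ℝ) (a : Fin n → ℝ) (r V : ℝ) (x : Fin n → ℝ) : ℝ :=
  u (aff a r x) + Real.log r - Real.log V / n

/-- the constant of `Core` -/
def Kc (n : ℕ) (K : ℝ) : ℝ := K ^ 2 + K ^ n * volume.real (B n 2)

/-- the hypotheses on the background metric `G` on the ball `eball a (2 r)` -/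
structure BG (n : ℕ) (K : ℝ) (Ω : Set (Fin n → ℝ)) (G : (Fin n → ℝ) → Matrix (Fin n) (Fin n) ℝ)
    (a : Fin n → ℝ) (r : ℝ) : Prop where
  opn : IsOpen Ω
  met : IsMetricOn Ω G
  pos : 0 < r
  sub : ecball a (2 * r) ⊆ Ω
  low : ∀ p ∈ eball a (2 * r), ∀ v : Fin n → ℝ,
    ∑ i, v i ^ 2 ≤ K * ∑ i, ∑ j, G p i j * v i * v j
  up : ∀ p ∈ eball a (2 * r), ∀ v : Fin n → ℝ,
    ∑ i, ∑ j, G p i j * v i * v j ≤ K * ∑ i, v i ^ 2
  ric : ∀ p ∈ eball a (2 * r), ∀ v : Fin n → ℝ,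
    r ^ 2 * ∑ i, ∑ j, ricci G i j p * v i * v j ≤ K * ∑ i, v i ^ 2

theorem gvol_posG (hn : 3 ≤ n) {a : Fin n → ℝ} {r : ℝ} (hB : BG n K Ω G a r)
    (hu : ∀ p ∈ Ω, ContDiffAt ℝ ∞ u p) : 0 < gvol (cmet u G) (eball a (2 * r)) :=
  ScG.gvol_pos_aux hB.pos hB.met hB.sub hu

theorem core_resc (hn : 3 ≤ n) (hK : 1 ≤ K) {a : Fin n → ℝ} {r : ℝ} (hB : BG n K Ω G a r)
    (hu : ∀ p ∈ Ω, ContDiffAt ℝ ∞ u p) (hlam : 0 ≤ lam)
    (hR : ∀ p ∈ eball a (2 * r), ∀ v : Fin n → ℝ,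
      -lam * ∑ i, ∑ j, cmet u G p i j * v i * v j ≤
        ∑ i, ∑ j, ricci (cmet u G) i j p * v i * v j)
    (hS : Sobolev (cmet u G) (eball a (2 * r)) S) :
    Core n (Kc n K) (max S 1) (lam * gvol (cmet u G) (eball a (2 * r)) ^ (2 / n : ℝ))
      {x | aff a r x ∈ Ω} (fun x => G (aff a r x))
      (rescG u a r (gvol (cmet u G) (eball a (2 * r)))) := by
  have h := core_resc_aux hn hK hB.pos (gvol_posG hn hB hu) rfl rfl hB.opn hB.met hB.sub
    hB.low hB.up hB.ric hu hlam hR hS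
  have h1 : rescG u a r (gvol (cmet u G) (eball a (2 * r))) = fun x => u (aff a r x) +
      (Real.log r - Real.log (gvol (cmet u G) (eball a (2 * r))) / n) := by
    funext x
    unfold rescG
    ring
  rw [h1]
  exact h

theorem scal_bd (hn : 3 ≤ n) (hK : 1 ≤ K) {a : Fin n → ℝ} {r : ℝ} (hB : BG n K Ω G a r) :
    ∀ x ∈ B n 2, scal (fun x => G (aff a r x)) x ≤ n * K ^ 2 :=
  scal_bd_aux hK hB.pos hB.met hB.sub hB.low hB.ric

/-- the scalar curvature integral in the normalised picture -/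
theorem scal_rescG (hn : 3 ≤ n) {a : Fin n → ℝ} {r : ℝ} (hB : BG n K Ω G a r)
    (hu : ∀ p ∈ Ω, ContDiffAt ℝ ∞ u p) {V : ℝ} (hV : 0 < V) :
    ∫ x in B n 1, (scal (fun x => G (aff a r x)) x
        - 2 * ((n : ℝ) - 1) * lap (fun x => G (aff a r x)) (rescG u a r V) x
        - ((n : ℝ) - 1) * ((n : ℝ) - 2) *
          ip (fun x => G (aff a r x)) (rescG u a r V) (rescG u a r V) x)
        * Real.exp ((n - 2) * rescG u a r V x) ∂(mu n (fun x => G (aff a r x))) =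
      V ^ (-((n - 2) / n : ℝ)) *
        ∫ p in eball a r, scal (cmet u G) p * Real.sqrt (cmet u G p).det := by
  have h1 : rescG u a r V = fun x => u (aff a r x) + (Real.log r - Real.log V / n) := by
    funext x
    unfold rescG
    ring
  rw [h1]
  exact scal_resc_aux hn hB.pos hV rfl hB.opn hB.met hB.sub hu

end

end Pool.Agent.Helper50.CG
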