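import Pool.Agent.Helper50.CG.LastG
import Pool.Agent.Helper50.CG.ScaleG

/-! # Assembly -/

namespace Pool.Agent.Helper50.CG

open scoped ContDiff Topology
open Pool.Agent.Helper49.Ric Pool.Agent.Helper73.HB Pool.Agent.Helper50.CF MeasureTheory Filter

noncomputable section

theorem main {n : ℕ} (hn : 3 ≤ n) {K : ℝ} (hK : 1 ≤ K) (S Lam : ℝ) : ∃ C : ℝ,
    ∀ (Ω : Set (Fin n → ℝ)) (G : (Fin n → ℝ) → Matrix (Fin n) (Fin n) ℝ)
      (u : (Fin n → ℝ) → ℝ) (a : Fin n → ℝ) (r lam : ℝ),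
      IsOpen Ω → IsMetricOn Ω G → (∀ p ∈ Ω, ContDiffAt ℝ ∞ u p) → 0 < r →
      ecball a (2 * r) ⊆ Ω →
      (∀ p ∈ eball a (2 * r), ∀ v : Fin n → ℝ,
        ∑ i, v i ^ 2 ≤ K * ∑ i, ∑ j, G p i j * v i * v j) →
      (∀ p ∈ eball a (2 * r), ∀ v : Fin n → ℝ,
        ∑ i, ∑ j, G p i j * v i * v j ≤ K * ∑ i, v i ^ 2) →
      (∀ p ∈ eball a (2 * r), ∀ v : Fin n → ℝ,
        r ^ 2 * ∑ i, ∑ j, ricci G i j p * v i * v j ≤ K * ∑ i, v i ^ 2) →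
      0 ≤ lam →
      (∀ p ∈ eball a (2 * r), ∀ v : Fin n → ℝ,
        -lam * ∑ i, ∑ j, cmet u G p i j * v i * v j ≤
          ∑ i, ∑ j, ricci (cmet u G) i j p * v i * v j) →
      Sobolev (cmet u G) (eball a (2 * r)) S →
      lam * gvol (cmet u G) (eball a (2 * r)) ^ (2 / n : ℝ) ≤ Lam →
      ∫ p in eball a r, scal (cmet u G) p * Real.sqrt (cmet u G p).det ≤
        C * gvol (cmet u G) (eball a (2 * r)) ^ ((n - 2) / n : ℝ) := by
  obtain ⟨C, hC, H⟩ := exists_lastG n (Kc n K) (max S 1) Lam (n * K ^ 2)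
  refine ⟨C, fun Ω G u a r lam hΩ hG hu hr hs hlow hup hric hlam hR hS hL => ?_⟩
  have hB : BG n K Ω G a r := ⟨hΩ, hG, hr, hs, hlow, hup, hric⟩
  have hV := gvol_posG hn hB hu
  have h1 := H (core_resc hn hK hB hu hlam hR hS) hL (by positivity) (scal_bd hn hK hB)
  rw [scal_rescG hn hB hu hV] at h1
  rw [Real.rpow_neg hV.le, inv_mul_le_iff₀ (Real.rpow_pos_of_pos hV _)] at h1
  rw [mul_comm]
  exact h1

end

end Pool.Agent.Helper50.CG
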