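import Pool.Agent.Helper50.CG.LayerG
import Pool.Agent.Helper50.CG.SumG
import Pool.Agent.Helper50.CF.Outer

/-! # CG-10: the iteration over the radii (port of `CF/Outer.lean`) -/

namespace Pool.Agent.Helper50.CG

open scoped ContDiff Topology
open Pool.Agent.Helper49.Ric Pool.Agent.Helper73.HB Pool.Agent.Helper50.CF MeasureTheory Filter

noncomputable section

variable {n : ℕ} {K S lam : ℝ} {Ω : Set (Fin n → ℝ)}
  {G : (Fin n → ℝ) → Matrix (Fin n) (Fin n) ℝ} {u : (Fin n → ℝ) → ℝ} {p : Fin n → ℝ}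

/-- continuity of the integrands -/
theorem Core.cEG (h : Core n K S lam Ω G u) (a b : ℕ) :
    ContinuousOn (fun p => Real.exp (a * u p) * grG G u p ^ b) (Bc n 2) := by
  have h1 := h.cu
  have h2 := h.cgr
  exact ((continuousOn_const.mul h1).rexp).mul (h2.pow b)

/-- one step: the integral with exponent `a` on `B n r` in terms of a number `D` controlling the
layers on `B n m` -/
theorem step_aG (n : ℕ) (K₀ S Lam : ℝ) : ∃ K : ℝ, 1 ≤ K ∧
    ∀ {lam : ℝ} {Ω : Set (Fin n → ℝ)} {G : (Fin n → ℝ) → Matrix (Fin n) (Fin n) ℝ}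
      {u : (Fin n → ℝ) → ℝ}, Core n K₀ S lam Ω G u → lam ≤ Lam →
      ∀ r R : ℝ, 1 ≤ r → r < R → R ≤ 3 / 2 → ∀ a : ℕ, 1 ≤ a → a < n →
        ∃ h : ℝ, 1 ≤ h ∧
          h ^ (n - 1) = K * (2 / (R - r)
            + ∫ p in B n R, Real.exp (2 * u p) * grG G u p ^ (n - 2) ∂(mu n G)) ∧
          ∫ p in B n r, Real.exp (a * u p) * grG G u p ^ (n - a) ∂(mu n G) ≤
            K * (1 / (R - r)) ^ a + K * h ^ (n - a) := by
  obtain ⟨CG, hCG, HG⟩ := exists_GG n K₀ Lam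
  obtain ⟨CL, hCL, HL⟩ := exists_layerG n K₀ Lam
  obtain ⟨KS, hKS, HS⟩ := exists_sumG n K₀ S
  have hKS0 : 0 < KS := by linarith
  have hCL0 : 0 < CL := by linarith
  refine ⟨KS * CL * (2 ^ n * (1 + CG)), ?_, ?_⟩
  · have h1 : (1 : ℝ) ≤ 2 ^ n := one_le_pow₀ (by norm_num)
    have h2 : (1 : ℝ) ≤ KS * CL := by nlinarith
    have h3 : (1 : ℝ) ≤ 2 ^ n * (1 + CG) := by nlinarith
    nlinarith
  intro lam Ω G u H hlam r R hr hrR hR a ha han
  have hn := H.hn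
  set K := KS * CL * (2 ^ n * (1 + CG)) with hK
  set MR := ∫ p in B n R, Real.exp (2 * u p) * grG G u p ^ (n - 2) ∂(mu n G) with hMR
  have hMR0 : 0 ≤ MR := setIntegral_nonneg (measurableSet_B R) fun p _ =>
    mul_nonneg (Real.exp_pos _).le (pow_nonneg (grG_nonneg G u p) _)
  have hd : 0 < R - r := by linarith
  have hd1 : R - r ≤ 1 := by linarith
  have h2d : 2 ≤ 2 / (R - r) := by
    rw [le_div_iff₀ hd]; linarith
  have hK1 : KS * CL ≤ K := by
    have h1 : (1 : ℝ) ≤ 2 ^ n := one_le_pow₀ (by norm_num)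
    have h3 : (1 : ℝ) ≤ 2 ^ n * (1 + CG) := by nlinarith
    have h4 : 0 < KS * CL := by positivity
    calc KS * CL = KS * CL * 1 := (mul_one _).symm
      _ ≤ K := mul_le_mul_of_nonneg_left h3 h4.le
  have hK0 : 1 ≤ KS * CL := by nlinarith
  have hX : 1 ≤ K * (2 / (R - r) + MR) := by nlinarith
  obtain ⟨h, hh1, hh⟩ := choose_h hn hX
  have hh0 : 0 < h := by linarith
  refine ⟨h, hh1, hh, ?_⟩
  have hlay : ∀ k : ℝ, ∫ p in B n ((r + R) / 2) ∩ {p | k ≤ u p ∧ u p ≤ k + h},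
      grG G u p ^ n ∂(mu n G) ≤ h ^ n / KS := by
    intro k
    have h1 := HL H hlam ((r + R) / 2) R (by linarith) (by linarith) hR k h hh0
    refine h1.trans ?_
    have e1 : 1 / (R - (r + R) / 2) = 2 / (R - r) := by
      have h5 : R - (r + R) / 2 = (R - r) / 2 := by ring
      rw [h5, one_div_div]
    rw [e1, ← hMR, le_div_iff₀ hKS0]
    have e2 : h ^ n = h * h ^ (n - 1) := by
      rw [← pow_succ']; congr 1; omega
    rw [e2, hh]
    have h3 : 0 ≤ 2 / (R - r) + MR := by linarith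
    have h4 : KS * CL * (2 / (R - r) + MR) ≤ K * (2 / (R - r) + MR) :=
      mul_le_mul_of_nonneg_right hK1 h3
    calc h * (CL * (2 / (R - r) + MR)) * KS = h * (KS * CL * (2 / (R - r) + MR)) := by ring
      _ ≤ h * (K * (2 / (R - r) + MR)) := mul_le_mul_of_nonneg_left h4 hh0.le
  have h1 := HS H r ((r + R) / 2) hr (by linarith) (by linarith) h hh1 hlay a ha han
  refine h1.trans ?_
  have hG := HG H hlam
  have hG0 : 0 ≤ ∫ p in B n (3 / 2), grG G u p ^ (n - 1) ∂(mu n G) :=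
    setIntegral_nonneg (measurableSet_B _) fun p _ => pow_nonneg (grG_nonneg G u p) _
  have e1 : 1 / ((r + R) / 2 - r) = 2 * (1 / (R - r)) := by
    have : R - r ≠ 0 := hd.ne'
    have h5 : (r + R) / 2 - r = (R - r) / 2 := by ring
    rw [h5]; field_simp
  rw [e1, mul_pow]
  have h1d : 1 ≤ 1 / (R - r) := by
    rw [le_div_iff₀ hd]; linarith
  have h6 : (2 : ℝ) ^ a ≤ 2 ^ n := pow_le_pow_right₀ (by norm_num) han.le
  have h7 : KS ≤ KS * CL := by nlinarith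
  have h8 : (2 : ℝ) ^ a * (1 / (R - r)) ^ a ≤ 2 ^ n * (1 / (R - r)) ^ a :=
    mul_le_mul_of_nonneg_right h6 (by positivity)
  have h9 : KS * (2 ^ a * (1 / (R - r)) ^ a) *
      (1 + ∫ p in B n (3 / 2), grG G u p ^ (n - 1) ∂(mu n G)) ≤
      (KS * CL) * (2 ^ n * (1 / (R - r)) ^ a) * (1 + CG) := by
    apply mul_le_mul _ (by linarith) (by linarith) (by positivity)
    exact mul_le_mul h7 h8 (by positivity) (by positivity)
  have h10 : KS * h ^ (n - a) ≤ K * h ^ (n - a) :=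
    mul_le_mul_of_nonneg_right (h7.trans hK1) (by positivity)
  calc KS * (2 ^ a * (1 / (R - r)) ^ a) * (1 + ∫ p in B n (3 / 2), grG G u p ^ (n - 1) ∂(mu n G))
        + KS * h ^ (n - a)
      ≤ (KS * CL) * (2 ^ n * (1 / (R - r)) ^ a) * (1 + CG) + K * h ^ (n - a) := by linarith
    _ = K * (1 / (R - r)) ^ a + K * h ^ (n - a) := by rw [hK]; ring

theorem exists_MG (n : ℕ) (K₀ S Lam : ℝ) : ∃ C : ℝ, 1 ≤ C ∧
    ∀ {lam : ℝ} {Ω : Set (Fin n → ℝ)} {G : (Fin n → ℝ) → Matrix (Fin n) (Fin n) ℝ}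
      {u : (Fin n → ℝ) → ℝ}, Core n K₀ S lam Ω G u → lam ≤ Lam →
      ∫ p in B n (5 / 4), Real.exp (2 * u p) * grG G u p ^ (n - 2) ∂(mu n G) ≤ C := by
  obtain ⟨K, hK, HK⟩ := step_aG n K₀ S Lam
  have hK0 : 0 < K := by linarith
  set ε : ℝ := 1 / (8 * K ^ 2) with hε
  have hε0 : 0 < ε := by positivity
  set K' : ℝ := K + 1 / 4 + K * (1 / ε) ^ (n - 2) with hK'
  have hK'1 : 1 ≤ K' := by
    have h1 : 0 ≤ K * (1 / ε) ^ (n - 2) := by positivity
    rw [hK']; linarith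
  refine ⟨128 * K', by linarith, ?_⟩
  intro lam Ω G u H hlam
  have hn := H.hn
  have hnn : ∀ r, ∀ p ∈ B n r, 0 ≤ Real.exp (2 * u p) * grG G u p ^ (n - 2) := fun r p _ =>
    mul_nonneg (Real.exp_pos _).le (pow_nonneg (grG_nonneg G u p) _)
  have hc : ContinuousOn (fun p => Real.exp (2 * u p) * grG G u p ^ (n - 2)) (Bc n 2) := by
    have := H.cEG 2 (n - 2)
    simpa using this
  refine iter_lemma (f := fun r => ∫ p in B n r, Real.exp (2 * u p) * grG G u p ^ (n - 2) ∂(mu n G))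
    (M := ∫ p in B n 2, Real.exp (2 * u p) * grG G u p ^ (n - 2) ∂(mu n G)) (by linarith) ?_ ?_
  · intro r hr1 hr2
    exact integral_mono_setG H.met H.sub hc (B_mono (by linarith) (by linarith))
      (measurableSet_B 2) (hnn 2)
  · intro r R hr hrR hR
    have hd : 0 < R - r := by linarith
    have hd1 : R - r ≤ 1 / 4 := by linarith
    obtain ⟨h, hh1, hh, hle⟩ := HK H hlam r R (by linarith) hrR hR 2 (by norm_num) (by omega)
    have e0 : ∀ p, ((2 : ℕ) : ℝ) * u p = 2 * u p := fun p => by push_cast; ring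
    simp only [e0] at hle
    set MR := ∫ p in B n R, Real.exp (2 * u p) * grG G u p ^ (n - 2) ∂(mu n G) with hMR
    have hMR0 : 0 ≤ MR := setIntegral_nonneg (measurableSet_B R) (hnn R)
    have hy := young_h (m := n - 2) (h := h) (ε := ε) (by linarith) hε0
    have e1 : n - 2 + 1 = n - 1 := by omega
    rw [e1, hh] at hy
    have h2 : K * h ^ (n - 2) ≤ K * (ε * (K * (2 / (R - r) + MR)) + (1 / ε) ^ (n - 2)) :=
      mul_le_mul_of_nonneg_left hy hK0.le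
    have e2 : K * (ε * (K * (2 / (R - r) + MR)) + (1 / ε) ^ (n - 2)) =
        1 / 8 * MR + 1 / 4 * (1 / (R - r)) + K * (1 / ε) ^ (n - 2) := by
      have h3 : K * ε * K = 1 / 8 := by
        rw [hε]; field_simp
      calc K * (ε * (K * (2 / (R - r) + MR)) + (1 / ε) ^ (n - 2))
          = (K * ε * K) * (2 / (R - r) + MR) + K * (1 / ε) ^ (n - 2) := by ring
        _ = _ := by rw [h3]; ring
    have h1d : 1 ≤ 1 / (R - r) := by
      rw [le_div_iff₀ hd]; linarith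
    have h4 : 1 / (R - r) ≤ (1 / (R - r)) ^ 2 := by nlinarith
    have h5 : 1 ≤ (1 / (R - r)) ^ 2 := by nlinarith
    have h6 : K * (1 / ε) ^ (n - 2) ≤ K * (1 / ε) ^ (n - 2) * (1 / (R - r)) ^ 2 :=
      le_mul_of_one_le_right (by positivity) h5
    have e3 : K' / (R - r) ^ 2 = K' * (1 / (R - r)) ^ 2 := by
      rw [one_div, inv_pow]; rfl
    show ∫ p in B n r, Real.exp (2 * u p) * grG G u p ^ (n - 2) ∂(mu n G) ≤
      1 / 8 * MR + K' / (R - r) ^ 2
    rw [e3]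
    calc ∫ p in B n r, Real.exp (2 * u p) * grG G u p ^ (n - 2) ∂(mu n G)
        ≤ K * (1 / (R - r)) ^ 2 + K * h ^ (n - 2) := hle
      _ ≤ K * (1 / (R - r)) ^ 2 + (1 / 8 * MR + 1 / 4 * (1 / (R - r))
          + K * (1 / ε) ^ (n - 2)) := by linarith
      _ ≤ K * (1 / (R - r)) ^ 2 + (1 / 8 * MR + 1 / 4 * (1 / (R - r)) ^ 2
          + K * (1 / ε) ^ (n - 2) * (1 / (R - r)) ^ 2) := by linarith
      _ = 1 / 8 * MR + K' * (1 / (R - r)) ^ 2 := by rw [hK']; ring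

theorem exists_EG (n : ℕ) (K₀ S Lam : ℝ) : ∃ C : ℝ, 1 ≤ C ∧
    ∀ {lam : ℝ} {Ω : Set (Fin n → ℝ)} {G : (Fin n → ℝ) → Matrix (Fin n) (Fin n) ℝ}
      {u : (Fin n → ℝ) → ℝ}, Core n K₀ S lam Ω G u → lam ≤ Lam →
      ∫ p in B n (9 / 8), Real.exp ((n - 2) * u p) * grG G u p ^ 2 ∂(mu n G) ≤ C := by
  obtain ⟨K, hK, HK⟩ := step_aG n K₀ S Lam
  obtain ⟨CM, hCM, HM⟩ := exists_MG n K₀ S Lam
  have hK0 : 0 < K := by linarith
  set X : ℝ := K * (16 + CM) with hX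
  have hX1 : 1 ≤ X := by nlinarith
  refine ⟨K * 8 ^ n + K * X ^ 2, ?_, ?_⟩
  · have h1 : (1 : ℝ) ≤ 8 ^ n := one_le_pow₀ (by norm_num)
    have h2 : (0 : ℝ) ≤ K * X ^ 2 := by positivity
    nlinarith
  intro lam Ω G u H hlam
  have hn := H.hn
  obtain ⟨h, hh1, hh, hle⟩ := HK H hlam (9 / 8) (5 / 4) (by norm_num) (by norm_num) (by norm_num)
    (n - 2) (by omega) (by omega)
  have e0 : ∀ p, ((n - 2 : ℕ) : ℝ) * u p = (n - 2) * u p := fun p => by
    rw [Nat.cast_sub (by omega)]; push_cast; ring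
  have e1 : n - (n - 2) = 2 := by omega
  simp only [e0] at hle
  rw [e1] at hle
  refine hle.trans ?_
  have e2 : (1 / (5 / 4 - 9 / 8) : ℝ) = 8 := by norm_num
  have e3 : (2 / (5 / 4 - 9 / 8) : ℝ) = 16 := by norm_num
  rw [e2]
  rw [e3] at hh
  have hM := HM H hlam
  have h3 : h ^ (n - 1) ≤ X := by
    rw [hh, hX]
    exact mul_le_mul_of_nonneg_left (by linarith) hK0.le
  have h4 : h ≤ h ^ (n - 1) := le_self_pow₀ hh1 (by omega)
  have h5 : h ^ 2 ≤ X ^ 2 := pow_le_pow_left₀ (by linarith) (h4.trans h3) 2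
  have h6 : (8 : ℝ) ^ (n - 2) ≤ 8 ^ n := pow_le_pow_right₀ (by norm_num) (by omega)
  have h7 : K * 8 ^ (n - 2) ≤ K * 8 ^ n := mul_le_mul_of_nonneg_left h6 hK0.le
  have h8 : K * h ^ 2 ≤ K * X ^ 2 := mul_le_mul_of_nonneg_left h5 hK0.le
  linarith

end

end Pool.Agent.Helper50.CG
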