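import Pool.Agent.Helper50.CG.ScaleGB

/-! # CG-12c: the scalar curvature in the normalised picture (the other half of `ScaleG.lean`) -/

namespace Pool.Agent.Helper50.CG

open scoped ContDiff Topology
open Pool.Agent.Helper49.Ric Pool.Agent.Helper73.HB Pool.Agent.Helper50.CF MeasureTheory Filter

noncomputable section

variable {n : ℕ} {K S lam : ℝ} {Ω : Set (Fin n → ℝ)}
  {G : (Fin n → ℝ) → Matrix (Fin n) (Fin n) ℝ} {u : (Fin n → ℝ) → ℝ} {p : Fin n → ℝ}

open ScG

theorem scal_bd_aux (hK : 1 ≤ K) {a : Fin n → ℝ} {r : ℝ} (hr : 0 < r) (hG : IsMetricOn Ω G)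
    (hs : ecball a (2 * r) ⊆ Ω)
    (hlow : ∀ p ∈ eball a (2 * r), ∀ v : Fin n → ℝ,
      ∑ i, v i ^ 2 ≤ K * ∑ i, ∑ j, G p i j * v i * v j)
    (hric : ∀ p ∈ eball a (2 * r), ∀ v : Fin n → ℝ,
      r ^ 2 * ∑ i, ∑ j, ricci G i j p * v i * v j ≤ K * ∑ i, v i ^ 2) :
    ∀ x ∈ B n 2, scal (fun x => G (aff a r x)) x ≤ n * K ^ 2 := by
  intro x hx
  have hK0 : (0 : ℝ) ≤ K := by linarith
  have hG' : IsMetricOn {x | aff a r x ∈ Ω} (fun x => G (aff a r x)) := isMetricOn_aff hr hG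
  have hxm : x ∈ {x | aff a r x ∈ Ω} := hs ((mem_ec hr x).mpr (B_subset_Bc 2 hx))
  refine scal_upper hG' hxm fun v => ?_
  have he := (mem_e (a := a) hr x).mpr hx
  have h0 : ∀ i j, ricci (fun x => G (aff a r x)) i j x = r ^ 2 * ricci G i j (aff a r x) := by
    intro i j
    have := ricci_aff a r (one_ne_zero) G x i j
    simpa only [one_smul] using this
  have h1 : ∑ i, ∑ j, ricci (fun x => G (aff a r x)) i j x * v i * v j =
      r ^ 2 * ∑ i, ∑ j, ricci G i j (aff a r x) * v i * v j := by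
    rw [Finset.mul_sum]
    refine Finset.sum_congr rfl fun i _ => ?_
    rw [Finset.mul_sum]
    refine Finset.sum_congr rfl fun j _ => ?_
    rw [h0]
    ring
  rw [h1]
  refine (hric _ he v).trans ?_
  have h2 := mul_le_mul_of_nonneg_left (hlow _ he v) hK0
  calc K * ∑ i, v i ^ 2 ≤ K * (K * ∑ i, ∑ j, G (aff a r x) i j * v i * v j) := h2
    _ = _ := by ring

theorem scal_resc_aux (hn : 3 ≤ n) {a : Fin n → ℝ} {r c V : ℝ} (hr : 0 < r) (hV : 0 < V)
    (hc : c = Real.log r - Real.log V / n) (hΩ : IsOpen Ω) (hG : IsMetricOn Ω G)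
    (hs : ecball a (2 * r) ⊆ Ω) (hu : ∀ p ∈ Ω, ContDiffAt ℝ ∞ u p) :
    ∫ x in B n 1, (scal (fun x => G (aff a r x)) x
        - 2 * ((n : ℝ) - 1) * lap (fun x => G (aff a r x)) (fun x => u (aff a r x) + c) x
        - ((n : ℝ) - 1) * ((n : ℝ) - 2) *
          ip (fun x => G (aff a r x)) (fun x => u (aff a r x) + c)
            (fun x => u (aff a r x) + c) x)
        * Real.exp ((n - 2) * (u (aff a r x) + c)) ∂(mu n (fun x => G (aff a r x))) =
      V ^ (-((n - 2) / n : ℝ)) *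
        ∫ p in eball a r, scal (cmet u G) p * Real.sqrt (cmet u G p).det := by
  have hn0 : (0 : ℝ) < n := by
    have : (3 : ℝ) ≤ n := by exact_mod_cast hn
    linarith
  have hexp : ∀ s : ℝ, Real.exp (s * c) = r ^ s * V ^ (-(s / n)) := by
    intro s
    rw [Real.rpow_def_of_pos hr, Real.rpow_def_of_pos hV, ← Real.exp_add, hc]
    congr 1
    field_simp
    ring
  have hB12 : B n 1 ⊆ B n 2 := fun x hx => by
    have h1 : ∑ i, x i ^ 2 < 1 ^ 2 := hx
    have h2 : ∑ i, x i ^ 2 < 2 ^ 2 := by linarith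
    exact h2
  have hsubc : Bc n 2 ⊆ {x | aff a r x ∈ Ω} := fun x hx => hs ((mem_ec hr x).mpr hx)
  have hΩ' : IsOpen {x | aff a r x ∈ Ω} := hΩ.preimage (cont_aff a r)
  have hG' : IsMetricOn {x | aff a r x ∈ Ω} (fun x => G (aff a r x)) := isMetricOn_aff hr hG
  have hu' : ∀ x ∈ {x | aff a r x ∈ Ω}, ContDiffAt ℝ ∞ (fun x => u (aff a r x) + c) x := by
    intro x hx
    refine ContDiffAt.add ?_ contDiffAt_const
    refine ContDiffAt.comp x (g := u) (hu _ hx) ?_
    unfold aff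
    fun_prop
  have hcm : cmet (fun x => u (aff a r x) + c) (fun x => G (aff a r x)) =
      fun y => Real.exp (2 * c) • cmet u G (aff a r y) := by
    funext y
    unfold cmet
    rw [smul_smul, ← Real.exp_add]
    congr 2
    ring
  obtain ⟨H, hH⟩ : ∃ H : (Fin n → ℝ) → ℝ,
      H = fun y => scal (cmet u G) y * Real.sqrt (cmet u G y).det := ⟨_, rfl⟩
  have key : ∀ x ∈ B n 1, dens (fun x => G (aff a r x)) x *
      ((scal (fun x => G (aff a r x)) x
        - 2 * ((n : ℝ) - 1) * lap (fun x => G (aff a r x)) (fun x => u (aff a r x) + c) x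
        - ((n : ℝ) - 1) * ((n : ℝ) - 2) *
          ip (fun x => G (aff a r x)) (fun x => u (aff a r x) + c)
            (fun x => u (aff a r x) + c) x)
        * Real.exp ((n - 2) * (u (aff a r x) + c))) =
      Real.exp (((n : ℝ) - 2) * c) * r ^ 2 * H (aff a r x) := by
    intro x hx
    have hxm : x ∈ {x | aff a r x ∈ Ω} := hsubc (B_subset_Bc 2 (hB12 hx))
    have h1 := scal_cmet hΩ' hG' hu' hxm
    rw [← h1, dens_cmet hG' hxm, hcm, scal_aff a r (Real.exp_pos _).ne' (cmet u G) x, hH]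
    simp only []
    rw [dens_cmet hG hxm]
    have h2 : Real.exp (n * (u (aff a r x) + c)) = Real.exp (((n : ℝ) - 2) * c) *
        Real.exp (2 * c) * Real.exp (n * u (aff a r x)) := by
      rw [← Real.exp_add, ← Real.exp_add]
      congr 1
      ring
    rw [h2]
    have h3 : dens (fun x => G (aff a r x)) x = dens G (aff a r x) := rfl
    have h4 : Real.exp (2 * c) ≠ 0 := (Real.exp_pos _).ne'
    rw [h3]
    field_simp
  rw [setIntegral_mu hG' hsubc _ hB12 (measurableSet_B 1),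
    setIntegral_congr_fun (measurableSet_B 1) key, integral_const_mul,
    setIntegral_aff hr zero_le_one H, mul_one, hexp, hH]
  have h2 : r ^ ((n : ℝ) - 2) * r ^ 2 = r ^ n := by
    rw [← Real.rpow_natCast r 2, ← Real.rpow_add hr, ← Real.rpow_natCast r n]
    congr 1
    push_cast
    ring
  have h3 : r ^ n ≠ 0 := (pow_pos hr n).ne'
  calc r ^ ((n : ℝ) - 2) * V ^ (-(((n : ℝ) - 2) / n)) * r ^ 2 *
        ((r ^ n)⁻¹ * ∫ y in eball a r, scal (cmet u G) y * Real.sqrt (cmet u G y).det)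
      = (r ^ ((n : ℝ) - 2) * r ^ 2) * (r ^ n)⁻¹ * (V ^ (-(((n : ℝ) - 2) / n)) *
        ∫ y in eball a r, scal (cmet u G) y * Real.sqrt (cmet u G y).det) := by ring
    _ = _ := by rw [h2, mul_inv_cancel₀ h3, one_mul]

end

end Pool.Agent.Helper50.CG
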