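import Pool.Agent.Helper50.CG.ConfP
import Pool.Agent.Helper50.CG.Affine

/-! # CG-12b: the normalised data (the half `core_resc` of `ScaleG.lean`) -/

namespace Pool.Agent.Helper50.CG

open scoped ContDiff Topology
open Pool.Agent.Helper49.Ric Pool.Agent.Helper73.HB Pool.Agent.Helper50.CF MeasureTheory Filter

noncomputable section

variable {n : ℕ} {K S lam : ℝ} {Ω : Set (Fin n → ℝ)}
  {G : (Fin n → ℝ) → Matrix (Fin n) (Fin n) ℝ} {u : (Fin n → ℝ) → ℝ} {p : Fin n → ℝ}

namespace ScG

theorem eball_subset_ecball (a : Fin n → ℝ) (r : ℝ) : eball a r ⊆ ecball a r := fun p hp => by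
  have h : ∑ i, (p i - a i) ^ 2 < r ^ 2 := hp
  exact h.le

theorem isOpen_eball (a : Fin n → ℝ) (r : ℝ) : IsOpen (eball a r) := by
  unfold eball
  exact isOpen_lt (by fun_prop) continuous_const

theorem cont_aff (a : Fin n → ℝ) (r : ℝ) : Continuous (aff a r) := by
  unfold aff
  fun_prop

theorem mem_e {a : Fin n → ℝ} {r : ℝ} (hr : 0 < r) (x : Fin n → ℝ) :
    aff a r x ∈ eball a (2 * r) ↔ x ∈ B n 2 := by
  rw [mul_comm 2 r]
  exact mem_eball_aff hr (by norm_num) x

theorem mem_ec {a : Fin n → ℝ} {r : ℝ} (hr : 0 < r) (x : Fin n → ℝ) :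
    aff a r x ∈ ecball a (2 * r) ↔ x ∈ Bc n 2 := by
  rw [mul_comm 2 r]
  exact mem_ecball_aff hr (by norm_num) x

/-- positivity of the volume -/
theorem gvol_pos_aux {a : Fin n → ℝ} {r : ℝ} (hr : 0 < r) (hG : IsMetricOn Ω G)
    (hs : ecball a (2 * r) ⊆ Ω) (hu : ∀ p ∈ Ω, ContDiffAt ℝ ∞ u p) :
    0 < gvol (cmet u G) (eball a (2 * r)) := by
  have hcont : ContinuousOn (fun p => Real.exp (n * u p) * dens G p) (ecball a (2 * r)) := by
    intro p hp
    have h1 : ContinuousAt (fun p => Real.exp (n * u p)) p := by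
      have := (hu p (hs hp)).continuousAt
      exact (Real.continuous_exp.continuousAt).comp (continuousAt_const.mul this)
    exact (h1.mul (smooth_dens hG (hs hp)).continuousAt).continuousWithinAt
  have hcomp : IsCompact (ecball a (2 * r)) := by
    have h1 : ecball a (2 * r) = aff a r '' (Bc n 2) := by
      ext y
      constructor
      · intro hy
        refine ⟨r⁻¹ • (y - a), ?_, ?_⟩
        · rw [← mem_ec (a := a) hr]
          have : aff a r (r⁻¹ • (y - a)) = y := by
            unfold aff
            rw [smul_smul, mul_inv_cancel₀ hr.ne', one_smul]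
            abel
          rw [this]
          exact hy
        · unfold aff
          rw [smul_smul, mul_inv_cancel₀ hr.ne', one_smul]
          abel
      · rintro ⟨x, hx, rfl⟩
        exact (mem_ec hr x).mpr hx
    rw [h1]
    exact (isCompact_Bc 2).image (cont_aff a r)
  have hint : IntegrableOn (fun p => Real.exp (n * u p) * dens G p) (eball a (2 * r)) :=
    (hcont.integrableOn_compact hcomp).mono_set (eball_subset_ecball a _)
  have hme : MeasurableSet (eball a (2 * r)) := (isOpen_eball a _).measurableSet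
  have h2 : gvol (cmet u G) (eball a (2 * r)) =
      ∫ p in eball a (2 * r), Real.exp (n * u p) * dens G p := by
    unfold gvol
    refine setIntegral_congr_fun hme fun p hp => ?_
    exact dens_cmet hG (hs (eball_subset_ecball a _ hp))
  have hpos : ∀ p ∈ eball a (2 * r), 0 < Real.exp (n * u p) * dens G p := fun p hp =>
    mul_pos (Real.exp_pos _) (dens_pos hG (hs (eball_subset_ecball a _ hp)))
  rw [h2]
  rw [setIntegral_pos_iff_support_of_nonneg_ae ?_ hint]
  · have h3 : (Function.support fun p => Real.exp (n * u p) * dens G p) ∩ eball a (2 * r) =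
        eball a (2 * r) := by
      refine Set.inter_eq_right.mpr fun p hp => (hpos p hp).ne'
    rw [h3]
    refine (isOpen_eball a _).measure_pos _ ⟨a, ?_⟩
    change ∑ i : Fin n, (a i - a i) ^ 2 < (2 * r) ^ 2
    simp only [sub_self]
    have : ∑ _i : Fin n, (0 : ℝ) ^ 2 = 0 := by simp
    rw [this]
    positivity
  · filter_upwards [ae_restrict_mem hme] with p hp
    exact (hpos p hp).le

theorem pd_aff1 (a : Fin n → ℝ) (r : ℝ) (F : (Fin n → ℝ) → ℝ) (x : Fin n → ℝ) (i : Fin n) :
    pd i (fun y => F (aff a r y)) x = r * pd i F (aff a r x) := by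
  have h := pd_aff a r 1 F x i
  simpa only [one_mul] using h

theorem pd_zero_of {f : (Fin n → ℝ) → ℝ} {x : Fin n → ℝ} (hx : x ∉ tsupport f) (i : Fin n) :
    pd i f x = 0 := by
  have h1 : f =ᶠ[𝓝 x] fun _ => 0 := notMem_tsupport_iff_eventuallyEq.mp hx
  unfold pd lineDeriv
  have h2 : (fun t : ℝ => f (x + t • (Pi.single i 1 : Fin n → ℝ))) =ᶠ[𝓝 0] fun _ => 0 := by
    have h3 : Tendsto (fun t : ℝ => x + t • (Pi.single i 1 : Fin n → ℝ)) (𝓝 0) (𝓝 x) := by
      have : Continuous fun t : ℝ => x + t • (Pi.single i 1 : Fin n → ℝ) := by fun_prop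
      have h4 := this.tendsto 0
      simpa using h4
    exact h3.eventually h1
  rw [h2.deriv_eq]
  simp

end ScG

open ScG

theorem core_resc_aux (hn : 3 ≤ n) (hK : 1 ≤ K) {a : Fin n → ℝ} {r c V : ℝ} (hr : 0 < r)
    (hV : 0 < V) (hVd : V = gvol (cmet u G) (eball a (2 * r)))
    (hc : c = Real.log r - Real.log V / n) (hΩ : IsOpen Ω) (hG : IsMetricOn Ω G)
    (hs : ecball a (2 * r) ⊆ Ω)
    (hlow : ∀ p ∈ eball a (2 * r), ∀ v : Fin n → ℝ,
      ∑ i, v i ^ 2 ≤ K * ∑ i, ∑ j, G p i j * v i * v j)
    (hup : ∀ p ∈ eball a (2 * r), ∀ v : Fin n → ℝ,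
      ∑ i, ∑ j, G p i j * v i * v j ≤ K * ∑ i, v i ^ 2)
    (hric : ∀ p ∈ eball a (2 * r), ∀ v : Fin n → ℝ,
      r ^ 2 * ∑ i, ∑ j, ricci G i j p * v i * v j ≤ K * ∑ i, v i ^ 2)
    (hu : ∀ p ∈ Ω, ContDiffAt ℝ ∞ u p) (hlam : 0 ≤ lam)
    (hR : ∀ p ∈ eball a (2 * r), ∀ v : Fin n → ℝ,
      -lam * ∑ i, ∑ j, cmet u G p i j * v i * v j ≤
        ∑ i, ∑ j, ricci (cmet u G) i j p * v i * v j)
    (hS : Sobolev (cmet u G) (eball a (2 * r)) S) :
    Core n (K ^ 2 + K ^ n * volume.real (B n 2)) (max S 1) (lam * V ^ (2 / n : ℝ))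
      {x | aff a r x ∈ Ω} (fun x => G (aff a r x)) (fun x => u (aff a r x) + c) := by
  have hn0 : (0 : ℝ) < n := by
    have : (3 : ℝ) ≤ n := by exact_mod_cast hn
    linarith
  have hn2 : (0 : ℝ) < (n : ℝ) - 2 := by
    have : (3 : ℝ) ≤ n := by exact_mod_cast hn
    linarith
  have hK0 : (0 : ℝ) ≤ K := by linarith
  have hexp : ∀ s : ℝ, Real.exp (s * c) = r ^ s * V ^ (-(s / n)) := by
    intro s
    rw [Real.rpow_def_of_pos hr, Real.rpow_def_of_pos hV, ← Real.exp_add, hc]
    congr 1
    field_simp
    ring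
  have he2 : lam * V ^ (2 / n : ℝ) * Real.exp (2 * c) = lam * r ^ 2 := by
    rw [hexp, Real.rpow_neg hV.le, Real.rpow_ofNat]
    have h1 : V ^ (2 / n : ℝ) ≠ 0 := (Real.rpow_pos_of_pos hV _).ne'
    field_simp
  have hsub : ∀ x ∈ B n 2, aff a r x ∈ Ω := fun x hx =>
    hs ((mem_ec hr x).mpr (B_subset_Bc 2 hx))
  have hsubc : Bc n 2 ⊆ {x | aff a r x ∈ Ω} := fun x hx => hs ((mem_ec hr x).mpr hx)
  have hΩ' : IsOpen {x | aff a r x ∈ Ω} := hΩ.preimage (cont_aff a r)
  have hG' : IsMetricOn {x | aff a r x ∈ Ω} (fun x => G (aff a r x)) := isMetricOn_aff hr hG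
  have hu' : ∀ x ∈ {x | aff a r x ∈ Ω}, ContDiffAt ℝ ∞ (fun x => u (aff a r x) + c) x := by
    intro x hx
    refine ContDiffAt.add ?_ contDiffAt_const
    refine ContDiffAt.comp x (g := u) (hu _ hx) ?_
    unfold aff
    fun_prop
  have hlam' : 0 ≤ lam * V ^ (2 / n : ℝ) := by positivity
  have hcm : cmet (fun x => u (aff a r x) + c) (fun x => G (aff a r x)) =
      fun y => Real.exp (2 * c) • cmet u G (aff a r y) := by
    funext y
    unfold cmet
    rw [smul_smul, ← Real.exp_add]
    congr 2
    ring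
  have hupR : ∀ x ∈ B n 2, ∀ v : Fin n → ℝ,
      ∑ i, ∑ j, ricci (fun x => G (aff a r x)) i j x * v i * v j ≤
        K ^ 2 * ∑ i, ∑ j, G (aff a r x) i j * v i * v j := by
    intro x hx v
    have he := (mem_e (a := a) hr x).mpr hx
    have h0 : ∀ i j, ricci (fun x => G (aff a r x)) i j x = r ^ 2 * ricci G i j (aff a r x) := by
      intro i j
      have := ricci_aff a r (one_ne_zero) G x i j
      simpa only [one_smul] using this
    have h1 : ∑ i, ∑ j, ricci (fun x => G (aff a r x)) i j x * v i * v j =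
        r ^ 2 * ∑ i, ∑ j, ricci G i j (aff a r x) * v i * v j := by
      rw [Finset.mul_sum]
      refine Finset.sum_congr rfl fun i _ => ?_
      rw [Finset.mul_sum]
      refine Finset.sum_congr rfl fun j _ => ?_
      rw [h0]
      ring
    rw [h1]
    refine (hric _ he v).trans ?_
    have h2 := mul_le_mul_of_nonneg_left (hlow _ he v) hK0
    calc K * ∑ i, v i ^ 2 ≤ K * (K * ∑ i, ∑ j, G (aff a r x) i j * v i * v j) := h2
      _ = _ := by ring
  have hRicR : ∀ x ∈ B n 2, ∀ v : Fin n → ℝ,
      -(lam * V ^ (2 / n : ℝ)) * ∑ i, ∑ j,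
        cmet (fun x => u (aff a r x) + c) (fun x => G (aff a r x)) x i j * v i * v j ≤
        ∑ i, ∑ j, ricci (cmet (fun x => u (aff a r x) + c) (fun x => G (aff a r x))) i j x *
          v i * v j := by
    intro x hx v
    have he := (mem_e (a := a) hr x).mpr hx
    rw [hcm]
    have h1 : ∑ i, ∑ j, ricci (fun y => Real.exp (2 * c) • cmet u G (aff a r y)) i j x *
          v i * v j =
        r ^ 2 * ∑ i, ∑ j, ricci (cmet u G) i j (aff a r x) * v i * v j := by
      rw [Finset.mul_sum]
      refine Finset.sum_congr rfl fun i _ => ?_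
      rw [Finset.mul_sum]
      refine Finset.sum_congr rfl fun j _ => ?_
      rw [ricci_aff a r (Real.exp_pos _).ne' (cmet u G) x i j]
      ring
    have h2 : ∑ i, ∑ j, (Real.exp (2 * c) • cmet u G (aff a r x)) i j * v i * v j =
        Real.exp (2 * c) * ∑ i, ∑ j, cmet u G (aff a r x) i j * v i * v j := by
      rw [Finset.mul_sum]
      refine Finset.sum_congr rfl fun i _ => ?_
      rw [Finset.mul_sum]
      refine Finset.sum_congr rfl fun j _ => ?_
      rw [Matrix.smul_apply, smul_eq_mul]
      ring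
    rw [h1, h2]
    have h3 := mul_le_mul_of_nonneg_left (hR _ he v) (sq_nonneg r)
    calc -(lam * V ^ (2 / n : ℝ)) * (Real.exp (2 * c) *
          ∑ i, ∑ j, cmet u G (aff a r x) i j * v i * v j)
        = -(lam * V ^ (2 / n : ℝ) * Real.exp (2 * c)) *
          ∑ i, ∑ j, cmet u G (aff a r x) i j * v i * v j := by ring
      _ = r ^ 2 * (-lam * ∑ i, ∑ j, cmet u G (aff a r x) i j * v i * v j) := by rw [he2]; ring
      _ ≤ _ := h3
  have hKn : 0 ≤ K ^ n * volume.real (B n 2) := by positivity
  have hK2 : K ≤ K ^ 2 := by nlinarith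
  -- the integrands
  have hdens : ∀ x ∈ B n 2, Real.sqrt (cmet u G (aff a r x)).det =
      Real.exp (n * u (aff a r x)) * dens G (aff a r x) := fun x hx => dens_cmet hG (hsub x hx)
  refine ⟨hn, ?_, le_max_right _ _, hΩ', hG', hsubc, hu', hlam', ?_, ?_, ?_, ?_, ?_, ?_⟩
  · nlinarith
  · -- dual
    intro x hx f
    have h1 := dual_of hG' (hsub x hx) hK0 (fun v => hlow _ ((mem_e hr x).mpr hx) v) f
    have h2 : 0 ≤ gs f x := gs_nonneg f x
    refine h1.trans (mul_le_mul_of_nonneg_right ?_ h2)
    linarith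
  · -- mass
    have h1 : (mu n (fun x => G (aff a r x))).real Set.univ =
        ∫ p in B n 2, dens (fun x => G (aff a r x)) p := by
      have h2 := integral_mu hG' hsubc (fun _ => (1 : ℝ))
      simp only [mul_one] at h2
      rw [← h2, integral_const]
      simp
    have h3 : ∫ p in B n 2, dens (fun x => G (aff a r x)) p ≤ ∫ _p in B n 2, K ^ n := by
      refine setIntegral_mono_on ?_ ?_ (measurableSet_B 2) ?_
      · exact integrableOn_of (cdens hG' hsubc) subset_rfl
      · exact integrableOn_const (volume_B_lt_top 2).ne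
      · intro x hx
        exact dens_le hG' (hsub x hx) hK (fun v => hup _ ((mem_e hr x).mpr hx) v)
    rw [h1]
    refine h3.trans ?_
    rw [setIntegral_const, smul_eq_mul]
    nlinarith
  · -- P1
    intro x hx
    have h1 := P1_cmet hn hΩ' hG' hu' (hsub x hx) (sq_nonneg K) hlam' (hupR x hx) (hRicR x hx)
    refine h1.trans ?_
    linarith
  · -- P2
    intro x hx
    have h1 := P2_cmet hn hΩ' hG' hu' (hsub x hx) (hupR x hx) (hRicR x hx)
    refine h1.trans ?_
    refine mul_le_mul_of_nonneg_right ?_ (ip_nonneg hG' (hsub x hx))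
    linarith
  · -- Sobolev
    intro f hf hfc hft
    set F : (Fin n → ℝ) → ℝ := fun y => f (r⁻¹ • (y - a)) with hF
    have hFf : ∀ x, F (aff a r x) = f x := by
      intro x
      simp only [hF, aff, add_sub_cancel_left, smul_smul, inv_mul_cancel₀ hr.ne', one_smul]
    have hFs : ContDiff ℝ ∞ F := by
      have : ContDiff ℝ ∞ (fun y : Fin n → ℝ => r⁻¹ • (y - a)) := by fun_prop
      exact hf.comp this
    let e : (Fin n → ℝ) ≃ₜ (Fin n → ℝ) :=
      (Homeomorph.subRight a).trans (Homeomorph.smulOfNeZero r⁻¹ (inv_ne_zero hr.ne'))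
    have he : F = f ∘ e := by
      funext y
      rfl
    have hFc : HasCompactSupport F := by
      rw [he]
      exact hfc.comp_homeomorph e
    have hFt : tsupport F ⊆ eball a (2 * r) := by
      intro y hy
      rw [he, tsupport_comp_eq_preimage] at hy
      have h1 : e y ∈ B n 2 := hft hy
      have h2 : aff a r (e y) = y := by
        change a + r • (r⁻¹ • (y - a)) = y
        rw [smul_smul, mul_inv_cancel₀ hr.ne', one_smul]
        abel
      rw [← h2]
      exact (mem_e hr _).mpr h1
    have key := hS F hFs hFc hFt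
    have hf0 : ∀ x, x ∉ B n 2 → f x = 0 := fun x hx =>
      image_eq_zero_of_notMem_tsupport fun h => hx (hft h)
    have hpd : ∀ i p, pd i f p = r * pd i F (aff a r p) := by
      intro i p
      have h1 : f = fun x => F (aff a r x) := by
        funext x
        exact (hFf x).symm
      rw [← pd_aff1 a r F p i, ← h1]
    have hq : (2 * n / (n - 2) : ℝ) ≠ 0 := by positivity
    -- the left side
    have hL : ∫ p, |f p| ^ (2 * n / (n - 2) : ℝ) * Real.exp (n * (u (aff a r p) + c))
          ∂(mu n (fun x => G (aff a r x))) =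
        V⁻¹ * ∫ p, |F p| ^ (2 * n / (n - 2) : ℝ) * Real.sqrt (cmet u G p).det := by
      obtain ⟨H, hH⟩ : ∃ H : (Fin n → ℝ) → ℝ, H = fun y => |F y| ^ (2 * n / (n - 2) : ℝ) *
            Real.sqrt (cmet u G y).det := ⟨_, rfl⟩
      rw [integral_mu hG' hsubc, setIntegral_eq_integral_of_forall_compl_eq_zero]
      · have h1 : ∀ p, dens (fun x => G (aff a r x)) p *
              (|f p| ^ (2 * n / (n - 2) : ℝ) * Real.exp (n * (u (aff a r p) + c))) =
            Real.exp (n * c) * H (aff a r p) := by
          intro p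
          rw [hH]
          simp only [hFf]
          by_cases hp : p ∈ B n 2
          · rw [hdens p hp, mul_add, Real.exp_add]
            unfold dens
            ring
          · rw [hf0 p hp, abs_zero, Real.zero_rpow hq]
            ring
        rw [integral_congr_ae (Eventually.of_forall h1), integral_const_mul, integral_aff hr H,
          hexp, ← hH]
        have h2 : r ^ (n : ℝ) = r ^ n := Real.rpow_natCast r n
        rw [h2, Real.rpow_neg hV.le, div_self hn0.ne', Real.rpow_one]
        have h3 : r ^ n ≠ 0 := (pow_pos hr n).ne'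
        field_simp
      · intro x hx
        rw [hf0 x hx, abs_zero, Real.zero_rpow hq]
        ring
    have hRt : ∫ p, ip (fun x => G (aff a r x)) f f p *
          Real.exp ((n - 2) * (u (aff a r p) + c)) ∂(mu n (fun x => G (aff a r x))) =
        V ^ (-((n - 2) / n : ℝ)) * ∫ p, (∑ i, ∑ j, (cmet u G p)⁻¹ i j * pd i F p * pd j F p) *
          Real.sqrt (cmet u G p).det := by
      obtain ⟨H, hH⟩ : ∃ H : (Fin n → ℝ) → ℝ, H = fun y =>
          (∑ i, ∑ j, (cmet u G y)⁻¹ i j * pd i F y * pd j F y) *
            Real.sqrt (cmet u G y).det := ⟨_, rfl⟩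
      have hip0 : ∀ x, x ∉ B n 2 → ip (fun x => G (aff a r x)) f f x = 0 := by
        intro x hx
        have h1 : ∀ i, pd i f x = 0 := pd_zero_of fun h => hx (hft h)
        unfold ip
        simp only [h1, mul_zero, Finset.sum_const_zero]
      rw [integral_mu hG' hsubc, setIntegral_eq_integral_of_forall_compl_eq_zero]
      · have h1 : ∀ p, dens (fun x => G (aff a r x)) p * (ip (fun x => G (aff a r x)) f f p *
              Real.exp ((n - 2) * (u (aff a r p) + c))) =
            Real.exp (((n : ℝ) - 2) * c) * r ^ 2 * H (aff a r p) := by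
          intro p
          rw [hH]
          by_cases hp : p ∈ B n 2
          · have h2 : ip (fun x => G (aff a r x)) f f p = r ^ 2 *
                ∑ i, ∑ j, (G (aff a r p))⁻¹ i j * pd i F (aff a r p) * pd j F (aff a r p) := by
              unfold ip
              rw [Finset.mul_sum]
              refine Finset.sum_congr rfl fun i _ => ?_
              rw [Finset.mul_sum]
              refine Finset.sum_congr rfl fun j _ => ?_
              rw [hpd i, hpd j]
              ring
            have h3 : ∑ i, ∑ j, (cmet u G (aff a r p))⁻¹ i j * pd i F (aff a r p) *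
                  pd j F (aff a r p) = Real.exp (-(2 * u (aff a r p))) *
                ∑ i, ∑ j, (G (aff a r p))⁻¹ i j * pd i F (aff a r p) * pd j F (aff a r p) := by
              rw [inv_cmet hG (hsub p hp), Finset.mul_sum]
              refine Finset.sum_congr rfl fun i _ => ?_
              rw [Finset.mul_sum]
              refine Finset.sum_congr rfl fun j _ => ?_
              rw [Matrix.smul_apply, smul_eq_mul]
              ring
            have h4 : Real.exp (((n : ℝ) - 2) * (u (aff a r p) + c)) =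
                Real.exp (-(2 * u (aff a r p))) * Real.exp (n * u (aff a r p)) *
                  Real.exp (((n : ℝ) - 2) * c) := by
              rw [← Real.exp_add, ← Real.exp_add]
              congr 1
              ring
            simp only []
            rw [h2, h3, hdens p hp, h4]
            unfold dens
            ring
          · have h5 : ∀ i, pd i F (aff a r p) = 0 := by
              intro i
              have h6 := hpd i p
              rw [pd_zero_of (fun h => hp (hft h)) i] at h6
              exact (mul_eq_zero.mp h6.symm).resolve_left hr.ne'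
            rw [hip0 p hp]
            simp only [h5, mul_zero, Finset.sum_const_zero, zero_mul]
        rw [integral_congr_ae (Eventually.of_forall h1), integral_const_mul, integral_aff hr H,
          hexp, ← hH]
        have h2 : r ^ ((n : ℝ) - 2) * r ^ 2 = r ^ n := by
          rw [← Real.rpow_natCast r 2, ← Real.rpow_add hr, ← Real.rpow_natCast r n]
          congr 1
          push_cast
          ring
        have h3 : r ^ n ≠ 0 := (pow_pos hr n).ne'
        calc r ^ ((n : ℝ) - 2) * V ^ (-(((n : ℝ) - 2) / n)) * r ^ 2 *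
              ((r ^ n)⁻¹ * ∫ y, H y)
            = (r ^ ((n : ℝ) - 2) * r ^ 2) * (r ^ n)⁻¹ * (V ^ (-(((n : ℝ) - 2) / n)) *
              ∫ y, H y) := by ring
          _ = _ := by rw [h2, mul_inv_cancel₀ h3, one_mul]
      · intro x hx
        rw [hip0 x hx]
        ring
    rw [hL, hRt]
    have hI0 : 0 ≤ ∫ p, |F p| ^ (2 * n / (n - 2) : ℝ) * Real.sqrt (cmet u G p).det :=
      integral_nonneg fun p => mul_nonneg (Real.rpow_nonneg (abs_nonneg _) _) (Real.sqrt_nonneg _)
    have hJ0 : 0 ≤ ∫ p, (∑ i, ∑ j, (cmet u G p)⁻¹ i j * pd i F p * pd j F p) *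
        Real.sqrt (cmet u G p).det := by
      refine integral_nonneg fun p => mul_nonneg ?_ (Real.sqrt_nonneg _)
      by_cases hp : p ∈ Ω
      · have h1 : ∑ i, ∑ j, (cmet u G p)⁻¹ i j * pd i F p * pd j F p =
            Real.exp (-(2 * u p)) * ip G F F p := by
          rw [inv_cmet hG hp]
          unfold ip
          rw [Finset.mul_sum]
          refine Finset.sum_congr rfl fun i _ => ?_
          rw [Finset.mul_sum]
          refine Finset.sum_congr rfl fun j _ => ?_
          rw [Matrix.smul_apply, smul_eq_mul]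
          ring
        rw [h1]
        exact mul_nonneg (Real.exp_pos _).le (ip_nonneg hG hp)
      · have h1 : ∀ i, pd i F p = 0 :=
          pd_zero_of fun h => hp (hs (eball_subset_ecball a _ (hFt h)))
        simp only [h1, mul_zero, Finset.sum_const_zero, le_refl]
    rw [Real.mul_rpow (inv_nonneg.mpr hV.le) hI0, Real.inv_rpow hV.le, ← Real.rpow_neg hV.le]
    have hVp : 0 ≤ V ^ (-((n - 2) / n : ℝ)) := Real.rpow_nonneg hV.le _
    calc V ^ (-((n - 2) / n : ℝ)) *
          (∫ p, |F p| ^ (2 * n / (n - 2) : ℝ) * Real.sqrt (cmet u G p).det) ^ ((n - 2) / n : ℝ)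
        ≤ V ^ (-((n - 2) / n : ℝ)) * (S * ∫ p, (∑ i, ∑ j, (cmet u G p)⁻¹ i j * pd i F p *
          pd j F p) * Real.sqrt (cmet u G p).det) := mul_le_mul_of_nonneg_left key hVp
      _ ≤ V ^ (-((n - 2) / n : ℝ)) * (max S 1 * ∫ p, (∑ i, ∑ j, (cmet u G p)⁻¹ i j * pd i F p *
          pd j F p) * Real.sqrt (cmet u G p).det) :=
        mul_le_mul_of_nonneg_left (mul_le_mul_of_nonneg_right (le_max_left _ _) hJ0) hVp
      _ = _ := by ring
  · -- the volume
    rw [integral_mu hG' hsubc]
    obtain ⟨H, hH⟩ : ∃ H : (Fin n → ℝ) → ℝ, H = fun y => Real.sqrt (cmet u G y).det := ⟨_, rfl⟩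
    have h1 : ∫ p in B n 2, dens (fun x => G (aff a r x)) p *
          Real.exp (n * (u (aff a r p) + c)) =
        ∫ p in B n 2, Real.exp (n * c) * H (aff a r p) := by
      refine setIntegral_congr_fun (measurableSet_B 2) fun p hp => ?_
      rw [hH]
      simp only []
      rw [hdens p hp, mul_add, Real.exp_add]
      unfold dens
      ring
    rw [h1, integral_const_mul, setIntegral_aff hr (by norm_num) H, mul_comm r 2, hexp]
    have h5 : ∫ y in eball a (2 * r), H y = V := by
      rw [hVd, hH]
      rfl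
    have h2 : r ^ (n : ℝ) = r ^ n := Real.rpow_natCast r n
    rw [h5, h2, Real.rpow_neg hV.le, div_self hn0.ne', Real.rpow_one]
    have h3 : r ^ n ≠ 0 := (pow_pos hr n).ne'
    have h4 : V ≠ 0 := hV.ne'
    refine le_of_eq ?_
    field_simp

end

end Pool.Agent.Helper50.CG
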