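import Pool.Agent.Helper50.CG.TestG
import Pool.Agent.Helper50.CF.Cut

/-! # CG-5: the local bound for `∫ |∇u|^{n-1}` (port of `CF/StepG.lean`)

PROOF as in `CF/StepG.lean`: `test0G`, `s = n - 3`, `ψ = φ^(n-1)`; `|ip G φ u| ≤ grG φ grG u ≤
K gr φ grG u` (`abs_ip_le`, `Core.grG_le`); `lam e^{2u} + K ≤ (Lam + K)(1 + e^u)²`, `y = 1 + e^u`,
`y^(n-1) ≤ y^n ≤ 2^n (1 + e^{nu})`; the total mass of `mu` is at most `K` (`Core.mass`, `fin_mu`). -/

namespace Pool.Agent.Helper50.CG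

open scoped ContDiff Topology
open Pool.Agent.Helper49.Ric Pool.Agent.Helper73.HB Pool.Agent.Helper50.CF MeasureTheory Filter

noncomputable section

variable {n : ℕ} {K S lam : ℝ} {Ω : Set (Fin n → ℝ)}
  {G : (Fin n → ℝ) → Matrix (Fin n) (Fin n) ℝ} {u : (Fin n → ℝ) → ℝ} {p : Fin n → ℝ}

private theorem aux1 {t c : ℝ} (ht : 0 ≤ t) (hc : 0 ≤ c) (m : ℕ) :
    c * t ^ m ≤ t ^ (m + 1) / 8 + c * (8 * c) ^ m := by
  rcases le_total (8 * c) t with h | h
  · have h1 : c * t ^ m ≤ t / 8 * t ^ m :=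
      mul_le_mul_of_nonneg_right (by linarith) (pow_nonneg ht m)
    have h2 : 0 ≤ c * (8 * c) ^ m := by positivity
    rw [pow_succ]
    linarith
  · have h1 : c * t ^ m ≤ c * (8 * c) ^ m :=
      mul_le_mul_of_nonneg_left (pow_le_pow_left₀ ht h m) hc
    have h2 : 0 ≤ t ^ (m + 1) := by positivity
    linarith

private theorem aux2 {t y lam L K : ℝ} (ht : 0 ≤ t) (hy : 0 ≤ y) (hl : 0 ≤ lam) (hL : lam ≤ L)
    (hK : 1 ≤ K) (hK2 : 8 * L ≤ K ^ 2) (k : ℕ) :
    lam * (t ^ k * y ^ 2) ≤ t ^ (k + 2) / 8 + L * K ^ k * y ^ (k + 2) := by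
  have hL0 : 0 ≤ L := hl.trans hL
  rcases le_total (K * y) t with h | h
  · have h1 : (K * y) ^ 2 ≤ t ^ 2 := pow_le_pow_left₀ (by positivity) h 2
    have h2 : lam * y ^ 2 ≤ t ^ 2 / 8 := by
      have h3 : lam * y ^ 2 ≤ L * y ^ 2 := mul_le_mul_of_nonneg_right hL (by positivity)
      have h4 : 8 * L * y ^ 2 ≤ K ^ 2 * y ^ 2 := mul_le_mul_of_nonneg_right hK2 (by positivity)
      have h5 : (K * y) ^ 2 = K ^ 2 * y ^ 2 := by ring
      linarith
    have h3 : t ^ k * (lam * y ^ 2) ≤ t ^ k * (t ^ 2 / 8) :=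
      mul_le_mul_of_nonneg_left h2 (pow_nonneg ht k)
    have h4 : 0 ≤ L * K ^ k * y ^ (k + 2) := by positivity
    have h5 : t ^ (k + 2) = t ^ k * t ^ 2 := pow_add t k 2
    calc lam * (t ^ k * y ^ 2) = t ^ k * (lam * y ^ 2) := by ring
      _ ≤ t ^ k * (t ^ 2 / 8) := h3
      _ = t ^ (k + 2) / 8 := by rw [h5]; ring
      _ ≤ _ := by linarith
  · have h1 : t ^ k ≤ (K * y) ^ k := pow_le_pow_left₀ ht h k
    have h2 : 0 ≤ t ^ (k + 2) / 8 := by positivity
    calc lam * (t ^ k * y ^ 2) ≤ L * ((K * y) ^ k * y ^ 2) := by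
          refine mul_le_mul hL (mul_le_mul_of_nonneg_right h1 (by positivity)) ?_ hL0
          positivity
      _ = L * K ^ k * y ^ (k + 2) := by rw [mul_pow, pow_add]; ring
      _ ≤ _ := by linarith

private theorem aux3 {y : ℝ} (hy : 0 ≤ y) (m : ℕ) : y ^ m ≤ 1 + y ^ (m + 1) := by
  rcases le_total y 1 with h | h
  · have h1 : y ^ m ≤ 1 := pow_le_one₀ hy h
    have h2 : 0 ≤ y ^ (m + 1) := by positivity
    linarith
  · have h1 : y ^ m ≤ y ^ (m + 1) := pow_le_pow_right₀ h (Nat.le_succ m)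
    linarith

/-- the pointwise bound, `n = k + 3` -/
private theorem aux4 {k : ℕ} {φ g d y lam L K c : ℝ} (hφ0 : 0 ≤ φ) (hφ1 : φ ≤ 1) (hg : 0 ≤ g)
    (hy : 0 ≤ y) (hl : 0 ≤ lam) (hL : lam ≤ L) (hK : 1 ≤ K) (hK2 : 8 * L ≤ K ^ 2)
    (hc : 0 ≤ c) (hd : d ≤ c * φ ^ (k + 1) * g) :
    g ^ k * d + lam * (φ ^ (k + 2) * (g ^ k * y ^ 2)) ≤
      (φ * g) ^ (k + 2) / 4 + (c * (8 * c) ^ (k + 1) + L * K ^ k) + L * K ^ k * y ^ (k + 3) := by
  have ht : 0 ≤ φ * g := mul_nonneg hφ0 hg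
  have hL0 : 0 ≤ L := hl.trans hL
  have h1 : g ^ k * d ≤ c * (φ * g) ^ (k + 1) := by
    calc g ^ k * d ≤ g ^ k * (c * φ ^ (k + 1) * g) :=
          mul_le_mul_of_nonneg_left hd (pow_nonneg hg k)
      _ = c * (φ * g) ^ (k + 1) := by rw [mul_pow]; ring
  have h2 := aux1 ht hc (k + 1)
  have h3 : lam * (φ ^ (k + 2) * (g ^ k * y ^ 2)) ≤ lam * ((φ * g) ^ k * y ^ 2) := by
    refine mul_le_mul_of_nonneg_left ?_ hl
    have h4 : φ ^ (k + 2) * (g ^ k * y ^ 2) = φ ^ 2 * ((φ * g) ^ k * y ^ 2) := by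
      rw [mul_pow]; ring
    rw [h4]
    have h5 : φ ^ 2 ≤ 1 := pow_le_one₀ hφ0 hφ1
    have h6 : 0 ≤ (φ * g) ^ k * y ^ 2 := by positivity
    calc φ ^ 2 * ((φ * g) ^ k * y ^ 2) ≤ 1 * ((φ * g) ^ k * y ^ 2) :=
          mul_le_mul_of_nonneg_right h5 h6
      _ = _ := one_mul _
  have h4 := aux2 ht hy hl hL hK hK2 k
  have h5 := aux3 hy (k + 2)
  have h6 : L * K ^ k * y ^ (k + 2) ≤ L * K ^ k * (1 + y ^ (k + 2 + 1)) :=
    mul_le_mul_of_nonneg_left h5 (by positivity)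
  have h7 : k + 2 + 1 = k + 3 := rfl
  have h8 : k + 1 + 1 = k + 2 := rfl
  rw [h7] at h6
  rw [h8] at h2
  linarith

private theorem pd_pow' {φ : (Fin n → ℝ) → ℝ} (hφ : ContDiff ℝ ∞ φ) (m : ℕ) (i : Fin n)
    (p : Fin n → ℝ) :
    pd i (fun q => φ q ^ (m + 1)) p = (m + 1) * φ p ^ m * pd i φ p := by
  have hd : ∀ m : ℕ, DifferentiableAt ℝ (fun q => φ q ^ m) p := fun m =>
    diff_of_smooth (hφ.contDiffAt.pow m)
  induction m with
  | zero => simp
  | succ m ih =>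
    have h1 : (fun q => φ q ^ (m + 1 + 1)) = fun q => φ q ^ (m + 1) * φ q := by
      funext q; exact pow_succ _ _
    rw [h1, pd_mul (hd (m + 1)) (diff_of_smooth hφ.contDiffAt), ih]
    push_cast
    ring

private theorem aux5 {x : ℝ} (hx : 0 ≤ x) (m : ℕ) : (1 + x) ^ m ≤ 2 ^ m * (1 + x ^ m) := by
  have h2 : (0 : ℝ) ≤ 2 ^ m := by positivity
  have h3 : 0 ≤ x ^ m := by positivity
  rcases le_total x 1 with h | h
  · have h1 : (1 + x) ^ m ≤ 2 ^ m := pow_le_pow_left₀ (by linarith) (by linarith) m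
    nlinarith
  · have h1 : (1 + x) ^ m ≤ (2 * x) ^ m := pow_le_pow_left₀ (by linarith) (by linarith) m
    rw [mul_pow] at h1
    nlinarith

theorem exists_GG (n : ℕ) (K Lam : ℝ) : ∃ C : ℝ, 1 ≤ C ∧
    ∀ {S lam : ℝ} {Ω : Set (Fin n → ℝ)} {G : (Fin n → ℝ) → Matrix (Fin n) (Fin n) ℝ}
      {u : (Fin n → ℝ) → ℝ}, Core n K S lam Ω G u → lam ≤ Lam →
      ∫ p in B n (3 / 2), grG G u p ^ (n - 1) ∂(mu n G) ≤ C := by
  obtain ⟨c0, hc0, hcut⟩ := exists_cutoff
  -- constants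
  set L : ℝ := |Lam| + |K| with hLdef
  have hL0 : 0 ≤ L := by rw [hLdef]; positivity
  set Q : ℝ := 1 + 8 * L with hQdef
  have hQ1 : 1 ≤ Q := by rw [hQdef]; linarith
  have hQ2 : 8 * L ≤ Q ^ 2 := by rw [hQdef]; nlinarith
  set c : ℝ := (n : ℝ) * (|K| * (c0 / (2 - 3 / 2))) with hcdef
  have hc1 : 0 ≤ c0 / (2 - 3 / 2) := div_nonneg (by linarith) (by norm_num)
  have hc : 0 ≤ c := by
    rw [hcdef]; exact mul_nonneg (Nat.cast_nonneg n) (mul_nonneg (abs_nonneg _) hc1)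
  set A : ℝ := c * (8 * c) ^ (n - 2) + L * Q ^ (n - 3) with hA
  have hA0 : 0 ≤ A := by rw [hA]; positivity
  refine ⟨1 + 4 * (A * |K| + L * Q ^ (n - 3) * (2 ^ n * (|K| + 1))), ?_, ?_⟩
  · have : 0 ≤ A * |K| + L * Q ^ (n - 3) * (2 ^ n * (|K| + 1)) := by positivity
    linarith
  intro S lam Ω G u h hlam
  have hK1 := h.hK
  have hK0 : 0 ≤ K := by linarith
  have hKabs : |K| = K := abs_of_nonneg hK0
  obtain ⟨k, rfl⟩ : ∃ k, n = k + 3 := ⟨n - 3, by have := h.hn; omega⟩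
  have e1 : k + 3 - 1 = k + 2 := rfl
  have e2 : k + 3 - 2 = k + 1 := rfl
  have e3 : k + 3 - 3 = k := rfl
  rw [e2, e3] at hA
  rw [e1, e3]
  have hlL : lam + K ≤ L := by
    rw [hLdef, hKabs]
    have := le_abs_self Lam
    linarith
  obtain ⟨φ, hφ, hφc, hφs, hφ0, hφ1, hφe, hφg⟩ := hcut (k + 3) (3 / 2) 2 (by norm_num) (by norm_num)
  -- the function psi
  have hψ : ContDiff ℝ ∞ (fun p => φ p ^ (k + 2)) := hφ.pow _
  have hψs0 : Function.support (fun p => φ p ^ (k + 2)) ⊆ Function.support φ := by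
    intro p hp hp0
    apply hp
    show φ p ^ (k + 2) = 0
    rw [hp0]
    simp
  have hψs1 : tsupport (fun p => φ p ^ (k + 2)) ⊆ tsupport φ := closure_mono hψs0
  have hψs : tsupport (fun p => φ p ^ (k + 2)) ⊆ B (k + 3) 2 := hψs1.trans hφs
  have hψc : HasCompactSupport (fun p => φ p ^ (k + 2)) :=
    hφc.mono hψs0
  have hT := test0G h (s := k) (by omega) hψ hψc hψs (fun p => pow_nonneg (hφ0 p) _)
  have hcoef : (((k + 3 : ℕ) : ℝ) - 2 - (k : ℝ)) / 2 = 1 / 2 := by push_cast; ring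
  rw [hcoef] at hT
  haveI := fin_mu h.met h.sub
  -- continuity
  have cφ : Continuous φ := hφ.continuous
  have cg : ContinuousOn (grG G u) (Bc (k + 3) 2) := h.cgr
  have cu : ContinuousOn u (Bc (k + 3) 2) := h.cu
  have cexp2 : ContinuousOn (fun p => Real.exp (2 * u p)) (Bc (k + 3) 2) :=
    Real.continuous_exp.comp_continuousOn (continuousOn_const.mul cu)
  have cexpn : ContinuousOn (fun p => Real.exp (((k + 3 : ℕ) : ℝ) * u p)) (Bc (k + 3) 2) :=
    Real.continuous_exp.comp_continuousOn (continuousOn_const.mul cu)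
  have cip : ContinuousOn (fun p => ip G (fun p => φ p ^ (k + 2)) u p) (Bc (k + 3) 2) :=
    fun p hp => (smooth_ip h.met (h.sub hp) hψ.contDiffAt
      (h.smooth p (h.sub hp))).continuousAt.continuousWithinAt
  have cF1 : ContinuousOn (fun p => grG G u p ^ k * ip G (fun p => φ p ^ (k + 2)) u p)
      (Bc (k + 3) 2) := (cg.pow k).mul cip
  have cF2 : ContinuousOn (fun p => φ p ^ (k + 2) * (grG G u p ^ k *
      (lam * Real.exp (2 * u p) + K))) (Bc (k + 3) 2) :=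
    (cφ.continuousOn.pow _).mul ((cg.pow k).mul
      ((continuousOn_const.mul cexp2).add continuousOn_const))
  have cT : ContinuousOn (fun p => (φ p * grG G u p) ^ (k + 2)) (Bc (k + 3) 2) :=
    (cφ.continuousOn.mul cg).pow _
  have i0 : ∫ p, φ p ^ (k + 2) * grG G u p ^ (k + 2) ∂(mu (k + 3) G) =
      ∫ p, (φ p * grG G u p) ^ (k + 2) ∂(mu (k + 3) G) := by
    congr 1
    funext p
    rw [mul_pow]
  -- integrability
  have j1 := integrable_of h.met h.sub cF1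
  have j2 := integrable_of h.met h.sub cF2
  have jT := integrable_of h.met h.sub cT
  have jE := integrable_of h.met h.sub cexpn
  have jc : ∀ a : ℝ, Integrable (fun _ : Fin (k + 3) → ℝ => a) (mu (k + 3) G) :=
    fun a => integrable_const a
  have jE1 : Integrable (fun p => 1 + Real.exp (((k + 3 : ℕ) : ℝ) * u p)) (mu (k + 3) G) :=
    (jc 1).add jE
  have jE2 : Integrable (fun p => L * Q ^ k * (2 ^ (k + 3) *
      (1 + Real.exp (((k + 3 : ℕ) : ℝ) * u p)))) (mu (k + 3) G) :=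
    (jE1.const_mul (2 ^ (k + 3))).const_mul (L * Q ^ k)
  have jTA : Integrable (fun p => (φ p * grG G u p) ^ (k + 2) / 4 + A) (mu (k + 3) G) :=
    (jT.div_const 4).add (jc A)
  -- the pointwise bound
  have hpt : ∀ p ∈ B (k + 3) 2,
      grG G u p ^ k * ip G (fun p => φ p ^ (k + 2)) u p
        + φ p ^ (k + 2) * (grG G u p ^ k * (lam * Real.exp (2 * u p) + K)) ≤
      ((φ p * grG G u p) ^ (k + 2) / 4 + A)
        + L * Q ^ k * (2 ^ (k + 3) * (1 + Real.exp (((k + 3 : ℕ) : ℝ) * u p))) := by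
    intro p hp
    have hpO : p ∈ Ω := h.sub2 hp
    have q1 : Real.exp (2 * u p) = Real.exp (u p) ^ 2 := by
      rw [← Real.exp_nat_mul]; norm_num
    have q2 : Real.exp (((k + 3 : ℕ) : ℝ) * u p) = Real.exp (u p) ^ (k + 3) := by
      rw [← Real.exp_nat_mul]
    have he0 : 0 ≤ Real.exp (u p) := (Real.exp_pos _).le
    have hg0 := grG_nonneg G u p
    have q3 : ip G (fun p => φ p ^ (k + 2)) u p =
        ((k : ℝ) + 2) * φ p ^ (k + 1) * ip G φ u p := by
      unfold ip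
      rw [Finset.mul_sum]
      refine Finset.sum_congr rfl fun i _ => ?_
      rw [Finset.mul_sum]
      refine Finset.sum_congr rfl fun j _ => ?_
      rw [pd_pow' hφ (k + 1) i p]
      push_cast
      ring
    have q4 : ip G φ u p ≤ K * (c0 / (2 - 3 / 2)) * grG G u p := by
      refine (le_abs_self _).trans ((abs_ip_le h.met hpO φ u).trans ?_)
      refine mul_le_mul_of_nonneg_right ((h.grG_le hp φ).trans ?_) hg0
      exact mul_le_mul_of_nonneg_left (hφg p) hK0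
    have q5 : 0 ≤ ((k : ℝ) + 2) * φ p ^ (k + 1) := by
      have := hφ0 p
      positivity
    have q8 : ip G (fun p => φ p ^ (k + 2)) u p ≤ c * φ p ^ (k + 1) * grG G u p := by
      rw [q3]
      refine (mul_le_mul_of_nonneg_left q4 q5).trans ?_
      have q6 : c * φ p ^ (k + 1) * grG G u p =
          ((k : ℝ) + 3) * φ p ^ (k + 1) * (K * (c0 / (2 - 3 / 2)) * grG G u p) := by
        rw [hcdef, hKabs]; push_cast; ring
      rw [q6]
      have q7 : 0 ≤ φ p ^ (k + 1) * (K * (c0 / (2 - 3 / 2)) * grG G u p) := by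
        have := hφ0 p
        positivity
      nlinarith
    have q9 := aux4 (k := k) (hφ0 p) (hφ1 p) hg0 (y := 1 + Real.exp (u p)) (by linarith) hL0
      le_rfl hQ1 hQ2 hc q8
    have q10 : lam * Real.exp (2 * u p) + K ≤ L * (1 + Real.exp (u p)) ^ 2 := by
      have h1 : Real.exp (u p) ^ 2 ≤ (1 + Real.exp (u p)) ^ 2 :=
        pow_le_pow_left₀ he0 (by linarith) 2
      have h2 : (1 : ℝ) ≤ (1 + Real.exp (u p)) ^ 2 := by nlinarith
      have h3 : lam * Real.exp (2 * u p) ≤ lam * (1 + Real.exp (u p)) ^ 2 := by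
        rw [q1]; exact mul_le_mul_of_nonneg_left h1 h.lam0
      have h4 : K ≤ K * (1 + Real.exp (u p)) ^ 2 := by nlinarith
      have h5 : (lam + K) * (1 + Real.exp (u p)) ^ 2 ≤ L * (1 + Real.exp (u p)) ^ 2 :=
        mul_le_mul_of_nonneg_right hlL (by positivity)
      linarith
    have q11 : φ p ^ (k + 2) * (grG G u p ^ k * (lam * Real.exp (2 * u p) + K)) ≤
        L * (φ p ^ (k + 2) * (grG G u p ^ k * (1 + Real.exp (u p)) ^ 2)) := by
      have h1 : 0 ≤ φ p ^ (k + 2) * grG G u p ^ k :=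
        mul_nonneg (pow_nonneg (hφ0 p) _) (pow_nonneg hg0 _)
      have h2 := mul_le_mul_of_nonneg_left q10 h1
      calc φ p ^ (k + 2) * (grG G u p ^ k * (lam * Real.exp (2 * u p) + K))
          = φ p ^ (k + 2) * grG G u p ^ k * (lam * Real.exp (2 * u p) + K) := by ring
        _ ≤ φ p ^ (k + 2) * grG G u p ^ k * (L * (1 + Real.exp (u p)) ^ 2) := h2
        _ = _ := by ring
    have q12 : L * Q ^ k * (1 + Real.exp (u p)) ^ (k + 3) ≤
        L * Q ^ k * (2 ^ (k + 3) * (1 + Real.exp (((k + 3 : ℕ) : ℝ) * u p))) := by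
      rw [q2]
      exact mul_le_mul_of_nonneg_left (aux5 he0 (k + 3)) (by positivity)
    rw [hA]
    linarith
  have hint : (∫ p, grG G u p ^ k * ip G (fun p => φ p ^ (k + 2)) u p ∂(mu (k + 3) G))
      + (∫ p, φ p ^ (k + 2) * (grG G u p ^ k * (lam * Real.exp (2 * u p) + K))
          ∂(mu (k + 3) G)) ≤
      ((∫ p, (φ p * grG G u p) ^ (k + 2) ∂(mu (k + 3) G)) / 4
          + (mu (k + 3) G).real Set.univ * A)
        + L * Q ^ k * (2 ^ (k + 3) * ((mu (k + 3) G).real Set.univ * 1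
          + ∫ p, Real.exp (((k + 3 : ℕ) : ℝ) * u p) ∂(mu (k + 3) G))) := by
    have m1 := integral_mono_ae (μ := mu (k + 3) G) (j1.add j2) (jTA.add jE2)
      (by filter_upwards [ae_mem_B] with p hp using hpt p hp)
    have m2 : ∫ p, (grG G u p ^ k * ip G (fun p => φ p ^ (k + 2)) u p
        + φ p ^ (k + 2) * (grG G u p ^ k * (lam * Real.exp (2 * u p) + K))) ∂(mu (k + 3) G) =
        (∫ p, grG G u p ^ k * ip G (fun p => φ p ^ (k + 2)) u p ∂(mu (k + 3) G))
        + (∫ p, φ p ^ (k + 2) * (grG G u p ^ k * (lam * Real.exp (2 * u p) + K))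
          ∂(mu (k + 3) G)) := integral_add j1 j2
    have m3 : ∫ p, (((φ p * grG G u p) ^ (k + 2) / 4 + A)
        + L * Q ^ k * (2 ^ (k + 3) * (1 + Real.exp (((k + 3 : ℕ) : ℝ) * u p))))
          ∂(mu (k + 3) G) =
        ((∫ p, (φ p * grG G u p) ^ (k + 2) ∂(mu (k + 3) G)) / 4
          + (mu (k + 3) G).real Set.univ * A)
        + L * Q ^ k * (2 ^ (k + 3) * ((mu (k + 3) G).real Set.univ * 1
          + ∫ p, Real.exp (((k + 3 : ℕ) : ℝ) * u p) ∂(mu (k + 3) G))) := by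
      rw [integral_add jTA jE2, integral_add (jT.div_const 4) (jc A), integral_const_mul,
        integral_const_mul, integral_add (jc 1) jE, integral_div, integral_const,
        integral_const]
      rfl
    rw [← m2, ← m3]
    exact m1
  rw [i0] at hT
  have hv := h.vol
  have hm := h.mass
  have hm0 : 0 ≤ (mu (k + 3) G).real Set.univ := measureReal_nonneg
  have hLQ : 0 ≤ L * Q ^ k := by positivity
  have hmA : (mu (k + 3) G).real Set.univ * A ≤ A * |K| := by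
    rw [hKabs, mul_comm A K]
    exact mul_le_mul_of_nonneg_right hm hA0
  have hv2 : L * Q ^ k * (2 ^ (k + 3) * ((mu (k + 3) G).real Set.univ * 1
      + ∫ p, Real.exp (((k + 3 : ℕ) : ℝ) * u p) ∂(mu (k + 3) G))) ≤
      L * Q ^ k * (2 ^ (k + 3) * (|K| + 1)) := by
    refine mul_le_mul_of_nonneg_left (mul_le_mul_of_nonneg_left ?_ (by positivity)) hLQ
    rw [hKabs, mul_one]
    exact add_le_add hm hv
  have hfin : ∫ p, (φ p * grG G u p) ^ (k + 2) ∂(mu (k + 3) G) ≤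
      4 * (A * |K| + L * Q ^ k * (2 ^ (k + 3) * (|K| + 1))) := by
    linarith
  -- restriction to the ball of radius 3/2
  have r1 : ∫ p in B (k + 3) (3 / 2), grG G u p ^ (k + 2) ∂(mu (k + 3) G) =
      ∫ p in B (k + 3) (3 / 2), (φ p * grG G u p) ^ (k + 2) ∂(mu (k + 3) G) := by
    refine setIntegral_congr_fun (measurableSet_B _) fun p hp => ?_
    show grG G u p ^ (k + 2) = (φ p * grG G u p) ^ (k + 2)
    rw [hφe p (B_subset_Bc _ hp), one_mul]
  have r2 : ∫ p in B (k + 3) (3 / 2), (φ p * grG G u p) ^ (k + 2) ∂(mu (k + 3) G) ≤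
      ∫ p, (φ p * grG G u p) ^ (k + 2) ∂(mu (k + 3) G) :=
    setIntegral_le_integral jT (Eventually.of_forall fun p =>
      pow_nonneg (mul_nonneg (hφ0 p) (grG_nonneg G u p)) _)
  rw [r1]
  linarith

end

end Pool.Agent.Helper50.CG
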